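import Mathlib

/-!
# Jonsson cardinals and trees of sequences: definitions (MP_68c39c_lc)
-/

set_option autoImplicit false
universe u
open Cardinal Set

namespace Pool.Agent.H93.Jon

/-- An infinite cardinal `κ` is Jonsson if every structure with universe of cardinality `κ` in a
countable first-order language has a proper elementary substructure of cardinality `κ`. -/
def IsJonsson (κ : Cardinal.{u}) : Prop :=
  ∀ (L : FirstOrder.Language.{0, 0}) [Countable L.Symbols] (M : Type u) [L.Structure M],
    #M = κ → ∃ S : L.ElementarySubstructure M, (S : Set M) ≠ Set.univ ∧ #(S : Set M) = κ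

/-- A `κ`-tree of sequences with values in `A`: level `a` is a nonempty set of fewer than `κ`
functions from the ordinals below `a` to `A`, and restrictions of members are members. -/
structure IsSeqTree (κ : Cardinal.{u}) (A : Type u)
    (T : (a : κ.ord.ToType) → Set (Set.Iio a → A)) : Prop where
  nonempty : ∀ a, (T a).Nonempty
  small : ∀ a, #(T a) < κ
  restrict : ∀ a b (h : a ≤ b), ∀ t ∈ T b,
    (fun ξ : Set.Iio a => t ⟨ξ.1, lt_of_lt_of_le ξ.2 h⟩) ∈ T a

end Pool.Agent.H93.Jon
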