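import Mathlib
import Pool.Agent.H93.Jon.Defs

/-!
# Jonsson cardinals: tools (MP_68c39c_lc)

1. (`exists_swallow`) A successor `ρ⁺` of a regular cardinal carries an algebra with two operations
   whose only unbounded subalgebra is the whole algebra: points of cofinality `ρ` that are limits
   of a subalgebra belong to it, and an Ulam matrix names every ordinal by such a point in every
   club.
2. (`IsJonsson.exists_closed`) Hence a limit Jonsson cardinal `κ` is Jonsson for languages of any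
   size `θ < κ`.
3. (`fodor`, `isStationary_tail`, `stationary_pigeon`) Clubs and stationary sets.
-/

set_option autoImplicit false
set_option linter.unusedSectionVars false
set_option linter.unusedVariables false
universe u
open Cardinal Set

namespace Pool.Agent.H93.Jon

/-- `K` is a well-order of regular type `κ`. -/
structure Reg (K : Type u) [LinearOrder K] (κ : Cardinal.{u}) : Prop where
  inf : ℵ₀ ≤ κ
  small : ∀ a : K, #(Set.Iio a) < κ
  bdd : ∀ s : Set K, #s < κ → ∃ b, ∀ x ∈ s, x < b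

theorem reg_toType {κ : Cardinal.{u}} (h : κ.IsRegular) : Reg κ.ord.ToType κ := by
  refine ⟨h.aleph0_le, fun a => by simpa using mk_Iio_lt a, fun s hs => ?_⟩
  have h1 : κ ≤ Order.cof κ.ord.ToType := by
    rw [Ordinal.cof_toType]; exact h.le_cof_ord
  by_contra hcon
  push Not at hcon
  have h2 : IsCofinal s := fun b => hcon b
  exact absurd (lt_of_le_of_lt (Order.le_cof_iff.1 h1 s h2) hs) (lt_irrefl _)

variable {K : Type u} [LinearOrder K] {κ : Cardinal.{u}}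

theorem Reg.exists_gt (h : Reg K κ) (a : K) : ∃ b, a < b := by
  obtain ⟨b, hb⟩ := h.bdd {a} (by simpa using lt_of_lt_of_le one_lt_aleph0 h.inf)
  exact ⟨b, hb a rfl⟩

theorem Reg.bdd_range (h : Reg K κ) {ι : Type u} (f : ι → K) (hι : #ι < κ) : ∃ b, ∀ i, f i < b := by
  obtain ⟨b, hb⟩ := h.bdd (Set.range f) (lt_of_le_of_lt mk_range_le hι)
  exact ⟨b, fun i => hb _ ⟨i, rfl⟩⟩

theorem Reg.le_card (h : Reg K κ) [Nonempty K] (s : Set K) (hs : ∀ a, ∃ b ∈ s, a ≤ b) : κ ≤ #s := by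
  by_contra hcon
  obtain ⟨b, hb⟩ := h.bdd s (not_le.1 hcon)
  obtain ⟨c, hc, hbc⟩ := hs b
  exact absurd (hb c hc) (not_lt.2 hbc)

theorem Reg.unbdd (h : Reg K κ) (s : Set K) (hs : κ ≤ #s) (a : K) : ∃ b ∈ s, a < b := by
  by_contra hcon
  push Not at hcon
  have h1 : s ⊆ Set.Iic a := fun x hx => hcon x hx
  obtain ⟨b, hb⟩ := h.exists_gt a
  have h2 : s ⊆ Set.Iio b := fun x hx => lt_of_le_of_lt (hcon x hx) hb
  exact absurd (lt_of_le_of_lt (hs.trans (mk_le_mk_of_subset h2)) (h.small b)) (lt_irrefl _)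

/-- transfinite iteration -/
theorem Reg.exists_seq (h : Reg K κ) (W : Type u) [LinearOrder W] [WellFoundedLT W]
    (hW : ∀ j : W, #(Set.Iio j) < κ) (g : K → K) (ξ₀ : K) :
    ∃ x : W → K, (∀ j, ξ₀ < x j) ∧ ∀ i j, i < j → g (x i) < x j ∧ x i < x j := by
  have key : ∀ (j : W) (p : ∀ i, i < j → K), ∃ b, ξ₀ < b ∧ ∀ i (hi : i < j), g (p i hi) < b ∧ p i hi < b := by
    intro j p
    obtain ⟨b1, hb1⟩ := h.bdd_range (fun i : Set.Iio j => g (p i.1 i.2)) (hW j)
    obtain ⟨b3, hb3⟩ := h.bdd_range (fun i : Set.Iio j => p i.1 i.2) (hW j)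
    obtain ⟨b2, hb2⟩ := h.exists_gt ξ₀
    exact ⟨max (max b1 b2) b3, lt_max_of_lt_left (lt_max_of_lt_right hb2), fun i hi =>
      ⟨lt_max_of_lt_left (lt_max_of_lt_left (hb1 ⟨i, hi⟩)), lt_max_of_lt_right (hb3 ⟨i, hi⟩)⟩⟩
  choose F hF1 hF2 using key
  let x : W → K := (wellFounded_lt (α := W)).fix F
  have hx : ∀ j, x j = F j (fun i _ => x i) := fun j => WellFounded.fix_eq _ _ _
  refine ⟨x, fun j => by rw [hx]; exact hF1 _ _, fun i j hij => ?_⟩
  rw [hx j]
  exact hF2 j (fun i _ => x i) i hij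

theorem card_le_of_two {α : Type u} {θ : Cardinal.{u}} (hθ : ℵ₀ ≤ θ) {s t : Set α} (hs : #s ≤ θ)
    (ht : #t ≤ θ) : #(s ∪ t : Set α) ≤ θ :=
  (mk_union_le s t).trans ((add_le_add hs ht).trans (add_eq_self hθ).le)

theorem card_le_of_sub {α : Type u} {θ : Cardinal.{u}} {s t : Set α} (hs : #s ≤ θ)
    (h : t ⊆ s) : #t ≤ θ := (mk_le_mk_of_subset h).trans hs

theorem card_iUnion_le {ι α : Type u} {θ : Cardinal.{u}} (hθ : ℵ₀ ≤ θ) (hι : #ι ≤ θ)
    (f : ι → Set α) (hf : ∀ i, #(f i) ≤ θ) : #(⋃ i, f i : Set α) ≤ θ := by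
  refine (mk_iUnion_le f).trans ?_
  have : (⨆ i, #(f i)) ≤ θ := ciSup_le' hf
  exact (mul_le_mul' hι this).trans (mul_eq_self hθ).le

/-! ### successors of regular cardinals carry a bad algebra -/

section Swallow

variable {V : Type u} [LinearOrder V] [WellFoundedLT V] {ρ : Cardinal.{u}}

/-- points of cofinality at least `ρ`. -/
def Hi (ρ : Cardinal.{u}) (α : V) : Prop := ∀ Y : Set V, Y ⊆ Set.Iio α → #Y < ρ → ∃ y < α, ∀ x ∈ Y, x < y

/-- closed and unbounded -/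
def Clu (D : Set V) : Prop := (∀ y, ∃ x ∈ D, y < x) ∧
  ∀ α, (∃ y, y < α) → (∀ y < α, ∃ x ∈ D, y < x ∧ x < α) → α ∈ D

theorem exists_swallow (hV : Reg V (Order.succ ρ)) (hcard : #V = Order.succ ρ) (hρ : ρ.IsRegular) :
    ∃ (m : V → V → V) (p : V → V), ∀ C : Set V, (∀ a, ∃ c ∈ C, a ≤ c) →
      (∀ a ∈ C, ∀ b ∈ C, m a b ∈ C) → (∀ a ∈ C, p a ∈ C) → ∀ a, a ∈ C := by
  classical
  have hR : Reg ρ.ord.ToType ρ := reg_toType hρ
  set R := ρ.ord.ToType with hRdef
  have hRcard : #R = ρ := mk_ord_toType ρ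
  have he : ∀ α : V, ∃ e : V → R, Set.InjOn e (Set.Iio α) := by
    intro α
    have h1 : #(Set.Iio α) ≤ #R := by
      rw [hRcard]; exact Order.lt_succ_iff.1 (hV.small α)
    obtain ⟨f⟩ := (Cardinal.le_def _ _).1 h1
    have : Nonempty R := by
      rw [← Cardinal.mk_ne_zero_iff, hRcard]; exact hρ.pos.ne'
    refine ⟨fun x => if h : x < α then f ⟨x, h⟩ else Classical.arbitrary R, ?_⟩
    intro x hx y hy hxy
    have hx' : x < α := hx
    have hy' : y < α := hy
    simp only [hx', hy', dif_pos] at hxy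
    exact congrArg Subtype.val (f.injective hxy)
  choose e he using he
  let X : V → Set V := fun β => {x | x < β ∧ ∀ y, x < y → y < β → e β x < e β y}
  have hX1 : ∀ β y, y < β → ∃ x ∈ X β, y ≤ x := by
    intro β y hy
    let s : Set R := (e β) '' (Set.Ico y β)
    have hs : s.Nonempty := ⟨e β y, y, ⟨le_rfl, hy⟩, rfl⟩
    obtain ⟨r, hr, hmin⟩ := WellFounded.has_min (wellFounded_lt (α := R)) s hs
    obtain ⟨x, hx, rfl⟩ := hr
    refine ⟨x, ⟨hx.2, fun z hz hzβ => ?_⟩, hx.1⟩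
    have h2 := hmin (e β z) ⟨z, ⟨hx.1.trans hz.le, hzβ⟩, rfl⟩
    refine lt_of_le_of_ne (not_lt.1 h2) (fun h3 => ?_)
    exact absurd (he β hx.2 hzβ h3) hz.ne
  have hX2 : ∀ β z, z < β → #(X β ∩ Set.Iio z : Set V) < ρ := by
    intro β z hz
    obtain ⟨x0, hx0, hzx⟩ := hX1 β z hz
    have hmap : ∀ x ∈ X β ∩ Set.Iio z, e β x < e β x0 := fun x hx =>
      hx.1.2 x0 (lt_of_lt_of_le hx.2 hzx) hx0.1
    have h1 : #(X β ∩ Set.Iio z : Set V) ≤ #(Set.Iio (e β x0)) := by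
      refine mk_le_of_injective (f := fun x => (⟨e β x.1, hmap x.1 x.2⟩ : Set.Iio (e β x0))) ?_
      intro x y hxy
      have h2 : e β x.1 = e β y.1 := congrArg Subtype.val hxy
      exact Subtype.ext (he β x.2.1.1 y.2.1.1 h2)
    exact lt_of_le_of_lt h1 (hR.small _)
  have hm : ∃ m : V → V → V, ∀ β y, y < β → m β y ∈ X β ∧ y ≤ m β y := by
    have : ∀ β y, ∃ x, y < β → x ∈ X β ∧ y ≤ x := by
      intro β y
      by_cases h : y < β
      · obtain ⟨x, hx, hy⟩ := hX1 β y h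
        exact ⟨x, fun _ => ⟨hx, hy⟩⟩
      · exact ⟨y, fun h' => absurd h' h⟩
    choose m hm using this
    exact ⟨m, hm⟩
  obtain ⟨m, hm⟩ := hm
  -- swallowing
  have hsw : ∀ C : Set V, (∀ a, ∃ c ∈ C, a ≤ c) → (∀ a ∈ C, ∀ b ∈ C, m a b ∈ C) →
      ∀ α, Hi ρ α → (∀ y < α, ∃ c ∈ C, y ≤ c ∧ c < α) → α ∈ C := by
    intro C hunb hcl α hHi hlim
    by_contra hα
    obtain ⟨β, hβ, hmin⟩ := WellFounded.has_min (wellFounded_lt (α := V)) {c | c ∈ C ∧ α ≤ c}
      (by obtain ⟨c, hc, hac⟩ := hunb α; exact ⟨c, hc, hac⟩)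
    have hαβ : α < β := lt_of_le_of_ne hβ.2 (fun h => hα (h ▸ hβ.1))
    obtain ⟨y, hy, hyb⟩ := hHi (X β ∩ Set.Iio α) (fun x hx => hx.2) (hX2 β α hαβ)
    obtain ⟨c, hc, hyc, hcα⟩ := hlim y hy
    obtain ⟨h1, h2⟩ := hm β c (hcα.trans hαβ)
    have h3 : m β c ∈ C := hcl β hβ.1 c hc
    have h4 : m β c < α := by
      by_contra h5
      exact hmin (m β c) ⟨h3, not_lt.1 h5⟩ h1.1
    have h5 := hyb (m β c) ⟨h1, h4⟩
    exact absurd (lt_of_lt_of_le h5 (hyc.trans h2)) (lt_irrefl _)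
  -- clubs meet
  have hcof : ∀ (D : R → Set V), (∀ i, Clu (D i)) → ∀ ξ : V, ∃ α, Hi ρ α ∧ ξ < α ∧ ∀ i, α ∈ D i := by
    intro D hD ξ
    have hg : ∀ x : V, ∃ b, ∀ i, ∃ z ∈ D i, x < z ∧ z < b := by
      intro x
      choose z hz hxz using fun i => (hD i).1 x
      obtain ⟨b, hb⟩ := hV.bdd_range z (by rw [hRcard]; exact Order.lt_succ ρ)
      exact ⟨b, fun i => ⟨z i, hz i, hxz i, hb i⟩⟩
    choose g hg using hg
    obtain ⟨x, hx0, hx⟩ := hV.exists_seq R (fun j => (hR.small j).trans (Order.lt_succ ρ)) g ξ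
    obtain ⟨α, hα, hmin⟩ := WellFounded.has_min (wellFounded_lt (α := V)) {a | ∀ j, x j < a}
      (hV.bdd_range x (by rw [hRcard]; exact Order.lt_succ ρ))
    have hlub : ∀ y < α, ∃ j, y ≤ x j := by
      intro y hy
      by_contra hcon
      push Not at hcon
      exact hmin y hcon hy
    have hRne : Nonempty R := by
      rw [← Cardinal.mk_ne_zero_iff, hRcard]; exact hρ.pos.ne'
    obtain ⟨j0⟩ := hRne
    refine ⟨α, ?_, (hx0 j0).trans (hα j0), fun i => ?_⟩
    · intro Y hY hYc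
      choose j hj using fun y : Y => hlub y.1 (hY y.2)
      obtain ⟨jb, hjb⟩ := hR.bdd (Set.range j) (lt_of_le_of_lt mk_range_le hYc)
      refine ⟨x jb, hα jb, fun y hy => ?_⟩
      exact lt_of_le_of_lt (hj ⟨y, hy⟩) (hx _ _ (hjb _ ⟨⟨y, hy⟩, rfl⟩)).2
    · refine (hD i).2 α ⟨x j0, hα j0⟩ (fun y hy => ?_)
      obtain ⟨j, hj⟩ := hlub y hy
      obtain ⟨z, hz, hxz, hzg⟩ := hg (x j) i
      obtain ⟨j', hj'⟩ := hR.exists_gt j
      exact ⟨z, hz, lt_of_le_of_lt hj hxz, hzg.trans ((hx j j' hj').1.trans (hα j'))⟩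
  -- Ulam
  have hul : ∀ ξ : V, ∃ i : R, ∀ D : Set V, Clu D → ∃ α, Hi ρ α ∧ α ∈ D ∧ ξ < α ∧ e α ξ = i := by
    intro ξ
    by_contra hcon
    push Not at hcon
    choose D hD hDn using hcon
    obtain ⟨α, h1, h2, h3⟩ := hcof D hD ξ
    exact hDn (e α ξ) α h1 (h3 _) h2 rfl
  choose i hi using hul
  have hpig : ∃ i0 : R, #(i ⁻¹' {i0}) = #V := by
    refine infinite_pigeonhole i ?_ ?_
    · rw [hcard]; exact hρ.aleph0_le.trans (Order.le_succ ρ)
    · rw [hRcard, hcard, (isRegular_succ hρ.aleph0_le).cof_ord]; exact Order.lt_succ ρ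
  obtain ⟨i0, hi0⟩ := hpig
  obtain ⟨h⟩ := Cardinal.eq.1 hi0
  let p : V → V := fun α => if H : ∃ ξ, ∃ (hξ : i ξ = i0), ξ < α ∧ e α ξ = i0 then
    h ⟨Classical.choose H, (Classical.choose_spec H).1⟩ else α
  have hp : ∀ α ξ (hξ : i ξ = i0), ξ < α → e α ξ = i0 → p α = h ⟨ξ, hξ⟩ := by
    intro α ξ hξ h1 h2
    have H : ∃ ξ, ∃ (hξ : i ξ = i0), ξ < α ∧ e α ξ = i0 := ⟨ξ, hξ, h1, h2⟩
    have e1 : p α = h ⟨Classical.choose H, (Classical.choose_spec H).1⟩ := dif_pos H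
    have e2 : Classical.choose H = ξ := by
      obtain ⟨_, h3, h4⟩ := Classical.choose_spec H
      exact he α h3 h1 (h4.trans h2.symm)
    rw [e1]
    congr 1
    exact Subtype.ext e2
  refine ⟨m, p, fun C hunb hcl hclp a => ?_⟩
  obtain ⟨⟨ξ, hξ⟩, hξa⟩ := h.surjective a
  have hE : Clu {α : V | ∀ y < α, ∃ c ∈ C, y ≤ c ∧ c < α} := by
    refine ⟨fun y => ?_, fun α _ hα y hy => ?_⟩
    · obtain ⟨c, hc, hyc⟩ := hunb y
      obtain ⟨α, hα, hmin⟩ := WellFounded.has_min (wellFounded_lt (α := V)) {a | c < a}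
        (hV.exists_gt c)
      refine ⟨α, fun z hz => ⟨c, hc, ?_, hα⟩, lt_of_le_of_lt hyc hα⟩
      by_contra h5
      exact hmin z (not_le.1 h5) hz
    · obtain ⟨x, hx, hyx, hxα⟩ := hα y hy
      obtain ⟨c, hc, hyc, hcx⟩ := hx y hyx
      exact ⟨c, hc, hyc, hcx.trans hxα⟩
  obtain ⟨α, hα1, hα2, hα3, hα4⟩ := hi ξ _ hE
  have hξ' : i ξ = i0 := hξ
  have hαC : α ∈ C := hsw C hunb hcl α hα1 hα2
  have := hclp α hαC
  rw [hp α ξ hξ' hα3 (hα4.trans hξ')] at this
  rw [← hξa]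
  exact this

end Swallow

/-! ### Jonsson cardinals -/

theorem IsJonsson.ops {κ : Cardinal.{u}} (hJ : IsJonsson κ) {K : Type u} (hK : #K = κ)
    (op : ℕ → List K → K) :
    ∃ C : Set K, C ≠ Set.univ ∧ #C = κ ∧ ∀ k (l : List K), (∀ x ∈ l, x ∈ C) → op k l ∈ C := by
  let L : FirstOrder.Language.{0, 0} := ⟨fun _ => ℕ, fun _ => Empty⟩
  let _ : L.Structure K := ⟨fun {n} f v => op f (List.ofFn v), fun {n} r _ => r.elim⟩
  have : Countable L.Symbols := by
    have : Countable (Σ l, L.Functions l) := inferInstanceAs (Countable (Σ _ : ℕ, ℕ))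
    have : Countable (Σ l, L.Relations l) := inferInstanceAs (Countable (Σ _ : ℕ, Empty))
    exact inferInstanceAs (Countable ((Σ l, L.Functions l) ⊕ (Σ l, L.Relations l)))
  obtain ⟨S, hS1, hS2⟩ := hJ L K hK
  refine ⟨(S : Set K), hS1, hS2, fun k l hl => ?_⟩
  have h1 := S.toSubstructure.fun_mem (n := l.length) (k : L.Functions l.length) (fun i => l.get i)
    (fun i => hl _ (List.get_mem l i))
  have h2 : (FirstOrder.Language.Structure.funMap (L := L) (k : L.Functions l.length)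
      (fun i => l.get i) : K) = op k l := by
    show op k (List.ofFn fun i => l.get i) = op k l
    rw [List.ofFn_get]
  rw [h2] at h1
  exact h1

section Hull

variable {K : Type u}

/-- one closure step -/
def step (F : K → K → Set K) (Y : Set K) : Set K := Y ∪ ⋃ p : Y × Y, F p.1.1 p.2.1

theorem sub_step (F : K → K → Set K) (Y : Set K) : Y ⊆ step F Y := Set.subset_union_left

theorem step_mono (F : K → K → Set K) {Y Z : Set K} (h : Y ⊆ Z) : step F Y ⊆ step F Z := by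
  intro z hz
  rcases hz with hz | hz
  · exact Or.inl (h hz)
  · obtain ⟨p, hp⟩ := Set.mem_iUnion.1 hz
    exact Or.inr (Set.mem_iUnion.2 ⟨(⟨p.1.1, h p.1.2⟩, ⟨p.2.1, h p.2.2⟩), hp⟩)

theorem card_step {θ : Cardinal.{u}} (hθ : ℵ₀ ≤ θ) {F : K → K → Set K} (hF : ∀ a b, #(F a b) ≤ θ)
    {Y : Set K} (hY : #Y ≤ θ) : #(step F Y) ≤ θ := by
  refine card_le_of_two hθ hY (card_iUnion_le hθ ?_ _ (fun p => hF _ _))
  rw [mk_prod, lift_id]
  exact (mul_le_mul' hY hY).trans (mul_eq_self hθ).le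

/-- closure of a finite set -/
def hull (F : K → K → Set K) (X : Finset K) : Set K := ⋃ n : ℕ, (step F)^[n] (X : Set K)

theorem iter_mono (F : K → K → Set K) {Y Z : Set K} (h : Y ⊆ Z) (n : ℕ) :
    (step F)^[n] Y ⊆ (step F)^[n] Z := by
  induction n with
  | zero => exact h
  | succ n ih => rw [Function.iterate_succ_apply', Function.iterate_succ_apply']; exact step_mono F ih

theorem iter_le (F : K → K → Set K) (Y : Set K) {n m : ℕ} (h : n ≤ m) :
    (step F)^[n] Y ⊆ (step F)^[m] Y := by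
  induction h with
  | refl => exact subset_rfl
  | step _ ih => exact ih.trans (by rw [Function.iterate_succ_apply']; exact sub_step F _)

theorem card_hull {θ : Cardinal.{u}} (hθ : ℵ₀ ≤ θ) {F : K → K → Set K} (hF : ∀ a b, #(F a b) ≤ θ)
    (X : Finset K) : #(hull F X) ≤ θ := by
  have h1 : ∀ n : ℕ, #((step F)^[n] (X : Set K) : Set K) ≤ θ := by
    intro n
    induction n with
    | zero =>
      refine le_trans ?_ hθ
      exact (Cardinal.lt_aleph0_iff_set_finite.2 X.finite_toSet).le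
    | succ n ih => rw [Function.iterate_succ_apply']; exact card_step hθ hF ih
  have h2 : hull F X = ⋃ n : ULift.{u} ℕ, (step F)^[n.down] (X : Set K) := by
    ext z
    simp only [hull, Set.mem_iUnion]
    exact ⟨fun ⟨n, hn⟩ => ⟨⟨n⟩, hn⟩, fun ⟨n, hn⟩ => ⟨n.down, hn⟩⟩
  rw [h2]
  exact card_iUnion_le hθ (by simpa using hθ) _ (fun n => h1 _)

theorem sub_hull (F : K → K → Set K) (X : Finset K) : (X : Set K) ⊆ hull F X := fun x hx =>
  Set.mem_iUnion.2 ⟨0, hx⟩

theorem hull_mono (F : K → K → Set K) {X Y : Finset K} (h : X ⊆ Y) : hull F X ⊆ hull F Y := by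
  intro z hz
  obtain ⟨n, hn⟩ := Set.mem_iUnion.1 hz
  exact Set.mem_iUnion.2 ⟨n, iter_mono F (Finset.coe_subset.2 h) n hn⟩

theorem hull_closed (F : K → K → Set K) (X : Finset K) {a b : K} (ha : a ∈ hull F X)
    (hb : b ∈ hull F X) : F a b ⊆ hull F X := by
  obtain ⟨n, hn⟩ := Set.mem_iUnion.1 ha
  obtain ⟨m, hm⟩ := Set.mem_iUnion.1 hb
  intro z hz
  refine Set.mem_iUnion.2 ⟨max n m + 1, ?_⟩
  rw [Function.iterate_succ_apply']
  exact Or.inr (Set.mem_iUnion.2 ⟨(⟨a, iter_le F _ (le_max_left n m) hn⟩,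
    ⟨b, iter_le F _ (le_max_right n m) hm⟩), hz⟩)

/-- A Jonsson limit cardinal is Jonsson for languages of any size below it. -/
theorem IsJonsson.exists_closed {κ : Cardinal.{u}} (hJ : IsJonsson κ)
    (hlim : ∀ μ < κ, Order.succ μ < κ) (hK : #K = κ) {θ : Cardinal.{u}} (hθ : ℵ₀ ≤ θ)
    (hθκ : θ < κ) (F : K → K → Set K) (hF : ∀ a b, #(F a b) ≤ θ) :
    ∃ C : Set K, C ≠ Set.univ ∧ #C = κ ∧ ∀ a ∈ C, ∀ b ∈ C, F a b ⊆ C := by
  classical
  have hρ : (Order.succ θ).IsRegular := isRegular_succ hθ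
  have hlr : (Order.succ (Order.succ θ)).IsRegular := isRegular_succ hρ.aleph0_le
  have hV : Reg (Order.succ (Order.succ θ)).ord.ToType (Order.succ (Order.succ θ)) := reg_toType hlr
  have hVc : #(Order.succ (Order.succ θ)).ord.ToType = Order.succ (Order.succ θ) := mk_ord_toType _
  set V := (Order.succ (Order.succ θ)).ord.ToType with hVdef
  obtain ⟨m, p, hmp⟩ := exists_swallow hV hVc hρ
  have hθV : θ < #V := by
    rw [hVc]; exact (Order.lt_succ θ).trans (Order.lt_succ _)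
  have hVκ : #V ≤ #K := by
    rw [hVc, hK]; exact (hlim _ (hlim _ hθκ)).le
  obtain ⟨ι⟩ := (Cardinal.le_def _ _).1 hVκ
  have hKne : Nonempty K := by
    rw [← Cardinal.mk_ne_zero_iff, hK]
    exact (pos_of_gt hθκ).ne'
  have hVne : Nonempty V := by
    rw [← Cardinal.mk_ne_zero_iff]
    exact (pos_of_gt hθV).ne'
  obtain ⟨z0⟩ := hKne
  let iv : K → V := Function.invFun ι
  have hiv : ∀ v, iv (ι v) = v := Function.leftInverse_invFun ι.injective
  have hs : ∀ X : Finset K, ∃ s : V, ∀ v, ι v ∈ hull F X → v < s := by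
    intro X
    have h1 : #(ι ⁻¹' hull F X : Set V) ≤ θ :=
      (mk_preimage_of_injective _ _ ι.injective).trans (card_hull hθ hF X)
    obtain ⟨s, hs⟩ := hV.bdd (ι ⁻¹' hull F X) (lt_of_le_of_lt h1 (by rw [← hVc]; exact hθV))
    exact ⟨s, fun v hv => hs v hv⟩
  choose s hs using hs
  have he : ∀ X : Finset K, ∃ e : V → K, ∀ z ∈ hull F X, ∃ v, e v = z := by
    intro X
    have h1 : #(hull F X) ≤ #V := (card_hull hθ hF X).trans hθV.le
    obtain ⟨f⟩ := (Cardinal.le_def _ _).1 h1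
    refine ⟨fun v => if h : ∃ z, f z = v then (Classical.choose h).1 else z0, fun z hz => ?_⟩
    refine ⟨f ⟨z, hz⟩, ?_⟩
    have h : ∃ z', f z' = f ⟨z, hz⟩ := ⟨_, rfl⟩
    show (if h : ∃ z', f z' = f ⟨z, hz⟩ then (Classical.choose h).1 else z0) = z
    rw [dif_pos h]
    have h2 := f.injective (Classical.choose_spec h)
    rw [h2]
  choose e he using he
  let op : ℕ → List K → K := fun k l => match k, l with
    | 0, l => ι (s l.toFinset)
    | 1, c :: l => e l.toFinset (iv c)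
    | 2, [a, b] => ι (m (iv a) (iv b))
    | 3, [a] => ι (p (iv a))
    | _, _ => z0
  obtain ⟨C, hC1, hC2, hC⟩ := hJ.ops hK op
  have hC0 : ∀ X : Finset K, (X : Set K) ⊆ C → ι (s X) ∈ C := by
    intro X hX
    have h1 := hC 0 X.toList (fun x hx => hX (by simpa using hx))
    have h2 : op 0 X.toList = ι (s X.toList.toFinset) := rfl
    rw [h2, Finset.toList_toFinset] at h1
    exact h1
  have hC1' : ∀ X : Finset K, (X : Set K) ⊆ C → ∀ v, ι v ∈ C → e X v ∈ C := by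
    intro X hX v hv
    have h1 := hC 1 (ι v :: X.toList) (fun x hx => by
      rcases List.mem_cons.1 hx with rfl | hx
      · exact hv
      · exact hX (by simpa using hx))
    have h2 : op 1 (ι v :: X.toList) = e X.toList.toFinset (iv (ι v)) := rfl
    rw [h2, Finset.toList_toFinset, hiv] at h1
    exact h1
  have hCm : ∀ a, ι a ∈ C → ∀ b, ι b ∈ C → ι (m a b) ∈ C := by
    intro a ha b hb
    have h1 := hC 2 [ι a, ι b] (fun x hx => by
      rcases List.mem_cons.1 hx with rfl | hx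
      · exact ha
      · rw [List.mem_singleton.1 hx]; exact hb)
    have h2 : op 2 [ι a, ι b] = ι (m (iv (ι a)) (iv (ι b))) := rfl
    rw [h2, hiv, hiv] at h1
    exact h1
  have hCp : ∀ a, ι a ∈ C → ι (p a) ∈ C := by
    intro a ha
    have h1 := hC 3 [ι a] (fun x hx => by rw [List.mem_singleton.1 hx]; exact ha)
    have h2 : op 3 [ι a] = ι (p (iv (ι a))) := rfl
    rw [h2, hiv] at h1
    exact h1
  by_cases hunb : ∀ a : V, ∃ c, ι c ∈ C ∧ a ≤ c
  · have hall := hmp (ι ⁻¹' C) hunb (fun a ha b hb => hCm a ha b hb) (fun a ha => hCp a ha)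
    refine ⟨C, hC1, hC2, fun a ha b hb z hz => ?_⟩
    have hX : (({a, b} : Finset K) : Set K) ⊆ C := by
      intro x hx
      have : x = a ∨ x = b := by simpa using hx
      rcases this with rfl | rfl
      · exact ha
      · exact hb
    have hz' : z ∈ hull F {a, b} := hull_closed F {a, b} (sub_hull F _ (by simp))
      (sub_hull F _ (by simp)) hz
    obtain ⟨v, hv⟩ := he {a, b} z hz'
    rw [← hv]
    exact hC1' _ hX v (hall v)
  · push Not at hunb
    obtain ⟨a0, ha0⟩ := hunb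
    refine ⟨{z | ∃ X : Finset K, (X : Set K) ⊆ C ∧ z ∈ hull F X}, ?_, ?_, ?_⟩
    · intro huniv
      have h1 : ι a0 ∈ {z | ∃ X : Finset K, (X : Set K) ⊆ C ∧ z ∈ hull F X} := by
        rw [huniv]; trivial
      obtain ⟨X, hX, hz⟩ := h1
      exact absurd ((hs X a0 hz).trans (ha0 _ (hC0 X hX))) (lt_irrefl _)
    · refine le_antisymm ((mk_set_le _).trans hK.le) ?_
      rw [← hC2]
      refine mk_le_mk_of_subset (fun x hx => ⟨{x}, by simpa using hx, sub_hull F _ (by simp)⟩)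
    · rintro a ⟨X, hX, ha⟩ b ⟨Y, hY, hb⟩ z hz
      refine ⟨X ∪ Y, by rw [Finset.coe_union]; exact Set.union_subset hX hY, ?_⟩
      exact hull_closed F (X ∪ Y) (hull_mono F Finset.subset_union_left ha)
        (hull_mono F Finset.subset_union_right hb) hz

end Hull

/-! ### clubs, stationary sets, Fodor -/

section Fodor

variable {K : Type u} [LinearOrder K] [WellFoundedLT K] {κ : Cardinal.{u}}

omit [WellFoundedLT K] in
theorem Reg.le_cof (hR : Reg K κ) (h0 : ℵ₀ < κ) : κ ≤ Order.cof K := by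
  have : Nonempty K := by
    obtain ⟨b, -⟩ := hR.bdd ∅ (by simpa using pos_of_gt h0)
    exact ⟨b⟩
  exact Order.le_cof_iff.2 (fun s hs => hR.le_card s hs)

omit [WellFoundedLT K] in
theorem Reg.cof_ne (hR : Reg K κ) (h0 : ℵ₀ < κ) : Order.cof K ≠ ℵ₀ :=
  (h0.trans_le (hR.le_cof h0)).ne'

theorem Reg.exists_lub (hR : Reg K κ) (s : Set K) (hs : #s < κ) : ∃ a, IsLUB s a := by
  obtain ⟨b, hb⟩ := hR.bdd s hs
  obtain ⟨a, ha, hmin⟩ := WellFounded.has_min (wellFounded_lt (α := K)) (upperBounds s)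
    ⟨b, fun x hx => (hb x hx).le⟩
  exact ⟨a, ha, fun c hc => not_lt.1 (hmin c hc)⟩

/-- an increasing sequence with given gaps, and its supremum -/
theorem Reg.exists_omega (hR : Reg K κ) (h0 : ℵ₀ < κ) (g : K → K) (a : K) :
    ∃ (x : ℕ → K) (c : K), x 0 = a ∧ (∀ n, x n < x (n + 1) ∧ g (x n) < x (n + 1)) ∧
      IsLUB (Set.range x) c ∧ ∀ n, x n < c := by
  choose up hup using hR.exists_gt
  have hs : ∀ x, x < max (up x) (up (g x)) ∧ g x < max (up x) (up (g x)) := fun x =>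
    ⟨lt_max_of_lt_left (hup x), lt_max_of_lt_right (hup (g x))⟩
  let x : ℕ → K := fun n => (fun z => max (up z) (up (g z)))^[n] a
  have hx : ∀ n, x (n + 1) = max (up (x n)) (up (g (x n))) := fun n => by
    show (fun z => max (up z) (up (g z)))^[n + 1] a = _
    rw [Function.iterate_succ_apply']
  obtain ⟨c, hc⟩ := hR.exists_lub (Set.range x) (by
    refine lt_of_le_of_lt ?_ h0
    exact Cardinal.le_aleph0_iff_set_countable.2 (Set.countable_range x))
  refine ⟨x, c, rfl, fun n => by rw [hx]; exact hs _, hc, fun n => ?_⟩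
  exact lt_of_lt_of_le (by rw [hx]; exact (hs _).1) (hc.1 ⟨n + 1, rfl⟩)

theorem fodor (hR : Reg K κ) (h0 : ℵ₀ < κ) {S : Set K} (hS : IsStationary S) (f : K → K)
    (hf : ∀ a ∈ S, f a < a) : ∃ c, IsStationary {a | a ∈ S ∧ f a = c} := by
  by_contra hcon
  push Not at hcon
  have h1 : ∀ c, ∃ D : Set K, IsClub D ∧ Disjoint {a | a ∈ S ∧ f a = c} D := fun c =>
    not_isStationary_iff.1 (hcon c)
  choose D hD hdis using h1
  have hclub : IsClub {a | ∀ c < a, a ∈ D c} := by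
    refine ⟨?_, ?_⟩
    · intro t ht htn _ a ha c hc
      obtain ⟨z, hz, hcz⟩ : ∃ z ∈ t, c < z := by
        by_contra hcon'
        push Not at hcon'
        exact absurd (ha.2 (fun z hz => hcon' z hz)) (not_le.2 hc)
      refine (hD c).isLUB_mem (t := {z | z ∈ t ∧ c < z}) (fun z hz => ht hz.1 c hz.2)
        ⟨z, hz, hcz⟩ ⟨fun w hw => ha.1 hw.1, fun b hb => ha.2 (fun w hw => ?_)⟩
      by_cases h : c < w
      · exact hb ⟨hw, h⟩
      · exact (not_lt.1 h).trans (hcz.le.trans (hb ⟨hz, hcz⟩))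
    · intro a
      have hg : ∀ x : K, ∃ b, ∀ c ≤ x, ∃ z ∈ D c, x < z ∧ z < b := by
        intro x
        obtain ⟨x', hx'⟩ := hR.exists_gt x
        have h2 : ∀ c : Set.Iio x', ∃ z ∈ D c.1, x < z := by
          intro c
          obtain ⟨z, hz, hz'⟩ := (hD c.1).isCofinal x'
          exact ⟨z, hz, lt_of_lt_of_le hx' hz'⟩
        choose z hz hxz using h2
        obtain ⟨b, hb⟩ := hR.bdd_range z (hR.small x')
        exact ⟨b, fun c hc => ⟨z ⟨c, lt_of_le_of_lt hc hx'⟩, hz ⟨c, lt_of_le_of_lt hc hx'⟩,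
          hxz _, hb _⟩⟩
      choose g hg using hg
      obtain ⟨x, c, hx0, hx, hlub, hxc⟩ := hR.exists_omega h0 g a
      have hmono : Monotone x := monotone_nat_of_le_succ (fun n => (hx n).1.le)
      refine ⟨c, fun γ hγ => ?_, by rw [← hx0]; exact (hxc 0).le⟩
      obtain ⟨n, hn⟩ : ∃ n, γ < x n := by
        by_contra hcon'
        push Not at hcon'
        exact absurd (hlub.2 (by rintro _ ⟨n, rfl⟩; exact hcon' n)) (not_le.2 hγ)
      have h3 : ∀ m, ∃ z ∈ D γ, x (n + m) < z ∧ z < x (n + m + 1) := by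
        intro m
        obtain ⟨z, hz, h4, h5⟩ := hg (x (n + m)) γ (hn.le.trans (hmono (Nat.le_add_right n m)))
        exact ⟨z, hz, h4, h5.trans (hx (n + m)).2⟩
      choose z hz hz1 hz2 using h3
      refine (hD γ).isLUB_mem (t := Set.range z) (by rintro _ ⟨m, rfl⟩; exact hz m)
        (Set.range_nonempty z) ⟨?_, fun b hb => hlub.2 ?_⟩
      · rintro _ ⟨m, rfl⟩
        exact ((hz2 m).trans (hxc _)).le
      · rintro _ ⟨m, rfl⟩
        exact (hmono (Nat.le_add_left m n)).trans ((hz1 m).le.trans (hb ⟨m, rfl⟩))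
  obtain ⟨a, haS, haD⟩ := hS hclub
  exact Set.disjoint_left.1 (hdis (f a)) ⟨haS, rfl⟩ (haD (f a) (hf a haS))

omit [WellFoundedLT K] in
theorem isStationary_tail (hR : Reg K κ) {S : Set K} (hS : IsStationary S) (a : K) :
    IsStationary {x | x ∈ S ∧ a < x} := by
  intro D hD
  have hclub : IsClub {x | x ∈ D ∧ a < x} := by
    refine ⟨?_, fun b => ?_⟩
    · intro t ht htn _ x hx
      obtain ⟨z, hz⟩ := htn
      exact ⟨hD.isLUB_mem (fun w hw => (ht hw).1) ⟨z, hz⟩ hx, lt_of_lt_of_le (ht hz).2 (hx.1 hz)⟩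
    · obtain ⟨c, hc⟩ := hR.exists_gt (max a b)
      obtain ⟨z, hz, hcz⟩ := hD.isCofinal c
      exact ⟨z, ⟨hz, lt_of_le_of_lt (le_max_left a b) (lt_of_lt_of_le hc hcz)⟩,
        (le_max_right a b).trans (hc.le.trans hcz)⟩
  obtain ⟨x, hx, hxD⟩ := hS hclub
  exact ⟨x, ⟨hx, hxD.2⟩, hxD.1⟩

/-- pigeonhole for stationary sets -/
theorem stationary_pigeon (hR : Reg K κ) (h0 : ℵ₀ < κ) {S : Set K} (hS : IsStationary S)
    {ι : Type u} (hι : #ι < κ) (f : K → ι) : ∃ i, IsStationary {x | x ∈ S ∧ f x = i} := by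
  have h1 : S = ⋃ i, {x | x ∈ S ∧ f x = i} := by
    ext x
    simp
  rw [h1, isStationary_iUnion_iff (hR.cof_ne h0)
    (by simpa using lt_of_lt_of_le hι (hR.le_cof h0))] at hS
  exact hS

end Fodor

end Pool.Agent.H93.Jon
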