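import Mathlib
import Pool.Agent.H93.Jon.Defs
import Pool.Agent.H93.Jon.Base

/-!
# Jonsson cardinals: the local-global principle (MP_68c39c_lc)

Let `κ` be a weakly inaccessible (regular, uncountable, limit) Jonsson cardinal and `θ < κ`.

1. (`thread`) Every family of functions `d a : a → A` (`a < κ`) that is coherent modulo sets of
   size `θ` is trivial. If fewer than `κ` closed sets have bounded intersection, glue the values
   read off in them and count the errors; otherwise all intersections of fewer than `κ` closed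
   sets are unbounded, and the values read off in closed sets that avoid a given point are
   simultaneously realised.
2. (`no_antichain`) The classes modulo `θ` places that are initial segments of stationarily many
   `t α`, `α ∈ R`, form a tree without antichains of size `κ`: a closed set that misses the index
   of one of them is left at a point `α` of `R` over which the class of `t α` is one of the `θ`
   classes on offer at the first point `β` of the closed set above `α`.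
3. (`main_thread`, `many_threads`) Such a tree has cofinal threads, fewer than `κ` of them, and
   almost every `α` in `R` lies on one of them.
4. (`branch_near`, `exists_y`, `sharp`, `main`) Threads come from branches of the tree `T`, and
   almost all `t α` on a thread differ from its branch at no more than `θ` places.
-/

set_option autoImplicit false
set_option linter.unusedSectionVars false
set_option linter.unusedVariables false
universe u
open Cardinal Set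

namespace Pool.Agent.H93.Jon

/-! ### coherent sequences are trivial -/

section Thread

variable {K : Type u} [LinearOrder K] {κ θ : Cardinal.{u}} {A : Type u}

/-- difference set -/
def Dif (d : K → K → A) (a b : K) : Set K := {ξ | ξ < a ∧ ξ < b ∧ d a ξ ≠ d b ξ}

theorem dif_comm (d : K → K → A) (a b : K) : Dif d a b = Dif d b a := by
  ext ξ; exact ⟨fun h => ⟨h.2.1, h.1, h.2.2.symm⟩, fun h => ⟨h.2.1, h.1, h.2.2.symm⟩⟩

theorem thread_of_family (hR : Reg K κ) (hlim : ∀ μ < κ, Order.succ μ < κ) (hθ : ℵ₀ ≤ θ)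
    (hθκ : θ < κ) (d : K → K → A) (hd : ∀ a b, #(Dif d a b) ≤ θ)
    (ι : Type u) (hι : #ι < κ) (C : ι → Set K) (hC : ∀ i, κ ≤ #(C i))
    (hcl : ∀ i, ∀ a ∈ C i, ∀ b ∈ C i, Dif d a b ⊆ C i) (b : K)
    (hb : ∀ ξ, b ≤ ξ → ∃ i, ξ ∉ C i) :
    ∃ y : K → A, ∀ a, #{ξ | ξ < a ∧ y ξ ≠ d a ξ} ≤ θ := by
  classical
  choose i hi using hb
  choose E hE hξE using fun ξ (h : b ≤ ξ) => hR.unbdd (C (i ξ h)) (hC _) ξ
  let y : K → A := fun ξ => if h : b ≤ ξ then d (E ξ h) ξ else d b ξ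
  have hy : ∀ ξ (h : b ≤ ξ), ∀ e ∈ C (i ξ h), ξ < e → y ξ = d e ξ := by
    intro ξ h e he hξ
    have h1 : y ξ = d (E ξ h) ξ := dif_pos h
    rw [h1]
    by_contra hne
    exact hi ξ h (hcl _ _ (hE ξ h) _ he ⟨hξE ξ h, hξ, hne⟩)
  let S : K → Set K := fun a => {ξ | b ≤ ξ ∧ ξ < a ∧ y ξ ≠ d a ξ}
  let μ : Cardinal.{u} := max #ι θ
  have hμκ : μ < κ := max_lt hι hθκ
  have hμ0 : ℵ₀ ≤ μ := hθ.trans (le_max_right _ _)
  have hS : ∀ a, #(S a) ≤ μ := by
    intro a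
    choose e he hae using fun j => hR.unbdd (C j) (hC j) a
    have h1 : S a ⊆ ⋃ j, Dif d (e j) a := by
      rintro ξ ⟨h1, h2, h3⟩
      refine Set.mem_iUnion.2 ⟨i ξ h1, h2.trans (hae _), h2, ?_⟩
      rw [← hy ξ h1 _ (he _) (h2.trans (hae _))]
      exact h3
    exact card_le_of_sub (card_iUnion_le hμ0 (le_max_left _ _) _
      (fun j => (hd _ _).trans (le_max_right _ _))) h1
  by_cases hcase : ∃ r, b ≤ r ∧ ∀ a, #(S a \ Set.Iio r : Set K) ≤ θ
  · obtain ⟨r, hbr, hr⟩ := hcase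
    refine ⟨fun ξ => if r ≤ ξ then y ξ else d r ξ, fun a => ?_⟩
    have h1 : {ξ | ξ < a ∧ (if r ≤ ξ then y ξ else d r ξ) ≠ d a ξ} ⊆
        (S a \ Set.Iio r) ∪ Dif d r a := by
      rintro ξ ⟨h1, h2⟩
      by_cases h3 : r ≤ ξ
      · rw [if_pos h3] at h2
        exact Or.inl ⟨⟨hbr.trans h3, h1, h2⟩, not_lt.2 h3⟩
      · rw [if_neg h3] at h2
        exact Or.inr ⟨not_le.1 h3, h1, h2⟩
    exact card_le_of_sub (card_le_of_two hθ (hr a) (hd _ _)) h1
  · exfalso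
    push Not at hcase
    have hg : ∀ r, ∃ a, b ≤ r → θ < #(S a \ Set.Iio r : Set K) := by
      intro r
      by_cases h : b ≤ r
      · obtain ⟨a, ha⟩ := hcase r h
        exact ⟨a, fun _ => ha⟩
      · exact ⟨r, fun h' => absurd h' h⟩
    choose g hg using hg
    have hW : ∀ j : (Order.succ μ).ord.ToType, #(Set.Iio j) < κ := fun j => by
      have h1 : #(Set.Iio j) < Order.succ μ := by simpa using mk_Iio_lt j
      exact h1.trans (hlim μ hμκ)
    obtain ⟨x, hx0, hx⟩ := hR.exists_seq (Order.succ μ).ord.ToType hW g b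
    obtain ⟨a', ha'⟩ := hR.bdd_range (fun j => g (x j)) (by
      rw [mk_ord_toType]; exact hlim μ hμκ)
    have hξ : ∀ j, ∃ ξ ∈ S a', x j ≤ ξ ∧ ξ < g (x j) := by
      intro j
      by_contra hcon
      push Not at hcon
      have h1 : S (g (x j)) \ Set.Iio (x j) ⊆ Dif d (g (x j)) a' := by
        rintro ξ ⟨⟨h1, h2, h3⟩, h4⟩
        refine ⟨h2, h2.trans (ha' j), fun h5 => ?_⟩
        exact absurd (hcon ξ ⟨h1, h2.trans (ha' j), h5 ▸ h3⟩ (not_lt.1 h4)) (not_le.2 h2)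
      exact absurd (card_le_of_sub (hd _ _) h1) (not_le.2 (hg (x j) (hx0 j).le))
    choose ξ hξS hxξ hξg using hξ
    have hmono : ∀ j k, j < k → ξ j < ξ k := fun j k hjk =>
      (hξg j).trans ((hx j k hjk).1.trans_le (hxξ k))
    have hinj : Function.Injective (fun j => (⟨ξ j, hξS j⟩ : S a')) := by
      intro j k hjk
      have h1 : ξ j = ξ k := congrArg Subtype.val hjk
      rcases lt_trichotomy j k with h | h | h
      · exact absurd h1 (hmono j k h).ne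
      · exact h
      · exact absurd h1.symm (hmono k j h).ne
    have h2 := (mk_le_of_injective hinj).trans (hS a')
    rw [mk_ord_toType] at h2
    exact absurd h2 (not_le.2 (Order.lt_succ μ))

theorem thread (hR : Reg K κ) (hK : #K = κ) (hlim : ∀ μ < κ, Order.succ μ < κ) (hθ : ℵ₀ ≤ θ)
    (hθκ : θ < κ)
    (hCP : ∀ F : K → K → Set K, (∀ a b, #(F a b) ≤ θ) →
      ∃ C : Set K, C ≠ Set.univ ∧ #C = κ ∧ ∀ a ∈ C, ∀ b ∈ C, F a b ⊆ C)
    (d : K → K → A) (hd : ∀ a b, #(Dif d a b) ≤ θ) :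
    ∃ y : K → A, ∀ a, #{ξ | ξ < a ∧ y ξ ≠ d a ξ} ≤ θ := by
  classical
  by_contra hno
  have hA : ∀ (ι : Type u), #ι < κ → ∀ C : ι → Set K, (∀ i, κ ≤ #(C i)) →
      (∀ i, ∀ a ∈ C i, ∀ b ∈ C i, Dif d a b ⊆ C i) → ∀ b, ∃ ξ, b ≤ ξ ∧ ∀ i, ξ ∈ C i := by
    intro ι hι C hC hcl b
    by_contra hcon
    push Not at hcon
    exact hno (thread_of_family hR hlim hθ hθκ d hd ι hι C hC hcl b hcon)
  let O : Set K := {ξ | ∀ C : Set K, κ ≤ #C → (∀ a ∈ C, ∀ b ∈ C, Dif d a b ⊆ C) → ξ ∈ C}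
  have hKne : Nonempty K := by
    rw [← Cardinal.mk_ne_zero_iff, hK]
    exact (pos_of_gt hθκ).ne'
  have hO : ∃ b, ∀ ξ, b ≤ ξ → ξ ∉ O := by
    by_contra hcon
    push Not at hcon
    have h1 : κ ≤ #O := hR.le_card O (fun a => by
      obtain ⟨ξ, h1, h2⟩ := hcon a
      exact ⟨ξ, h2, h1⟩)
    have h2 : #O = #K := by
      rw [hK]; exact le_antisymm ((mk_set_le _).trans hK.le) h1
    obtain ⟨h⟩ := Cardinal.eq.1 h2
    obtain ⟨C, hC1, hC2, hC3⟩ := hCP (fun a b => Dif d a b ∪ {z | ∃ ha : a ∈ O, z = h ⟨a, ha⟩})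
      (fun a b => by
        refine card_le_of_two hθ (hd a b) ?_
        have h3 : {z | ∃ ha : a ∈ O, z = h ⟨a, ha⟩}.Subsingleton := by
          rintro z ⟨ha, rfl⟩ w ⟨hb, rfl⟩
          rfl
        exact (Cardinal.mk_le_one_iff_set_subsingleton.2 h3).trans
          (one_le_aleph0.trans hθ))
    apply hC1
    ext z
    refine ⟨fun _ => trivial, fun _ => ?_⟩
    obtain ⟨⟨a, ha⟩, hza⟩ := h.surjective z
    have haC : a ∈ C := ha C hC2.ge (fun u hu v hv => Set.subset_union_left.trans (hC3 u hu v hv))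
    exact hC3 a haC a haC (Or.inr ⟨ha, hza.symm⟩)
  obtain ⟨b, hb⟩ := hO
  have hN : ∀ ζ, b ≤ ζ → ∃ C : Set K, κ ≤ #C ∧ (∀ a ∈ C, ∀ b ∈ C, Dif d a b ⊆ C) ∧ ζ ∉ C := by
    intro ζ hζ
    by_contra hcon
    push Not at hcon
    exact hb ζ hζ (fun C h1 h2 => hcon C h1 h2)
  choose N hN1 hN2 hN3 using hN
  choose E hE hζE using fun ζ (h : b ≤ ζ) => hR.unbdd (N ζ h) (hN1 ζ h) ζ
  refine hno ⟨fun ζ => if h : b ≤ ζ then d (E ζ h) ζ else d b ζ, fun a => ?_⟩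
  obtain ⟨e, hae, he⟩ := hA (Set.Ico b a)
    (lt_of_le_of_lt (mk_le_mk_of_subset (fun x hx => hx.2)) (hR.small a))
    (fun ζ => N ζ.1 ζ.2.1) (fun ζ => hN1 _ _) (fun ζ => hN2 _ _) a
  have h1 : {ξ | ξ < a ∧ (if h : b ≤ ξ then d (E ξ h) ξ else d b ξ) ≠ d a ξ} ⊆
      Dif d e a ∪ Dif d b a := by
    rintro ξ ⟨h1, h2⟩
    by_cases h3 : b ≤ ξ
    · rw [dif_pos h3] at h2
      left
      have h4 : d (E ξ h3) ξ = d e ξ := by
        by_contra hne
        exact hN3 ξ h3 (hN2 ξ h3 _ (hE ξ h3) _ (he ⟨ξ, h3, h1⟩) ⟨hζE ξ h3, h1.trans_le hae, hne⟩)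
      exact ⟨h1.trans_le hae, h1, by rw [← h4]; exact h2⟩
    · rw [dif_neg h3] at h2
      exact Or.inr ⟨not_le.1 h3, h1, h2⟩
  exact card_le_of_sub (card_le_of_two hθ (hd _ _) (hd _ _)) h1

end Thread

/-! ### inverse systems without threads have antichains of size `κ` -/

section Suslin

variable {K : Type u} [LinearOrder K] [WellFoundedLT K] {κ : Cardinal.{u}}

/-- `x` lies below `y` in the tree of an inverse system -/
def Below (Q : K → Type u) (π : ∀ a b : K, a ≤ b → Q b → Q a) (x y : Σ a, Q a) : Prop :=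
  ∃ h : x.1 ≤ y.1, π x.1 y.1 h y.2 = x.2

omit [WellFoundedLT K] in
/-- from pairwise incomparable nodes on unboundedly many levels to a family indexed by `K` -/
theorem index_antichain (hR : Reg K κ) (hK : #K = κ) [Nonempty K]
    (Q : K → Type u) (π : ∀ a b : K, a ≤ b → Q b → Q a) (B : ∀ c : K, Q c → Prop)
    (hunb : ∀ a, ∃ c, a ≤ c ∧ ∃ y : Q c, B c y)
    (hB : ∀ c c' (h : c < c') (y : Q c) (y' : Q c'), B c y → B c' y' → π c c' h.le y' ≠ y) :
    ∃ x : K → Σ a, Q a, ∀ i j, i ≠ j → ¬ Below Q π (x i) (x j) := by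
  classical
  let L : Set K := {c | ∃ y : Q c, B c y}
  have hL : κ ≤ #L := hR.le_card L (fun a => by
    obtain ⟨c, hc, y, hy⟩ := hunb a
    exact ⟨c, ⟨y, hy⟩, hc⟩)
  have hL2 : #K = #L := by
    rw [hK]; exact le_antisymm hL ((mk_set_le _).trans hK.le)
  obtain ⟨e⟩ := Cardinal.eq.1 hL2
  choose y hy using fun c : L => c.2
  refine ⟨fun i => ⟨(e i).1, y (e i)⟩, fun i j hij => ?_⟩
  rintro ⟨h, h2⟩
  have hne : (e i).1 ≠ (e j).1 := fun h' => hij (e.injective (Subtype.ext h'))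
  exact hB _ _ (lt_of_le_of_ne h hne) _ _ (hy (e i)) (hy (e j)) h2

theorem suslin (hJ : IsJonsson κ) (hR : Reg K κ) (h0 : ℵ₀ < κ) (hK : #K = κ)
    (hlim : ∀ μ < κ, Order.succ μ < κ) (Q : K → Type u) (π : ∀ a b : K, a ≤ b → Q b → Q a)
    (hid : ∀ a x, π a a le_rfl x = x)
    (hcomp : ∀ a b c (h1 : a ≤ b) (h2 : b ≤ c) x, π a b h1 (π b c h2 x) = π a c (h1.trans h2) x)
    (hne : ∀ a, Nonempty (Q a)) (hc : ∀ a, #(Q a) < κ)
    (hext : ∀ a b (h : a ≤ b) (x : Q a), ∃ y : Q b, π a b h y = x)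
    (hno : ¬ ∃ x : ∀ a, Q a, ∀ a b (h : a ≤ b), π a b h (x b) = x a) :
    ∃ x : K → Σ a, Q a, ∀ i j, i ≠ j → ¬ Below Q π (x i) (x j) := by
  classical
  have hKne : Nonempty K := by
    obtain ⟨b, -⟩ := hR.bdd ∅ (by simpa using pos_of_gt h0)
    exact ⟨b⟩
  -- splitting
  have hsplit : ∀ a (x : Q a), ∃ b, ∃ h : a ≤ b, ∃ y z : Q b,
      π a b h y = x ∧ π a b h z = x ∧ y ≠ z := by
    intro a x
    by_contra hcon
    push Not at hcon
    apply hno
    choose Y hY using fun b (h : a ≤ b) => hext a b h x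
    refine ⟨fun b => if h : a ≤ b then Y b h else π b a (not_le.1 h).le x, fun b c hbc => ?_⟩
    show π b c hbc (if h : a ≤ c then Y c h else π c a (not_le.1 h).le x) =
      (if h : a ≤ b then Y b h else π b a (not_le.1 h).le x)
    by_cases hab : a ≤ b
    · have hac : a ≤ c := hab.trans hbc
      rw [dif_pos hab, dif_pos hac]
      exact hcon b hab _ _ (by rw [hcomp]; exact hY c hac) (hY b hab)
    · by_cases hac : a ≤ c
      · rw [dif_neg hab, dif_pos hac, ← hY c hac, hcomp]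
      · rw [dif_neg hab, dif_neg hac, hcomp]
  have hg : ∀ a, ∃ b, ∃ h : a ≤ b, ∀ x : Q a, ∀ w : Q b, ∃ z : Q b, π a b h z = x ∧ z ≠ w := by
    intro a
    choose f hf1 y z hy hz hyz using fun x : Q a => hsplit a x
    obtain ⟨b, hb⟩ := hR.bdd_range f (hc a)
    obtain ⟨x0⟩ := hne a
    have hab : a ≤ b := (hf1 x0).trans (hb x0).le
    refine ⟨b, hab, fun x w => ?_⟩
    obtain ⟨y', hyy⟩ := hext _ b (hb x).le (y x)
    obtain ⟨z', hzz⟩ := hext _ b (hb x).le (z x)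
    have hyz' : y' ≠ z' := by
      intro h
      apply hyz x
      rw [← hyy, ← hzz, h]
    by_cases hw : z' = w
    · refine ⟨y', ?_, fun h => hyz' (h.trans hw.symm)⟩
      rw [← hcomp a _ b (hf1 x) (hb x).le, hyy, hy]
    · refine ⟨z', ?_, hw⟩
      rw [← hcomp a _ b (hf1 x) (hb x).le, hzz, hz]
  choose g hg1 hg2 using hg
  have hL : ∀ (x : Σ a, Q a) (m : K), ∃ (L : K) (h : x.1 ≤ L) (f : Set.Iio m → Q L),
      Function.Injective f ∧ ∀ ξ, π x.1 L h (f ξ) = x.2 := by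
    intro x m
    let μ : Cardinal.{u} := max #(Set.Iio m) ℵ₀
    have hμ : μ < κ := max_lt (hR.small m) h0
    have hW : ∀ j : (Order.succ μ).ord.ToType, #(Set.Iio j) < κ := fun j => by
      have h1 : #(Set.Iio j) < Order.succ μ := by simpa using mk_Iio_lt j
      exact h1.trans (hlim μ hμ)
    obtain ⟨ρ, hρ0, hρ⟩ := hR.exists_seq (Order.succ μ).ord.ToType hW g x.1
    obtain ⟨c, hρc⟩ := hR.bdd_range (fun j => g (ρ j)) (by
      rw [mk_ord_toType]; exact hlim μ hμ)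
    have hρc' : ∀ j, ρ j ≤ c := fun j => (hg1 _).trans (hρc j).le
    have hWne : Nonempty (Order.succ μ).ord.ToType := by
      rw [← Cardinal.mk_ne_zero_iff, mk_ord_toType]
      exact (pos_of_gt (Order.lt_succ μ)).ne'
    obtain ⟨j0⟩ := hWne
    have hxc : x.1 ≤ c := (hρ0 j0).le.trans (hρc' j0)
    obtain ⟨t, ht⟩ := hext x.1 c hxc x.2
    have hs : ∀ j, ∃ s : Q c, π (ρ j) c (hρc' j) s = π (ρ j) c (hρc' j) t ∧
        π (g (ρ j)) c (hρc j).le s ≠ π (g (ρ j)) c (hρc j).le t := by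
      intro j
      obtain ⟨z, hz2, hz3⟩ := hg2 (ρ j) (π (ρ j) c (hρc' j) t) (π (g (ρ j)) c (hρc j).le t)
      obtain ⟨s, hs2⟩ := hext _ c (hρc j).le z
      refine ⟨s, ?_, by rw [hs2]; exact hz3⟩
      rw [← hz2, ← hs2, hcomp]
    choose s hs1 hs2 using hs
    have hlt : ∀ i j, i < j → s i ≠ s j := by
      intro i j hij h
      apply hs2 i
      have h1 : g (ρ i) ≤ ρ j := (hρ i j hij).1.le
      rw [h, ← hcomp _ _ c h1 (hρc' j), hs1 j, hcomp]
    have hinj : Function.Injective s := by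
      intro i j h
      rcases lt_trichotomy i j with h1 | h1 | h1
      · exact absurd h (hlt i j h1)
      · exact h1
      · exact absurd h.symm (hlt j i h1)
    have hm : #(Set.Iio m) ≤ #(Order.succ μ).ord.ToType := by
      rw [mk_ord_toType]
      exact (le_max_left _ _).trans (Order.le_succ μ)
    obtain ⟨e⟩ := (Cardinal.le_def _ _).1 hm
    refine ⟨c, hxc, fun ξ => s (e ξ), fun ξ η h => e.injective (hinj h), fun ξ => ?_⟩
    rw [← ht, ← hcomp _ _ c (hρ0 (e ξ)).le (hρc' (e ξ)), hs1, hcomp]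
  choose L hLle f hfinj hfx using hL
  let w : ∀ a, Q a := fun a => Classical.choice (hne a)
  -- codes
  have hN : #(Σ a, Q a) ≤ #K := by
    rw [mk_sigma]
    refine (Cardinal.sum_le_mk_mul_iSup _).trans ?_
    have h1 : (⨆ a, #(Q a)) ≤ κ := ciSup_le' (fun a => (hc a).le)
    rw [hK]
    exact (mul_le_mul' le_rfl h1).trans (mul_eq_self hR.inf).le
  obtain ⟨cd⟩ := (Cardinal.le_def _ _).1 hN
  let k0 : K := Classical.choice hKne
  have hNne : Nonempty (Σ a, Q a) := ⟨⟨k0, w k0⟩⟩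
  let dc : K → Σ a, Q a := Function.invFun cd
  have hdc : ∀ x, dc (cd x) = x := Function.leftInverse_invFun cd.injective
  let op : ℕ → List K → K := fun k l => match k, l with
    | 0, [a] => cd ⟨a, w a⟩
    | 1, [v, a] => if h : a ≤ (dc v).1 then cd ⟨a, π a _ h (dc v).2⟩ else v
    | 2, [v, m] => L (dc v) m
    | 3, [v, m, z] => if h : ∃ ξ : Set.Iio m, dc z = ⟨L (dc v) m, f (dc v) m ξ⟩ then
        (Classical.choose h).1 else v
    | _, _ => k0
  obtain ⟨C, hC1, hC2, hC⟩ := hJ.ops hK op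
  have hop0 : ∀ a ∈ C, cd ⟨a, w a⟩ ∈ C := by
    intro a ha
    exact hC 0 [a] (fun x hx => by rw [List.mem_singleton.1 hx]; exact ha)
  have hop1 : ∀ (x : Σ a, Q a), cd x ∈ C → ∀ a ∈ C, ∀ h : a ≤ x.1, cd ⟨a, π a x.1 h x.2⟩ ∈ C := by
    intro x hx a ha h
    have h1 := hC 1 [cd x, a] (fun z hz => by
      rcases List.mem_cons.1 hz with rfl | hz
      · exact hx
      · rw [List.mem_singleton.1 hz]; exact ha)
    have h2 : op 1 [cd x, a] =
        if h : a ≤ (dc (cd x)).1 then cd ⟨a, π a _ h (dc (cd x)).2⟩ else cd x := rfl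
    rw [h2, hdc, dif_pos h] at h1
    exact h1
  have hop2 : ∀ (x : Σ a, Q a), cd x ∈ C → ∀ m ∈ C, L x m ∈ C := by
    intro x hx m hm
    have h1 := hC 2 [cd x, m] (fun z hz => by
      rcases List.mem_cons.1 hz with rfl | hz
      · exact hx
      · rw [List.mem_singleton.1 hz]; exact hm)
    have h2 : op 2 [cd x, m] = L (dc (cd x)) m := rfl
    rw [h2, hdc] at h1
    exact h1
  have hop3 : ∀ (x : Σ a, Q a), cd x ∈ C → ∀ m ∈ C, ∀ ξ : Set.Iio m,
      cd ⟨L x m, f x m ξ⟩ ∈ C → ξ.1 ∈ C := by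
    intro x hx m hm ξ hξ
    have h1 := hC 3 [cd x, m, cd ⟨L x m, f x m ξ⟩] (fun z hz => by
      rcases List.mem_cons.1 hz with rfl | hz
      · exact hx
      · rcases List.mem_cons.1 hz with rfl | hz
        · exact hm
        · rw [List.mem_singleton.1 hz]; exact hξ)
    have h2 : op 3 [cd x, m, cd ⟨L x m, f x m ξ⟩] =
        if h : ∃ η : Set.Iio m, dc (cd ⟨L x m, f x m ξ⟩) = ⟨L (dc (cd x)) m, f (dc (cd x)) m η⟩ then
          (Classical.choose h).1 else cd x := rfl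
    rw [h2, hdc, hdc] at h1
    have h3 : ∃ η : Set.Iio m, (⟨L x m, f x m ξ⟩ : Σ a, Q a) = ⟨L x m, f x m η⟩ := ⟨ξ, rfl⟩
    rw [dif_pos h3] at h1
    have h4 := Classical.choose_spec h3
    have h5 : f x m ξ = f x m (Classical.choose h3) := by
      simpa using h4
    have h6 := hfinj x m h5
    rw [← h6] at h1
    exact h1
  obtain ⟨γ, hγ⟩ : ∃ γ, γ ∉ C := by
    by_contra hcon
    push Not at hcon
    exact hC1 (Set.eq_univ_of_forall hcon)
  refine index_antichain hR hK Q π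
    (fun c y => c ∈ C ∧ cd ⟨c, y⟩ ∉ C ∧ ∀ c' ∈ C, ∀ h : c' < c, cd ⟨c', π c' c h.le y⟩ ∈ C) ?_ ?_
  · intro a'
    obtain ⟨a, haC, haa⟩ := hR.unbdd C hC2.ge a'
    obtain ⟨m, hmC, hγm⟩ := hR.unbdd C hC2.ge γ
    have ht : cd ⟨a, w a⟩ ∈ C := hop0 a haC
    have hLC : L ⟨a, w a⟩ m ∈ C := hop2 _ ht m hmC
    have hs : cd ⟨L ⟨a, w a⟩ m, f ⟨a, w a⟩ m ⟨γ, hγm⟩⟩ ∉ C := fun h =>
      hγ (hop3 _ ht m hmC ⟨γ, hγm⟩ h)
    have haL : a ≤ L ⟨a, w a⟩ m := hLle ⟨a, w a⟩ m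
    have hres : π a _ haL (f ⟨a, w a⟩ m ⟨γ, hγm⟩) = w a := hfx ⟨a, w a⟩ m ⟨γ, hγm⟩
    obtain ⟨c, ⟨hcC, hcL, hcn⟩, hmin⟩ := WellFounded.has_min (wellFounded_lt (α := K))
      {c | c ∈ C ∧ ∃ h : c ≤ L ⟨a, w a⟩ m,
        cd ⟨c, π c _ h (f ⟨a, w a⟩ m ⟨γ, hγm⟩)⟩ ∉ C}
      ⟨L ⟨a, w a⟩ m, hLC, le_rfl, by rw [hid]; exact hs⟩
    have hac : a < c := by
      by_contra hle
      have hca : c ≤ a := not_lt.1 hle
      apply hcn
      rw [← hcomp c a _ hca haL, hres]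
      exact hop1 ⟨a, w a⟩ ht c hcC hca
    refine ⟨c, (haa.trans hac).le, _, hcC, hcn, fun c' hc' h => ?_⟩
    rw [hcomp]
    by_contra hcon
    exact hmin c' ⟨hc', h.le.trans hcL, hcon⟩ h
  · rintro c c' h y y' ⟨hcC, hy1, -⟩ ⟨-, -, hy'⟩ heq
    apply hy1
    rw [← heq]
    exact hy' c hcC h

end Suslin

/-! ### classes of sequences modulo few places -/

section Classes

variable {K : Type u} [LinearOrder K] {κ θ : Cardinal.{u}} {A : Type u}

/-- restriction of a sequence -/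
def res {a b : K} (h : a ≤ b) (t : Set.Iio b → A) : Set.Iio a → A :=
  fun ξ => t ⟨ξ.1, lt_of_lt_of_le ξ.2 h⟩

theorem close_trans (hθ : ℵ₀ ≤ θ) {a : K} {s t r : Set.Iio a → A} (h1 : #{ξ | s ξ ≠ t ξ} ≤ θ)
    (h2 : #{ξ | t ξ ≠ r ξ} ≤ θ) : #{ξ | s ξ ≠ r ξ} ≤ θ := by
  refine card_le_of_sub (card_le_of_two hθ h1 h2) (fun ξ hξ => ?_)
  by_cases h : s ξ = t ξ
  · right; intro h'; exact hξ (h.trans h')
  · left; exact h

theorem close_symm {a : K} {s t : Set.Iio a → A} (h : #{ξ | s ξ ≠ t ξ} ≤ θ) :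
    #{ξ | t ξ ≠ s ξ} ≤ θ := card_le_of_sub h (fun _ hξ => Ne.symm hξ)

theorem close_res {a b : K} (h : a ≤ b) {s t : Set.Iio b → A} (hst : #{ξ | s ξ ≠ t ξ} ≤ θ) :
    #{ξ | res h s ξ ≠ res h t ξ} ≤ θ := by
  refine le_trans ?_ hst
  let f : {ξ | res h s ξ ≠ res h t ξ} → {ξ | s ξ ≠ t ξ} :=
    fun ξ => ⟨⟨ξ.1.1, lt_of_lt_of_le ξ.1.2 h⟩, ξ.2⟩
  refine mk_le_of_injective (f := f) ?_
  intro ξ η h'
  have h2 : (f ξ).1.1 = (f η).1.1 := by rw [h']
  exact Subtype.ext (Subtype.ext h2)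

/-- equality modulo `θ` places -/
def St (A : Type u) (hθ : ℵ₀ ≤ θ) (a : K) : Setoid (Set.Iio a → A) where
  r s t := #{ξ | s ξ ≠ t ξ} ≤ θ
  iseqv := ⟨fun s => by simp, fun h => close_symm h, fun h1 h2 => close_trans hθ h1 h2⟩

/-- restriction of classes -/
def qres (hθ : ℵ₀ ≤ θ) {a b : K} (h : a ≤ b) : Quotient (St A hθ b) → Quotient (St A hθ a) :=
  Quotient.map (res h) (fun _ _ hst => close_res h hst)

theorem qres_mk (hθ : ℵ₀ ≤ θ) {a b : K} (h : a ≤ b) (t : Set.Iio b → A) :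
    qres hθ h (Quotient.mk _ t) = Quotient.mk (St A hθ a) (res h t) := rfl

theorem qres_self (hθ : ℵ₀ ≤ θ) {a : K} (x : Quotient (St A hθ a)) : qres hθ le_rfl x = x := by
  induction x using Quotient.inductionOn with
  | h t => rfl

theorem qres_comp (hθ : ℵ₀ ≤ θ) {a b c : K} (h1 : a ≤ b) (h2 : b ≤ c)
    (x : Quotient (St A hθ c)) : qres hθ h1 (qres hθ h2 x) = qres hθ (h1.trans h2) x := by
  induction x using Quotient.inductionOn with
  | h t => rfl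

/-- the indices in `R` whose sequence lies above the class `x` -/
def Ind (hθ : ℵ₀ ≤ θ) (R : Set K) (d : (α : K) → Set.Iio α → A) {a : K}
    (x : Quotient (St A hθ a)) : Set K :=
  {α | α ∈ R ∧ ∃ h : a ≤ α, Quotient.mk _ (res h (d α)) = x}

theorem Ind_sub (hθ : ℵ₀ ≤ θ) (R : Set K) (d : (α : K) → Set.Iio α → A) {a b : K} (h : a ≤ b)
    (x : Quotient (St A hθ b)) : Ind hθ R d x ⊆ Ind hθ R d (qres hθ h x) := by
  rintro α ⟨hα, hb, rfl⟩
  exact ⟨hα, h.trans hb, rfl⟩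

end Classes

section Main

variable {K : Type u} [LinearOrder K] [WellFoundedLT K] {κ θ : Cardinal.{u}} {A : Type u}

/-- refining a stationary set of indices to one node of level `b` -/
theorem exists_node (hR : Reg K κ) (h0 : ℵ₀ < κ) (hθ : ℵ₀ ≤ θ)
    (T : (a : K) → Set (Set.Iio a → A)) (hTc : ∀ a, #(T a) < κ)
    (hTres : ∀ a b (h : a ≤ b), ∀ t ∈ T b, res h t ∈ T a) (R : Set K)
    (d : (α : K) → Set.Iio α → A) (hd : ∀ α ∈ R, d α ∈ T α) (S : Set K) (hSR : S ⊆ R)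
    (hS : IsStationary S) (b : K) :
    ∃ y : Quotient (St A hθ b), IsStationary {α | α ∈ S ∧ b < α ∧
      ∃ h : b ≤ α, Quotient.mk _ (res h (d α)) = y} := by
  classical
  have hS' := isStationary_tail hR hS b
  obtain ⟨α0, hα0S, hα0⟩ := hS'.nonempty
  have t0 : T b := ⟨res hα0.le (d α0), hTres _ _ _ _ (hd _ (hSR hα0S))⟩
  let f : K → T b := fun α => if h : b ≤ α ∧ α ∈ R then
    ⟨res h.1 (d α), hTres _ _ _ _ (hd _ h.2)⟩ else t0
  obtain ⟨t, ht⟩ := stationary_pigeon hR h0 hS' (hTc b) f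
  refine ⟨Quotient.mk _ t.1, ht.mono ?_⟩
  rintro α ⟨⟨hαS, hbα⟩, hft⟩
  refine ⟨hαS, hbα, hbα.le, ?_⟩
  have h1 : f α = ⟨res hbα.le (d α), hTres _ _ _ _ (hd _ (hSR hαS))⟩ :=
    dif_pos ⟨hbα.le, hSR hαS⟩
  rw [← hft, h1]

/-- nodes with stationarily many indices above them -/
def QS (hθ : ℵ₀ ≤ θ) (R : Set K) (d : (α : K) → Set.Iio α → A) (a : K) : Type u :=
  {x : Quotient (St A hθ a) // IsStationary (Ind hθ R d x)}

/-- restriction of such nodes -/
def πS (hθ : ℵ₀ ≤ θ) (R : Set K) (d : (α : K) → Set.Iio α → A) (a b : K) (h : a ≤ b)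
    (x : QS hθ R d b) : QS hθ R d a := ⟨qres hθ h x.1, x.2.mono (Ind_sub hθ R d h x.1)⟩

theorem πS_comp (hθ : ℵ₀ ≤ θ) (R : Set K) (d : (α : K) → Set.Iio α → A) (a b c : K) (h1 : a ≤ b)
    (h2 : b ≤ c) (x : QS hθ R d c) :
    πS hθ R d a b h1 (πS hθ R d b c h2 x) = πS hθ R d a c (h1.trans h2) x :=
  Subtype.ext (qres_comp hθ h1 h2 x.1)

theorem πS_self (hθ : ℵ₀ ≤ θ) (R : Set K) (d : (α : K) → Set.Iio α → A) (a : K)
    (x : QS hθ R d a) : πS hθ R d a a le_rfl x = x := Subtype.ext (qres_self hθ x.1)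

/-- local data: at every `β` a club and few functions that catch the sections -/
def Loc (θ : Cardinal.{u}) (R : Set K) (d : (α : K) → Set.Iio α → A) : Prop :=
  ∀ β : K, ∃ (E : Set (Set.Iio β)) (P : Set (Set.Iio β → A)), IsClub E ∧ #P ≤ θ ∧
      ∀ α ∈ E, α.1 ∈ R → ∃ p ∈ P, #{ξ | d α.1 ξ ≠ res (le_of_lt α.2) p ξ} ≤ θ

/-- the reflection argument: a closed set `C`, a limit point `α` of `C` outside `C` and the least
element `β` of `C` above it: then `α` lies in the club of `β`. -/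
theorem reflect (hR : Reg K κ) (E : (β : K) → Set (Set.Iio β)) (hE : ∀ β, IsClub (E β))
    (m : K → K → K) (hm : ∀ β y : K, y < β → ∃ hz : m β y < β,
      (⟨m β y, hz⟩ : Set.Iio β) ∈ E β ∧ y ≤ m β y) (C : Set K) (hC2 : κ ≤ #C)
    (hC : ∀ a ∈ C, ∀ b ∈ C, m a b ∈ C) (α a0 : K) (ha0 : a0 < α)
    (hαC : ∀ y < α, ∃ c ∈ C, y < c ∧ c < α) (hαmem : α ∉ C) :
    ∃ β ∈ C, ∃ h : α < β, (⟨α, h⟩ : Set.Iio β) ∈ E β := by
  obtain ⟨β, ⟨hβC, hαβ'⟩, hmin⟩ := WellFounded.has_min (wellFounded_lt (α := K))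
    {c | c ∈ C ∧ α ≤ c} (by
      obtain ⟨c, hc, hc'⟩ := hR.unbdd C hC2 α
      exact ⟨c, hc, hc'.le⟩)
  have hαβ : α < β := lt_of_le_of_ne hαβ' (fun h => hαmem (h ▸ hβC))
  have hmα : ∀ c ∈ C, c < α → m β c < α ∧ c ≤ m β c ∧
      ∃ hz : m β c < β, (⟨m β c, hz⟩ : Set.Iio β) ∈ E β := by
    intro c hc hcα
    obtain ⟨hz, hzE, hcz⟩ := hm β c (hcα.trans hαβ)
    refine ⟨?_, hcz, hz, hzE⟩
    by_contra hcon
    exact hmin (m β c) ⟨hC β hβC c hc, not_lt.1 hcon⟩ hz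
  refine ⟨β, hβC, hαβ, ?_⟩
  refine (hE β).isLUB_mem (t := {z | z ∈ E β ∧ z.1 < α}) (fun z hz => hz.1) ?_ ⟨?_, ?_⟩
  · obtain ⟨c, hc, -, hcα⟩ := hαC _ ha0
    obtain ⟨h1, -, h3, h4⟩ := hmα c hc hcα
    exact ⟨⟨m β c, h3⟩, h4, h1⟩
  · intro z hz
    exact hz.2.le
  · intro z hz
    by_contra hcon
    have hzα : z.1 < α := not_le.1 hcon
    obtain ⟨c, hc, hzc, hcα⟩ := hαC _ hzα
    obtain ⟨h1, h2, h3, h4⟩ := hmα c hc hcα
    have h5 : (⟨m β c, h3⟩ : Set.Iio β) ≤ z := hz ⟨h4, h1⟩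
    exact absurd (lt_of_lt_of_le hzc h2) (not_lt.2 h5)

theorem exists_m (E : (β : K) → Set (Set.Iio β)) (hE : ∀ β, IsClub (E β)) :
    ∃ m : K → K → K, ∀ β y : K, y < β → ∃ hz : m β y < β,
      (⟨m β y, hz⟩ : Set.Iio β) ∈ E β ∧ y ≤ m β y := by
  have hm : ∀ β y : K, ∃ z : K, y < β → ∃ hz : z < β, (⟨z, hz⟩ : Set.Iio β) ∈ E β ∧ y ≤ z := by
    intro β y
    by_cases h : y < β
    · obtain ⟨z, hz, hyz⟩ := (hE β).isCofinal ⟨y, h⟩
      exact ⟨z.1, fun _ => ⟨z.2, hz, hyz⟩⟩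
    · exact ⟨y, fun h' => absurd h' h⟩
  choose m hm using hm
  exact ⟨m, hm⟩

theorem club_limits (hR : Reg K κ) (h0 : ℵ₀ < κ) (C : Set K) (hC2 : κ ≤ #C) :
    IsClub {α : K | ∀ y < α, ∃ c ∈ C, y < c ∧ c < α} := by
  refine ⟨?_, fun a => ?_⟩
  · intro t ht htn _ α hα y hy
    obtain ⟨z, hz, hyz⟩ : ∃ z ∈ t, y < z := by
      by_contra hcon'
      push Not at hcon'
      exact absurd (hα.2 (fun z hz => hcon' z hz)) (not_le.2 hy)
    obtain ⟨c, hc, hyc, hcz⟩ := ht hz y hyz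
    exact ⟨c, hc, hyc, lt_of_lt_of_le hcz (hα.1 hz)⟩
  · choose nx hnx hnx2 using fun z => hR.unbdd C hC2 z
    obtain ⟨s, c, hs0, hs, hlub, hsc⟩ := hR.exists_omega h0 nx a
    refine ⟨c, fun y hy => ?_, by rw [← hs0]; exact (hsc 0).le⟩
    obtain ⟨n, hn⟩ : ∃ n, y < s n := by
      by_contra hcon'
      push Not at hcon'
      exact absurd (hlub.2 (by rintro _ ⟨n, rfl⟩; exact hcon' n)) (not_le.2 hy)
    exact ⟨nx (s n), hnx _, hn.trans (hnx2 _), (hs n).2.trans (hsc _)⟩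

theorem no_antichain (hJ : IsJonsson κ) (hR : Reg K κ) (h0 : ℵ₀ < κ) (hK : #K = κ)
    (hlim : ∀ μ < κ, Order.succ μ < κ) (hθ : ℵ₀ ≤ θ) (hθκ : θ < κ) (R : Set K)
    (d : (α : K) → Set.Iio α → A) (hloc : Loc θ R d)
    (x : K → Σ a, QS hθ R d a)
    (hx : ∀ i j, i ≠ j → ¬ Below (QS hθ R d) (πS hθ R d) (x i) (x j)) : False := by
  classical
  have huniq : ∀ (a : K) (t : Set.Iio a → A) (i j : K) (hi : (x i).1 ≤ a) (hj : (x j).1 ≤ a),
      Quotient.mk _ (res hi t) = (x i).2.1 → Quotient.mk _ (res hj t) = (x j).2.1 → i = j := by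
    intro a t i j hi hj h1 h2
    by_contra hij
    rcases le_total (x i).1 (x j).1 with h | h
    · refine hx i j hij ⟨h, Subtype.ext ?_⟩
      show qres hθ h (x j).2.1 = (x i).2.1
      rw [← h1, ← h2]
      rfl
    · refine hx j i (Ne.symm hij) ⟨h, Subtype.ext ?_⟩
      show qres hθ h (x i).2.1 = (x j).2.1
      rw [← h1, ← h2]
      rfl
  choose E P hE hP hEP using hloc
  obtain ⟨m, hm⟩ := exists_m E hE
  let F : K → K → Set K := fun β y => {m β y} ∪ ({i | β ∈ Ind hθ R d (x i).2.1} ∪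
    {i | ∃ h : (x i).1 ≤ β, ∃ p ∈ P β, Quotient.mk _ (res h p) = (x i).2.1})
  have hFc : ∀ β y, #(F β y) ≤ θ := by
    intro β y
    refine card_le_of_two hθ ?_ (card_le_of_two hθ ?_ ?_)
    · rw [mk_singleton]; exact one_le_aleph0.trans hθ
    · refine (Cardinal.mk_le_one_iff_set_subsingleton.2 ?_).trans (one_le_aleph0.trans hθ)
      rintro i ⟨-, hi, hi2⟩ j ⟨-, hj, hj2⟩
      exact huniq β (d β) i j hi hj hi2 hj2
    · refine le_trans ?_ (hP β)
      have h1 : ∀ i : {i | ∃ h : (x i).1 ≤ β, ∃ p ∈ P β,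
          Quotient.mk _ (res h p) = (x i).2.1}, ∃ p : P β, ∃ h : (x i.1).1 ≤ β,
          Quotient.mk _ (res h p.1) = (x i.1).2.1 := by
        rintro ⟨i, h, p, hp, hpi⟩
        exact ⟨⟨p, hp⟩, h, hpi⟩
      choose f hf hf2 using h1
      refine mk_le_of_injective (f := f) (fun i j hij => Subtype.ext ?_)
      refine huniq β (f i).1 i.1 j.1 (hf i) (hf j) (hf2 i) ?_
      rw [hij]; exact hf2 j
  obtain ⟨C, hC1, hC2, hC3⟩ := hJ.exists_closed hlim hK hθ hθκ F hFc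
  obtain ⟨i, hi⟩ : ∃ i, i ∉ C := by
    by_contra hcon
    push Not at hcon
    exact hC1 (Set.eq_univ_of_forall hcon)
  have hSi : IsStationary {α | α ∈ Ind hθ R d (x i).2.1 ∧ (x i).1 < α} :=
    isStationary_tail hR (x i).2.2 _
  obtain ⟨α, ⟨hαI, hxα⟩, hαC⟩ := hSi (club_limits hR h0 C hC2.ge)
  obtain ⟨c, hc, -, -⟩ := hαC _ hxα
  by_cases hαmem : α ∈ C
  · exact hi (hC3 α hαmem c hc (Or.inr (Or.inl hαI)))
  · obtain ⟨β, hβC, hαβ, hαE⟩ := reflect hR E hE m hm C hC2.ge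
      (fun a ha b hb => hC3 a ha b hb (Or.inl rfl)) α _ hxα hαC hαmem
    obtain ⟨p, hp, hpα⟩ := hEP β ⟨α, hαβ⟩ hαE hαI.1
    obtain ⟨haα, hαx⟩ := hαI.2
    apply hi
    refine hC3 β hβC c hc (Or.inr (Or.inr ⟨haα.trans hαβ.le, p, hp, ?_⟩))
    rw [← hαx]
    refine Quotient.sound ?_
    exact close_symm (close_res haα hpα)

/-- indices on the thread `b` -/
def OnThread (hθ : ℵ₀ ≤ θ) (R : Set K) (d : (α : K) → Set.Iio α → A)
    (b : (a : K) → Quotient (St A hθ a)) : Set K :=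
  {α | α ∈ R ∧ ∀ a (h : a < α), Quotient.mk _ (res h.le (d α)) = b a}

theorem exit_antichain (hR : Reg K κ) (hK : #K = κ) [Nonempty K]
    (Q : K → Type u) (π : ∀ a b : K, a ≤ b → Q b → Q a) (b : ∀ a, Q a)
    (hexit : ∀ a, ∃ c, a ≤ c ∧ ∃ y : Q c, y ≠ b c ∧ ∀ c' (h : c' < c), π c' c h.le y = b c') :
    ∃ x : K → Σ a, Q a, ∀ i j, i ≠ j → ¬ Below Q π (x i) (x j) := by
  refine index_antichain hR hK Q π
    (fun c y => y ≠ b c ∧ ∀ c' (h : c' < c), π c' c h.le y = b c') hexit ?_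
  rintro c c' h y y' ⟨hy1, -⟩ ⟨-, hy'⟩ heq
  exact hy1 (heq.symm.trans (hy' c h))

theorem QS_nonempty (hR : Reg K κ) (h0 : ℵ₀ < κ) (hθ : ℵ₀ ≤ θ)
    (T : (a : K) → Set (Set.Iio a → A)) (hTc : ∀ a, #(T a) < κ)
    (hTres : ∀ a b (h : a ≤ b), ∀ t ∈ T b, res h t ∈ T a) (R : Set K) (hRs : IsStationary R)
    (d : (α : K) → Set.Iio α → A) (hd : ∀ α ∈ R, d α ∈ T α) (a : K) :
    Nonempty (QS hθ R d a) := by
  obtain ⟨y, hy⟩ := exists_node hR h0 hθ T hTc hTres R d hd R subset_rfl hRs a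
  exact ⟨⟨y, hy.mono (fun α hα => ⟨hα.1, hα.2.2⟩)⟩⟩

theorem QS_card (hθ : ℵ₀ ≤ θ)
    (T : (a : K) → Set (Set.Iio a → A)) (hTc : ∀ a, #(T a) < κ)
    (hTres : ∀ a b (h : a ≤ b), ∀ t ∈ T b, res h t ∈ T a) (R : Set K)
    (d : (α : K) → Set.Iio α → A) (hd : ∀ α ∈ R, d α ∈ T α) (a : K) : #(QS hθ R d a) < κ := by
  refine lt_of_le_of_lt ?_ (hTc a)
  have hrep : ∀ x : QS hθ R d a, ∃ t : T a, Quotient.mk _ t.1 = x.1 := by
    intro x
    obtain ⟨α, hα, h, hx⟩ := x.2.nonempty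
    exact ⟨⟨res h (d α), hTres _ _ _ _ (hd α hα)⟩, hx⟩
  choose f hf using hrep
  refine mk_le_of_injective (f := f) (fun x y hxy => Subtype.ext ?_)
  rw [← hf x, ← hf y, hxy]

theorem QS_ext (hR : Reg K κ) (h0 : ℵ₀ < κ) (hθ : ℵ₀ ≤ θ)
    (T : (a : K) → Set (Set.Iio a → A)) (hTc : ∀ a, #(T a) < κ)
    (hTres : ∀ a b (h : a ≤ b), ∀ t ∈ T b, res h t ∈ T a) (R : Set K)
    (d : (α : K) → Set.Iio α → A) (hd : ∀ α ∈ R, d α ∈ T α) (a b : K) (h : a ≤ b)
    (x : QS hθ R d a) : ∃ y : QS hθ R d b, πS hθ R d a b h y = x := by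
  obtain ⟨y, hy⟩ := exists_node hR h0 hθ T hTc hTres R d hd (Ind hθ R d x.1)
    (fun α hα => hα.1) x.2 b
  obtain ⟨α, ⟨hαR, haα, hαx⟩, hbα, hbα', hαy⟩ := hy.nonempty
  refine ⟨⟨y, hy.mono (fun α hα => ⟨hα.1.1, hα.2.2⟩)⟩, Subtype.ext ?_⟩
  show qres hθ h y = x.1
  rw [← hαy, ← hαx]
  rfl

theorem main_thread (hJ : IsJonsson κ) (hR : Reg K κ) (h0 : ℵ₀ < κ) (hK : #K = κ)
    (hlim : ∀ μ < κ, Order.succ μ < κ) (hθ : ℵ₀ ≤ θ) (hθκ : θ < κ)
    (T : (a : K) → Set (Set.Iio a → A)) (hTc : ∀ a, #(T a) < κ)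
    (hTres : ∀ a b (h : a ≤ b), ∀ t ∈ T b, res h t ∈ T a) (R : Set K)
    (hRs : IsStationary R) (d : (α : K) → Set.Iio α → A) (hd : ∀ α ∈ R, d α ∈ T α)
    (hloc : Loc θ R d) :
    ∃ b : (a : K) → Quotient (St A hθ a), (∀ a c (h : a ≤ c), qres hθ h (b c) = b a) ∧
      IsStationary (OnThread hθ R d b) := by
  classical
  by_contra hno
  have hKne : Nonempty K := by
    obtain ⟨b, -⟩ := hR.bdd ∅ (by simpa using pos_of_gt h0)
    exact ⟨b⟩
  have hanti : ∃ x : K → Σ a, QS hθ R d a,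
      ∀ i j, i ≠ j → ¬ Below (QS hθ R d) (πS hθ R d) (x i) (x j) := by
    by_cases hth : ∃ b : ∀ a, QS hθ R d a, ∀ a c (h : a ≤ c), πS hθ R d a c h (b c) = b a
    · obtain ⟨b, hb⟩ := hth
      have hN : ¬ IsStationary (OnThread hθ R d (fun a => (b a).1)) := fun h =>
        hno ⟨fun a => (b a).1, fun a c h => congrArg Subtype.val (hb a c h), h⟩
      refine exit_antichain hR hK _ (πS hθ R d) b (fun a => ?_)
      have hS1 : IsStationary {α | α ∈ Ind hθ R d (b a).1 ∧ ∃ a' < α, ∀ h : a' < α,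
          Quotient.mk _ (res h.le (d α)) ≠ (b a').1} := by
        have h1 : Ind hθ R d (b a).1 ⊆ {α | α ∈ Ind hθ R d (b a).1 ∧ ∃ a' < α, ∀ h : a' < α,
            Quotient.mk _ (res h.le (d α)) ≠ (b a').1} ∪
            OnThread hθ R d (fun a => (b a).1) := by
          intro α hα
          by_cases h : ∀ a (h : a < α), Quotient.mk _ (res h.le (d α)) = (b a).1
          · exact Or.inr ⟨hα.1, h⟩
          · push Not at h
            obtain ⟨a', h1, h2⟩ := h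
            exact Or.inl ⟨hα, a', h1, fun _ => h2⟩
        rcases (isStationary_union_iff (hR.cof_ne h0)).1 ((b a).2.mono h1) with h | h
        · exact h
        · exact absurd h hN
      set S1 := {α | α ∈ Ind hθ R d (b a).1 ∧ ∃ a' < α, ∀ h : a' < α,
          Quotient.mk _ (res h.le (d α)) ≠ (b a').1} with hS1def
      have hΔ : ∀ α, ∃ c, α ∈ S1 → c < α ∧ (∀ h : c < α,
          Quotient.mk _ (res h.le (d α)) ≠ (b c).1) ∧ ∀ c' (h : c' < α), c' < c →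
          Quotient.mk _ (res h.le (d α)) = (b c').1 := by
        intro α
        by_cases hα : α ∈ S1
        · obtain ⟨a', ha', hne'⟩ := hα.2
          obtain ⟨c, ⟨hc1, hc2⟩, hmin⟩ := WellFounded.has_min (wellFounded_lt (α := K))
            {c | c < α ∧ ∀ h : c < α, Quotient.mk _ (res h.le (d α)) ≠ (b c).1}
            ⟨a', ha', hne'⟩
          refine ⟨c, fun _ => ⟨hc1, hc2, fun c' h hc' => ?_⟩⟩
          by_contra hcon
          exact hmin c' ⟨h, fun _ => hcon⟩ hc'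
        · exact ⟨α, fun h => absurd h hα⟩
      choose Δ hΔ using hΔ
      obtain ⟨c, hc⟩ := fodor hR h0 hS1 Δ (fun α hα => (hΔ α hα).1)
      obtain ⟨y, hy⟩ := exists_node hR h0 hθ T hTc hTres R d hd {α | α ∈ S1 ∧ Δ α = c}
        (fun α hα => hα.1.1.1) hc c
      obtain ⟨α, ⟨hαS, hαc⟩, hcα, hcα', hαy⟩ := hy.nonempty
      have hyst : IsStationary (Ind hθ R d y) :=
        hy.mono (fun α hα => ⟨hα.1.1.1.1, hα.2.2⟩)
      obtain ⟨hΔ1, hΔ2, hΔ3⟩ := hΔ α hαS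
      rw [hαc] at hΔ1 hΔ2 hΔ3
      refine ⟨c, ?_, ⟨y, hyst⟩, fun h => ?_, fun c' h => Subtype.ext ?_⟩
      · by_contra hca
        have hca' : c ≤ a := (not_le.1 hca).le
        apply hΔ2 hΔ1
        obtain ⟨haα, hαa⟩ := hαS.1.2
        have h5 := congrArg Subtype.val (hb c a hca')
        have h6 : qres hθ hca' (b a).1 = (b c).1 := h5
        rw [← h6, ← hαa]
        rfl
      · apply hΔ2 hΔ1
        rw [← h]
        exact hαy
      · show qres hθ h.le y = (b c').1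
        rw [← hΔ3 c' (h.trans hΔ1) h, ← hαy]
        rfl
    · exact suslin hJ hR h0 hK hlim _ (πS hθ R d) (πS_self hθ R d) (πS_comp hθ R d)
        (QS_nonempty hR h0 hθ T hTc hTres R hRs d hd) (QS_card hθ T hTc hTres R d hd)
        (QS_ext hR h0 hθ T hTc hTres R d hd) hth
  obtain ⟨x, hx⟩ := hanti
  exact no_antichain hJ hR h0 hK hlim hθ hθκ R d hloc x hx

/-- `κ` many threads give an antichain of size `κ` -/
theorem many_threads (hJ : IsJonsson κ) (hR : Reg K κ) (h0 : ℵ₀ < κ) (hK : #K = κ)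
    (hlim : ∀ μ < κ, Order.succ μ < κ) (Q : K → Type u) (π : ∀ a b : K, a ≤ b → Q b → Q a)
    (hid : ∀ a x, π a a le_rfl x = x)
    (hcomp : ∀ a b c (h1 : a ≤ b) (h2 : b ≤ c) x, π a b h1 (π b c h2 x) = π a c (h1.trans h2) x)
    (hc : ∀ a, #(Q a) < κ) (B : K → ∀ a, Q a)
    (hB : ∀ i a b (h : a ≤ b), π a b h (B i b) = B i a) (hinj : Function.Injective B) :
    ∃ x : K → Σ a, Q a, ∀ i j, i ≠ j → ¬ Below Q π (x i) (x j) := by
  classical
  have hKne : Nonempty K := by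
    obtain ⟨b, -⟩ := hR.bdd ∅ (by simpa using pos_of_gt h0)
    exact ⟨b⟩
  -- nodes on `κ` many threads
  let U : K → Type u := fun a => {x : Q a // κ ≤ #{i | B i a = x}}
  have hpig : ∀ (S : Set K), κ ≤ #S → ∀ a, ∃ x : Q a, κ ≤ #{i | i ∈ S ∧ B i a = x} := by
    intro S hS a
    by_contra hcon
    push Not at hcon
    have h1 : S ⊆ ⋃ x : Q a, {i | i ∈ S ∧ B i a = x} := fun i hi =>
      Set.mem_iUnion.2 ⟨B i a, hi, rfl⟩
    obtain ⟨b, hb⟩ : ∃ b, ∀ x : Q a, ∀ i, i ∈ S → B i a = x → i < b := by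
      choose f hf using fun x => hR.bdd {i | i ∈ S ∧ B i a = x} (hcon x)
      obtain ⟨b, hb⟩ := hR.bdd_range f (hc a)
      exact ⟨b, fun x i hi hix => (hf x i ⟨hi, hix⟩).trans (hb x)⟩
    obtain ⟨i, hiS, hbi⟩ := hR.unbdd S hS b
    exact absurd (hb _ i hiS rfl) (not_lt.2 hbi.le)
  let πU : ∀ a b : K, a ≤ b → U b → U a := fun a b h x => ⟨π a b h x.1, by
    refine x.2.trans (mk_le_mk_of_subset (fun i hi => ?_))
    show B i a = π a b h x.1
    rw [← hB i a b h, show B i b = x.1 from hi]⟩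
  have hUid : ∀ a x, πU a a le_rfl x = x := fun a x => Subtype.ext (hid a x.1)
  have hUcomp : ∀ a b c (h1 : a ≤ b) (h2 : b ≤ c) x, πU a b h1 (πU b c h2 x) =
      πU a c (h1.trans h2) x := fun a b c h1 h2 x => Subtype.ext (hcomp a b c h1 h2 x.1)
  have hUne : ∀ a, Nonempty (U a) := by
    intro a
    obtain ⟨x, hx⟩ := hpig Set.univ (by rw [mk_univ, hK]) a
    exact ⟨⟨x, hx.trans (mk_le_mk_of_subset (fun i hi => hi.2))⟩⟩
  have hUc : ∀ a, #(U a) < κ := fun a =>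
    lt_of_le_of_lt (mk_le_of_injective Subtype.val_injective) (hc a)
  have hUext : ∀ a b (h : a ≤ b) (x : U a), ∃ y : U b, πU a b h y = x := by
    intro a b h x
    obtain ⟨y, hy⟩ := hpig _ x.2 b
    have hyne : ({i | i ∈ {i | B i a = x.1} ∧ B i b = y} : Set K).Nonempty := by
      rw [← Set.nonempty_coe_sort, ← Cardinal.mk_ne_zero_iff]
      exact (lt_of_lt_of_le (pos_of_gt h0) hy).ne'
    obtain ⟨i, hi1, hi2⟩ := hyne
    refine ⟨⟨y, hy.trans (mk_le_mk_of_subset (fun i hi => hi.2))⟩, Subtype.ext ?_⟩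
    show π a b h y = x.1
    rw [← hi2, hB]
    exact hi1
  by_cases hth : ∃ b : ∀ a, U a, ∀ a c (h : a ≤ c), πU a c h (b c) = b a
  · obtain ⟨b, hb⟩ := hth
    refine exit_antichain hR hK Q π (fun a => (b a).1) (fun a => ?_)
    obtain ⟨i, hi, hib⟩ : ∃ i, B i a = (b a).1 ∧ ∃ c, B i c ≠ (b c).1 := by
      by_contra hcon
      push Not at hcon
      have h1 : ({i | B i a = (b a).1} : Set K).Subsingleton := by
        intro i hi j hj
        apply hinj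
        funext c
        rw [hcon i hi c, hcon j hj c]
      have h2 := (b a).2.trans (Cardinal.mk_le_one_iff_set_subsingleton.2 h1)
      exact absurd h2 (not_le.2 (one_lt_aleph0.trans h0))
    obtain ⟨c, hc1, hmin⟩ := WellFounded.has_min (wellFounded_lt (α := K))
      {c | B i c ≠ (b c).1} hib
    refine ⟨c, ?_, B i c, hc1, fun c' h => ?_⟩
    · by_contra hca
      have hca' : c ≤ a := (not_le.1 hca).le
      apply hc1
      rw [← hB i c a hca', hi]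
      exact congrArg Subtype.val (hb c a hca')
    · rw [hB]
      by_contra hcon
      exact hmin c' hcon h
  · obtain ⟨x, hx⟩ := suslin hJ hR h0 hK hlim U πU hUid hUcomp hUne hUc hUext hth
    refine ⟨fun i => ⟨(x i).1, (x i).2.1⟩, fun i j hij => ?_⟩
    rintro ⟨h, h2⟩
    exact hx i j hij ⟨h, Subtype.ext h2⟩

end Main

/-! ### branches close to a thread -/

section Final

variable {K : Type u} [LinearOrder K] [WellFoundedLT K] {κ θ : Cardinal.{u}} {A : Type u}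

theorem branch_near (hR : Reg K κ) (hlim : ∀ μ < κ, Order.succ μ < κ)
    (hθ : ℵ₀ ≤ θ) (hθκ : θ < κ)
    (T : (a : K) → Set (Set.Iio a → A)) (hne : ∀ a, (T a).Nonempty) (hcard : ∀ a, #(T a) < κ)
    (hres : ∀ a b (h : a ≤ b), ∀ t ∈ T b, res h t ∈ T a) (y : K → A)
    (hD : ∀ a, ∀ t ∈ T a, #{ξ : Set.Iio a | t ξ ≠ y ξ.1} ≤ θ) :
    ∃ y' : K → A, #{ξ | y' ξ ≠ y ξ} ≤ θ ∧ ∀ a, (fun ξ : Set.Iio a => y' ξ.1) ∈ T a := by
  classical
  choose t₀ ht₀ using hne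
  by_contra hno
  push Not at hno
  let ext : (a : K) → (Set.Iio a → A) → K → A := fun a t ξ => if h : ξ < a then t ⟨ξ, h⟩ else y ξ
  have hext : ∀ a (t : T a), #{ξ | ext a t.1 ξ ≠ y ξ} ≤ θ := by
    intro a t
    refine card_le_of_sub (mk_image_le.trans (hD a t.1 t.2)) (t := {ξ | ext a t.1 ξ ≠ y ξ})
      (s := Subtype.val '' {ξ : Set.Iio a | t.1 ξ ≠ y ξ.1}) ?_
    intro ξ hξ
    by_cases h : ξ < a
    · have h1 : ext a t.1 ξ = t.1 ⟨ξ, h⟩ := dif_pos h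
      refine ⟨⟨ξ, h⟩, ?_, rfl⟩
      show t.1 ⟨ξ, h⟩ ≠ y ξ
      rw [← h1]
      exact hξ
    · exact absurd (dif_neg h) hξ
  choose H hH using fun (a : K) (t : T a) => hno (ext a t.1) (hext a t)
  choose G hG using fun a => hR.bdd_range (H a) (hcard a)
  have hW : ∀ j : (Order.succ θ).ord.ToType, #(Set.Iio j) < κ := fun j => by
    have h1 : #(Set.Iio j) < Order.succ θ := by simpa using mk_Iio_lt j
    exact h1.trans (hlim θ hθκ)
  have hRW : Reg (Order.succ θ).ord.ToType (Order.succ θ) := reg_toType (isRegular_succ hθ)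
  have hKne : Nonempty K := by
    obtain ⟨b, -⟩ := hR.bdd ∅ (by simpa using pos_of_gt hθκ)
    exact ⟨b⟩
  obtain ⟨k0⟩ := hKne
  obtain ⟨x, hx0, hx⟩ := hR.exists_seq (Order.succ θ).ord.ToType hW G k0
  obtain ⟨c, hxc, hmin⟩ := WellFounded.has_min (wellFounded_lt (α := K)) {a | ∀ j, x j < a}
    (hR.bdd_range x (by rw [mk_ord_toType]; exact hlim θ hθκ))
  have hlub : ∀ z < c, ∃ j, z ≤ x j := by
    intro z hz
    by_contra hcon
    push Not at hcon
    exact hmin z hcon hz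
  have hWne : Nonempty (Order.succ θ).ord.ToType := by
    obtain ⟨b, -⟩ := hRW.bdd ∅ (by simp)
    exact ⟨b⟩
  choose! J hJ using hlub
  have h3 : #(J '' (Subtype.val '' {ξ : Set.Iio c | t₀ c ξ ≠ y ξ.1})) < Order.succ θ :=
    Order.lt_succ_iff.2 (mk_image_le.trans (mk_image_le.trans (hD c _ (ht₀ c))))
  obtain ⟨j, hj⟩ := hRW.bdd _ h3
  have hyt : ∀ ξ (h : ξ < c), x j ≤ ξ → t₀ c ⟨ξ, h⟩ = y ξ := by
    intro ξ h hle
    by_contra hne
    have h4 : J ξ < j := hj _ ⟨ξ, ⟨⟨ξ, h⟩, hne, rfl⟩, rfl⟩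
    have h5 : ξ < x j := lt_of_le_of_lt (hJ ξ h) (hx _ _ h4).2
    exact absurd h5 (not_lt.2 hle)
  obtain ⟨j', hj'⟩ := hRW.exists_gt j
  have hs : res (hxc j).le (t₀ c) ∈ T (x j) := hres _ _ _ _ (ht₀ c)
  have hHc : H (x j) ⟨res (hxc j).le (t₀ c), hs⟩ ≤ c :=
    ((hG (x j) ⟨_, hs⟩).trans ((hx j j' hj').1.trans (hxc j'))).le
  apply hH (x j) ⟨res (hxc j).le (t₀ c), hs⟩
  have h6 : (fun ξ : Set.Iio (H (x j) ⟨res (hxc j).le (t₀ c), hs⟩) =>
      ext (x j) (res (hxc j).le (t₀ c)) ξ.1) = res hHc (t₀ c) := by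
    funext ξ
    show (if h : ξ.1 < x j then res (hxc j).le (t₀ c) ⟨ξ.1, h⟩ else y ξ.1) = _
    by_cases h : ξ.1 < x j
    · rw [dif_pos h]; rfl
    · rw [dif_neg h]
      exact (hyt ξ.1 (lt_of_lt_of_le ξ.2 hHc) (not_lt.1 h)).symm
  rw [h6]
  exact hres _ _ _ _ (ht₀ c)

/-- a thread of classes comes from one function on `K` -/
theorem exists_y (hJ : IsJonsson κ) (hR : Reg K κ) (hK : #K = κ)
    (hlim : ∀ μ < κ, Order.succ μ < κ) (hθ : ℵ₀ ≤ θ) (hθκ : θ < κ)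
    (b : (a : K) → Quotient (St A hθ a)) (hb : ∀ a c (h : a ≤ c), qres hθ h (b c) = b a) :
    ∃ y : K → A, ∀ a, Quotient.mk (St A hθ a) (fun ξ => y ξ.1) = b a := by
  classical
  choose up hup using hR.exists_gt
  let d : K → K → A := fun a ξ => if h : ξ < a then (b a).out ⟨ξ, h⟩ else
    (b (up ξ)).out ⟨ξ, hup ξ⟩
  have hda : ∀ a ξ (h : ξ < a), d a ξ = (b a).out ⟨ξ, h⟩ := fun a ξ h => dif_pos h
  have hd' : ∀ a c, a ≤ c → #(Dif d a c) ≤ θ := by
    intro a c hac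
    have h0 : #{ξ | (b a).out ξ ≠ res hac (b c).out ξ} ≤ θ := by
      have h1 : Quotient.mk (St A hθ a) (b a).out = Quotient.mk _ (res hac (b c).out) := by
        rw [Quotient.out_eq, ← qres_mk, Quotient.out_eq, hb]
      exact Quotient.exact h1
    have h1 : Dif d a c ⊆ Subtype.val '' {ξ : Set.Iio a | (b a).out ξ ≠ res hac (b c).out ξ} := by
      rintro ξ ⟨h1, h2, h3⟩
      refine ⟨⟨ξ, h1⟩, ?_, rfl⟩
      rw [hda a ξ h1, hda c ξ h2] at h3
      exact h3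
    exact card_le_of_sub (mk_image_le.trans h0) h1
  have hd : ∀ a c, #(Dif d a c) ≤ θ := by
    intro a c
    rcases le_total a c with h | h
    · exact hd' a c h
    · rw [dif_comm]; exact hd' c a h
  obtain ⟨y, hy⟩ := thread hR hK hlim hθ hθκ (hJ.exists_closed hlim hK hθ hθκ) d hd
  refine ⟨y, fun a => ?_⟩
  rw [← Quotient.out_eq (b a)]
  refine Quotient.sound ?_
  show #{ξ : Set.Iio a | y ξ.1 ≠ (b a).out ξ} ≤ θ
  refine le_trans ?_ (hy a)
  let f : {ξ : Set.Iio a | y ξ.1 ≠ (b a).out ξ} → {ξ | ξ < a ∧ y ξ ≠ d a ξ} :=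
    fun ξ => ⟨ξ.1.1, ξ.1.2, by rw [hda a ξ.1.1 ξ.1.2]; exact ξ.2⟩
  refine mk_le_of_injective (f := f) ?_
  intro ξ η h
  have h' : (f ξ).1 = (f η).1 := congrArg Subtype.val h
  exact Subtype.ext (Subtype.ext h')

theorem card_le_succ (X : Set K) (hX : ∀ x ∈ X, #{z | z ∈ X ∧ z < x} ≤ θ) :
    #X ≤ Order.succ θ := by
  by_contra hcon
  have h1 : (Order.succ θ).ord < Ordinal.type (α := X) (· < ·) := by
    by_contra h
    have h2 := Ordinal.card_le_card (not_lt.1 h)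
    rw [Ordinal.card_type, Cardinal.card_ord] at h2
    exact hcon h2
  obtain ⟨x, hx⟩ := Ordinal.typein_surj (α := X) (· < ·) h1
  have h2 : (Ordinal.typein (α := X) (· < ·) x).card = Order.succ θ := by
    rw [hx, Cardinal.card_ord]
  rw [Ordinal.card_typein] at h2
  have h3 : #{y : X // y < x} ≤ #{z | z ∈ X ∧ z < x.1} := by
    let f : {y : X // y < x} → {z | z ∈ X ∧ z < x.1} := fun y => ⟨y.1.1, y.1.2, y.2⟩
    refine mk_le_of_injective (f := f) (fun y z h => ?_)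
    have h' : (f y).1 = (f z).1 := congrArg Subtype.val h
    exact Subtype.ext (Subtype.ext h')
  have h4 := h3.trans (hX x.1 x.2)
  rw [h2] at h4
  exact absurd h4 (not_le.2 (Order.lt_succ θ))

/-- a stationary set of points of bounded cofinality takes all values on every club -/
theorem exists_onto (hR : Reg K κ) (h0 : ℵ₀ < κ) (hK : #K = κ) {W : Type u} (hW : #W < κ)
    (N : Set K) (hN : IsStationary N) (c : K → W → K) (hc : ∀ α ∈ N, ∀ ν, c α ν < α)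
    (hcof : ∀ α ∈ N, ∀ z < α, ∃ ν, z ≤ c α ν) :
    ∃ (ν : W) (e : K → K), Function.Injective e ∧
      ∀ i, IsStationary {α | α ∈ N ∧ c α ν = e i} := by
  classical
  have hKne : Nonempty K := hN.nonempty.to_subtype.map Subtype.val
  obtain ⟨ν, hν⟩ : ∃ ν, ∀ η, IsStationary {α | α ∈ N ∧ η ≤ c α ν} := by
    by_contra hcon
    push Not at hcon
    choose η hη using hcon
    obtain ⟨b, hb⟩ := hR.bdd_range η hW
    have h1 := isStationary_tail hR hN b
    have h2 : {x | x ∈ N ∧ b < x} ⊆ ⋃ ν, {α | α ∈ N ∧ η ν ≤ c α ν} := by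
      rintro α ⟨hα, hbα⟩
      obtain ⟨ν, hν⟩ := hcof α hα b hbα
      exact Set.mem_iUnion.2 ⟨ν, hα, (hb ν).le.trans hν⟩
    have h3 := h1.mono h2
    rw [isStationary_iUnion_iff (hR.cof_ne h0)
      (by simpa using lt_of_lt_of_le hW (hR.le_cof h0))] at h3
    obtain ⟨ν, hν⟩ := h3
    exact hη ν hν
  let Γ : Set K := {γ | IsStationary {α | α ∈ N ∧ c α ν = γ}}
  have hΓ : κ ≤ #Γ := hR.le_card Γ (fun η => by
    obtain ⟨γ, hγ⟩ := fodor hR h0 (hν η) (fun α => c α ν) (fun α hα => hc α hα.1 ν)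
    obtain ⟨α, ⟨-, hα⟩, hαγ⟩ := hγ.nonempty
    exact ⟨γ, hγ.mono (fun α hα => ⟨hα.1.1, hα.2⟩), by rw [← hαγ]; exact hα⟩)
  have h2 : #K = #Γ := by
    rw [hK]; exact le_antisymm hΓ ((mk_set_le _).trans hK.le)
  obtain ⟨e⟩ := Cardinal.eq.1 h2
  exact ⟨ν, fun i => (e i).1, fun i j h => e.injective (Subtype.ext h), fun i => (e i).2⟩

/-- almost all sections on a thread are close to the function of the thread -/
theorem sharp (hJ : IsJonsson κ) (hR : Reg K κ) (h0 : ℵ₀ < κ) (hK : #K = κ)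
    (hlim : ∀ μ < κ, Order.succ μ < κ) (hθ : ℵ₀ ≤ θ) (hθκ : θ < κ) (R : Set K)
    (d : (α : K) → Set.Iio α → A) (hloc : Loc θ R d)
    (b : (a : K) → Quotient (St A hθ a)) (y : K → A)
    (hy : ∀ a, Quotient.mk (St A hθ a) (fun ξ => y ξ.1) = b a) :
    ¬ IsStationary {α | α ∈ OnThread hθ R d b ∧ θ < #{ξ : Set.Iio α | d α ξ ≠ y ξ.1}} := by
  classical
  intro hN
  set N := {α | α ∈ OnThread hθ R d b ∧ θ < #{ξ : Set.Iio α | d α ξ ≠ y ξ.1}} with hNdef
  have hsmall : ∀ α ∈ OnThread hθ R d b, ∀ a (h : a < α),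
      #{ξ : Set.Iio a | res h.le (d α) ξ ≠ y ξ.1} ≤ θ := by
    intro α hα a h
    have h1 : Quotient.mk (St A hθ a) (res h.le (d α)) = Quotient.mk _ (fun ξ => y ξ.1) := by
      rw [hα.2 a h, hy]
    exact Quotient.exact h1
  -- small cofinality
  have hWc : #(Order.succ θ).ord.ToType = Order.succ θ := mk_ord_toType _
  have hWne : Nonempty (Order.succ θ).ord.ToType := by
    rw [← Cardinal.mk_ne_zero_iff, hWc]
    exact (pos_of_gt (Order.lt_succ θ)).ne'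
  have hcex : ∀ α, ∃ c : (Order.succ θ).ord.ToType → K, α ∈ N → (∀ ν, c ν < α) ∧
      ∀ z < α, ∃ ν, z ≤ c ν := by
    intro α
    by_cases hα : α ∈ N
    · let X : Set K := Subtype.val '' {ξ : Set.Iio α | d α ξ ≠ y ξ.1}
      have hXα : ∀ x ∈ X, x < α := by
        rintro _ ⟨ξ, -, rfl⟩; exact ξ.2
      have hXs : ∀ a < α, #{z | z ∈ X ∧ z < a} ≤ θ := by
        intro a ha
        refine le_trans ?_ (hsmall α hα.1 a ha)
        let f : {z | z ∈ X ∧ z < a} → {ξ : Set.Iio a | res ha.le (d α) ξ ≠ y ξ.1} :=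
          fun z => ⟨⟨z.1, z.2.2⟩, by
            obtain ⟨⟨ξ, hξ⟩, h1, h2⟩ := z.2.1
            show d α ⟨z.1, _⟩ ≠ y z.1
            have h3 : ξ = z.1 := h2
            subst h3
            exact h1⟩
        refine mk_le_of_injective (f := f) (fun z w h => ?_)
        have h' : (f z).1.1 = (f w).1.1 := by rw [h]
        exact Subtype.ext h'
      have hXc : #X ≤ Order.succ θ := card_le_succ X (fun x hx => hXs x (hXα x hx))
      have hXbig : θ < #X := by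
        have h1 : #X = #{ξ : Set.Iio α | d α ξ ≠ y ξ.1} :=
          Cardinal.mk_image_eq Subtype.val_injective
        rw [h1]; exact hα.2
      have hXcof : ∀ z < α, ∃ x ∈ X, z ≤ x := by
        intro z hz
        by_contra hcon
        push Not at hcon
        exact absurd (card_le_of_sub (hXs z hz) (fun x hx => ⟨hx, hcon x hx⟩)) (not_le.2 hXbig)
      have hXne : Nonempty X := by
        rw [← Cardinal.mk_ne_zero_iff]
        exact (pos_of_gt hXbig).ne'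
      rw [← hWc] at hXc
      obtain ⟨e⟩ := (Cardinal.le_def _ _).1 hXc
      let g : (Order.succ θ).ord.ToType → X := Function.invFun e
      have hg : Function.Surjective g := Function.invFun_surjective e.injective
      refine ⟨fun ν => (g ν).1, fun _ => ⟨fun ν => hXα _ (g ν).2, fun z hz => ?_⟩⟩
      obtain ⟨x, hx, hzx⟩ := hXcof z hz
      obtain ⟨ν, hν⟩ := hg ⟨x, hx⟩
      refine ⟨ν, ?_⟩
      show z ≤ (g ν).1
      rw [hν]
      exact hzx
    · exact ⟨fun _ => α, fun h => absurd h hα⟩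
  choose c hc using hcex
  obtain ⟨ν, e, he, hest⟩ := exists_onto hR h0 hK (by rw [hWc]; exact hlim θ hθκ) N hN c
    (fun α hα => (hc α hα).1) (fun α hα => (hc α hα).2)
  choose E P hE hP hEP using hloc
  obtain ⟨m, hm⟩ := exists_m E hE
  let Lst : (β : K) → (Set.Iio β → A) → K → Prop := fun β p s =>
    θ < #{ξ : Set.Iio β | p ξ ≠ y ξ.1 ∧ ξ.1 < s} ∧
    ∀ s' < s, #{ξ : Set.Iio β | p ξ ≠ y ξ.1 ∧ ξ.1 < s'} ≤ θ
  have hLst : ∀ β p s s', Lst β p s → Lst β p s' → s = s' := by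
    intro β p s s' h h'
    rcases lt_trichotomy s s' with h1 | h1 | h1
    · exact absurd (h'.2 s h1) (not_le.2 h.1)
    · exact h1
    · exact absurd (h.2 s' h1) (not_le.2 h'.1)
  let F : K → K → Set K := fun β z => {m β z} ∪ ({i | c β ν = e i} ∪
    {s | ∃ p ∈ P β, Lst β p s})
  have hFc : ∀ β z, #(F β z) ≤ θ := by
    intro β z
    refine card_le_of_two hθ ?_ (card_le_of_two hθ ?_ ?_)
    · rw [mk_singleton]; exact one_le_aleph0.trans hθ
    · refine (Cardinal.mk_le_one_iff_set_subsingleton.2 ?_).trans (one_le_aleph0.trans hθ)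
      intro i hi j hj
      exact he (hi.symm.trans hj)
    · refine le_trans ?_ (hP β)
      have h1 : ∀ s : {s | ∃ p ∈ P β, Lst β p s}, ∃ p : P β, Lst β p.1 s.1 := by
        rintro ⟨s, p, hp, hs⟩
        exact ⟨⟨p, hp⟩, hs⟩
      choose f hf using h1
      refine mk_le_of_injective (f := f) (fun s s' h => Subtype.ext ?_)
      refine hLst β (f s).1 _ _ (hf s) ?_
      rw [h]; exact hf s'
  obtain ⟨C, hC1, hC2, hC3⟩ := hJ.exists_closed hlim hK hθ hθκ F hFc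
  obtain ⟨i, hi⟩ : ∃ i, i ∉ C := by
    by_contra hcon
    push Not at hcon
    exact hC1 (Set.eq_univ_of_forall hcon)
  obtain ⟨α, ⟨hαN, hαi⟩, hαC⟩ := (hest i) (club_limits hR h0 C hC2.ge)
  have hlt : c α ν < α := (hc α hαN).1 ν
  obtain ⟨c0, hc0, -, -⟩ := hαC _ hlt
  by_cases hαmem : α ∈ C
  · exact hi (hC3 α hαmem c0 hc0 (Or.inr (Or.inl hαi)))
  · obtain ⟨β, hβC, hαβ, hαE⟩ := reflect hR E hE m hm C hC2.ge
      (fun a ha b hb => hC3 a ha b hb (Or.inl rfl)) α _ hlt hαC hαmem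
    obtain ⟨p, hp, hpα⟩ := hEP β ⟨α, hαβ⟩ hαE hαN.1.1
    apply hαmem
    refine hC3 β hβC c0 hc0 (Or.inr (Or.inr ⟨p, hp, ?_, fun s' hs' => ?_⟩))
    · by_contra hcon
      have h1 : #{ξ : Set.Iio α | res hαβ.le p ξ ≠ y ξ.1} ≤ θ := by
        refine le_trans ?_ (not_lt.1 hcon)
        let f : {ξ : Set.Iio α | res hαβ.le p ξ ≠ y ξ.1} →
            {ξ : Set.Iio β | p ξ ≠ y ξ.1 ∧ ξ.1 < α} :=
          fun ξ => ⟨⟨ξ.1.1, lt_of_lt_of_le ξ.1.2 hαβ.le⟩, ξ.2, ξ.1.2⟩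
        refine mk_le_of_injective (f := f) (fun z w h => ?_)
        have h' : (f z).1.1 = (f w).1.1 := by rw [h]
        exact Subtype.ext (Subtype.ext h')
      exact absurd (close_trans hθ hpα h1) (not_le.2 hαN.2)
    · have h1 : #{ξ : Set.Iio s' | res hs'.le (res hαβ.le p) ξ ≠ y ξ.1} ≤ θ :=
        close_trans hθ (close_symm (close_res hs'.le hpα)) (hsmall α hαN.1 s' hs')
      refine le_trans ?_ h1
      let f : {ξ : Set.Iio β | p ξ ≠ y ξ.1 ∧ ξ.1 < s'} →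
          {ξ : Set.Iio s' | res hs'.le (res hαβ.le p) ξ ≠ y ξ.1} :=
        fun ξ => ⟨⟨ξ.1.1, ξ.2.2⟩, ξ.2.1⟩
      refine mk_le_of_injective (f := f) (fun z w h => ?_)
      have h' : (f z).1.1 = (f w).1.1 := by rw [h]
      exact Subtype.ext (Subtype.ext h')

/-- **Local-global principle.** -/
theorem main {κ : Cardinal.{u}} (h0 : ℵ₀ < κ) (hreg : κ.IsRegular)
    (hlim : ∀ μ < κ, Order.succ μ < κ) (hJ : IsJonsson κ) {A : Type u}
    (T : (a : κ.ord.ToType) → Set (Set.Iio a → A)) (hT : IsSeqTree κ A T)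
    {θ : Cardinal.{u}} (hθ : ℵ₀ ≤ θ) (hθκ : θ < κ) (R : Set κ.ord.ToType)
    (t : (α : κ.ord.ToType) → Set.Iio α → A) (ht : ∀ α ∈ R, t α ∈ T α)
    (hloc : ∀ β : κ.ord.ToType, IsStationary {α : Set.Iio β | α.1 ∈ R} →
      ∃ (E : Set (Set.Iio β)) (P : Set (Set.Iio β → A)), IsClub E ∧ #P ≤ θ ∧
        ∀ α ∈ E, α.1 ∈ R → ∃ p ∈ P,
          #{ξ : Set.Iio α.1 | t α.1 ξ ≠ p ⟨ξ.1, Set.mem_Iio.2 ((Set.mem_Iio.1 ξ.2).trans (Set.mem_Iio.1 α.2))⟩} ≤ θ) :
    ∃ (E : Set κ.ord.ToType) (Y : Set (κ.ord.ToType → A)), IsClub E ∧ #Y < κ ∧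
      (∀ y ∈ Y, ∀ a, (fun ξ : Set.Iio a => y ξ.1) ∈ T a) ∧
      ∀ α ∈ E, α ∈ R → ∃ y ∈ Y, #{ξ : Set.Iio α | t α ξ ≠ y ξ.1} ≤ θ := by
  classical
  have hR : Reg κ.ord.ToType κ := reg_toType hreg
  have hK : #κ.ord.ToType = κ := mk_ord_toType κ
  have hL : Loc θ R t := by
    intro β
    by_cases hst : IsStationary {α : Set.Iio β | α.1 ∈ R}
    · exact hloc β hst
    · obtain ⟨E, hE, hdis⟩ := not_isStationary_iff.1 hst
      refine ⟨E, ∅, hE, by simp, fun α hα hαR => ?_⟩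
      exact absurd hα (Set.disjoint_left.1 hdis hαR)
  let 𝒴 : Set ((a : κ.ord.ToType) → Quotient (St A hθ a)) := {b |
    (∀ a c (h : a ≤ c), qres hθ h (b c) = b a) ∧ IsStationary (OnThread hθ R t b)}
  -- almost every index lies on one of these threads
  have hcover : ¬ IsStationary (R \ ⋃ b ∈ 𝒴, OnThread hθ R t b) := by
    intro hst
    have hL' : Loc θ (R \ ⋃ b ∈ 𝒴, OnThread hθ R t b) t := by
      intro β
      obtain ⟨E, P, hE, hP, hEP⟩ := hL β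
      exact ⟨E, P, hE, hP, fun α hα hαR => hEP α hα hαR.1⟩
    obtain ⟨b, hb, hbst⟩ := main_thread hJ hR h0 hK hlim hθ hθκ T hT.small hT.restrict
      (R \ ⋃ b ∈ 𝒴, OnThread hθ R t b) hst t (fun α hα => ht α hα.1) hL'
    have hsub : OnThread hθ (R \ ⋃ b ∈ 𝒴, OnThread hθ R t b) t b ⊆ OnThread hθ R t b :=
      fun α hα => ⟨hα.1.1, hα.2⟩
    obtain ⟨α, hα⟩ := hbst.nonempty
    exact hα.1.2 (Set.mem_biUnion (show b ∈ 𝒴 from ⟨hb, hbst.mono hsub⟩) (hsub hα))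
  -- few threads
  have hfew : #𝒴 < κ := by
    by_contra hcon
    have h1 : #κ.ord.ToType ≤ #𝒴 := by rw [hK]; exact not_lt.1 hcon
    obtain ⟨B⟩ := (Cardinal.le_def _ _).1 h1
    have hQ : ∀ i a, IsStationary (Ind hθ R t ((B i).1 a)) := by
      intro i a
      refine (isStationary_tail hR (B i).2.2 a).mono ?_
      rintro α ⟨hα, haα⟩
      exact ⟨hα.1, haα.le, hα.2 a haα⟩
    obtain ⟨x, hx⟩ := many_threads hJ hR h0 hK hlim (QS hθ R t) (πS hθ R t) (πS_self hθ R t)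
      (πS_comp hθ R t) (QS_card hθ T hT.small hT.restrict R t ht)
      (fun i a => ⟨(B i).1 a, hQ i a⟩) (fun i a b h => Subtype.ext ((B i).2.1 a b h))
      (fun i j hij => B.injective (Subtype.ext (funext fun a =>
        congrArg Subtype.val (congrFun hij a))))
    exact no_antichain hJ hR h0 hK hlim hθ hθκ R t hL x hx
  -- the function and the branch of a thread
  have hyex : ∀ b : 𝒴, ∃ y : κ.ord.ToType → A,
      ∀ a, Quotient.mk (St A hθ a) (fun ξ => y ξ.1) = b.1 a := fun b =>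
    exists_y hJ hR hK hlim hθ hθκ b.1 b.2.1
  choose y hy using hyex
  have hbr : ∀ b : 𝒴, ∃ y' : κ.ord.ToType → A, #{ξ | y' ξ ≠ y b ξ} ≤ θ ∧
      ∀ a, (fun ξ : Set.Iio a => y' ξ.1) ∈ T a := by
    intro b
    obtain ⟨y', h1, h2⟩ := branch_near hR hlim hθ hθκ
      (fun a => {s | s ∈ T a ∧ #{ξ : Set.Iio a | s ξ ≠ y b ξ.1} ≤ θ})
      (fun a => by
        obtain ⟨α, hα, haα⟩ := (isStationary_tail hR b.2.2 a).nonempty
        refine ⟨res haα.le (t α), hT.restrict a α haα.le (t α) (ht α hα.1), ?_⟩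
        have h1 : Quotient.mk (St A hθ a) (res haα.le (t α)) =
            Quotient.mk _ (fun ξ => y b ξ.1) := by
          rw [hα.2 a haα, hy b]
        exact Quotient.exact h1)
      (fun a => lt_of_le_of_lt (mk_le_mk_of_subset (fun s hs => hs.1)) (hT.small a))
      (fun a c h s hs => ⟨hT.restrict a c h s hs.1, by
        have h1 := close_res h (t := fun ξ => y b ξ.1) hs.2
        exact h1⟩)
      (y b) (fun a s hs => hs.2)
    exact ⟨y', h1, fun a => (h2 a).1⟩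
  choose y' hy'1 hy'2 using hbr
  have hbad : ¬ IsStationary ((R \ ⋃ b ∈ 𝒴, OnThread hθ R t b) ∪
      ⋃ b : 𝒴, {α | α ∈ OnThread hθ R t b.1 ∧ θ < #{ξ : Set.Iio α | t α ξ ≠ y b ξ.1}}) := by
    rw [isStationary_union_iff (hR.cof_ne h0)]
    rintro (h | h)
    · exact hcover h
    · rw [isStationary_iUnion_iff (hR.cof_ne h0)
        (by simpa using lt_of_lt_of_le hfew (hR.le_cof h0))] at h
      obtain ⟨b, hb⟩ := h
      exact sharp hJ hR h0 hK hlim hθ hθκ R t hL b.1 (y b) (hy b) hb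
  obtain ⟨E, hE, hdis⟩ := not_isStationary_iff.1 hbad
  refine ⟨E, Set.range y', hE, lt_of_le_of_lt mk_range_le hfew, ?_, ?_⟩
  · rintro _ ⟨b, rfl⟩ a
    exact hy'2 b a
  · intro α hαE hαR
    have h1 := Set.disjoint_right.1 hdis hαE
    have h2 : α ∈ ⋃ b ∈ 𝒴, OnThread hθ R t b := by
      by_contra hcon
      exact h1 (Or.inl ⟨hαR, hcon⟩)
    obtain ⟨b, hb, hαb⟩ := Set.mem_iUnion₂.1 h2
    refine ⟨y' ⟨b, hb⟩, ⟨_, rfl⟩, ?_⟩
    have h3 : #{ξ : Set.Iio α | t α ξ ≠ y ⟨b, hb⟩ ξ.1} ≤ θ := by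
      by_contra hcon
      exact h1 (Or.inr (Set.mem_iUnion.2 ⟨⟨b, hb⟩, hαb, not_le.1 hcon⟩))
    have h4 : #{ξ : Set.Iio α | y ⟨b, hb⟩ ξ.1 ≠ y' ⟨b, hb⟩ ξ.1} ≤ θ := by
      refine le_trans ?_ (hy'1 ⟨b, hb⟩)
      let f : {ξ : Set.Iio α | y ⟨b, hb⟩ ξ.1 ≠ y' ⟨b, hb⟩ ξ.1} →
          {ξ | y' ⟨b, hb⟩ ξ ≠ y ⟨b, hb⟩ ξ} := fun ξ => ⟨ξ.1.1, Ne.symm ξ.2⟩
      refine mk_le_of_injective (f := f) (fun z w h => ?_)
      have h' : (f z).1 = (f w).1 := congrArg Subtype.val h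
      exact Subtype.ext (Subtype.ext h')
    exact close_trans hθ h3 h4

end Final

end Pool.Agent.H93.Jon
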