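import Mathlib
import Pool.Agent.H93.Jon.Defs
import Pool.Agent.H93.Jon.Base
import Pool.Agent.H93.Jon.Proof

/-!
# Jonsson cardinals and narrow C-sequences (MP_68c39c_lc): the proof

Walks along an arbitrary sequence of sets `C β` through a decreasing sequence of clubs, continued
at singular points with short cofinal sets, show that at stationarily many points of a stationary
set some trace `C β ∩ δ` guesses; Fodor's lemma then glues the traces.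
-/

set_option autoImplicit false
set_option linter.unusedSectionVars false
set_option linter.unusedVariables false
universe u
open Cardinal Set

namespace Pool.Agent.H93.Jon

/-! ### walks -/

section Walk

variable {K : Type u} [LinearOrder K] [WellFoundedLT K] {κ θ : Cardinal.{u}}

/-- `s` is unbounded below `γ` -/
def Acc (s : Set K) (γ : K) : Prop := ∀ z < γ, ∃ w ∈ s, z < w ∧ w < γ

/-- the walk from the set `c` towards `γ` over the set `D`; outside `S` it continues with the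
sets `f e` -/
inductive Reach (D : Set K) (f : K → Set K) (S : Set K) (c : Set K) (γ : K) : K → Prop
  | base {x : K} : IsLeast (c ∩ Set.Ici γ) x → Reach D f S c γ x
  | step {x e y : K} : Reach D f S c γ x → IsGreatest (D ∩ Set.Iic x) e → γ < e → e ∉ S →
      IsLeast (f e ∩ Set.Ici γ) y → Reach D f S c γ y

variable {D D0 S c : Set K} {f : K → Set K}

theorem Reach.le (hDD : D ⊆ D0) (hf1 : ∀ e ∈ D0, e ∉ S → ∀ w ∈ f e, w < e) {γ x : K}
    (h : Reach D f S c γ x) : γ ≤ x ∧ ∃ x0, IsLeast (c ∩ Set.Ici γ) x0 ∧ x ≤ x0 := by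
  induction h with
  | base h => exact ⟨h.1.2, _, h, le_rfl⟩
  | step h he hγ heS hy ih =>
    obtain ⟨h1, x0, h2, h3⟩ := ih
    exact ⟨hy.1.2, x0, h2, ((hf1 _ (hDD he.1.1) heS _ hy.1.1).le.trans he.1.2).trans h3⟩

theorem Reach.change (hDD : D ⊆ D0) (hf1 : ∀ e ∈ D0, e ∉ S → ∀ w ∈ f e, w < e) {γ x e : K}
    (h : Reach D f S c γ x) (h1 : γ ≤ e) (h2 : e ≤ x) : Reach D f S c e x := by
  induction h with
  | base h =>
    exact Reach.base ⟨⟨h.1.1, h2⟩, fun w hw => h.2 ⟨hw.1, h1.trans hw.2⟩⟩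
  | step h he hγ heS hy ih =>
    have h3 := hf1 _ (hDD he.1.1) heS _ hy.1.1
    refine Reach.step (ih (h2.trans (h3.le.trans he.1.2))) he (lt_of_le_of_lt h2 h3) heS
      ⟨⟨hy.1.1, h2⟩, fun w hw => hy.2 ⟨hw.1, h1.trans hw.2⟩⟩

theorem exists_least {s : Set K} (hs : s.Nonempty) : ∃ x, IsLeast s x := by
  obtain ⟨x, hx, hmin⟩ := WellFounded.has_min (wellFounded_lt (α := K)) s hs
  exact ⟨x, hx, fun y hy => not_lt.1 (hmin y hy)⟩

theorem exists_greatest (hR : Reg K κ) (hD : IsClub D) {γ x : K} (h1 : γ ∈ D) (h2 : γ ≤ x) :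
    ∃ e, IsGreatest (D ∩ Set.Iic x) e := by
  obtain ⟨e, he⟩ := hR.exists_lub (D ∩ Set.Iic x) (by
    obtain ⟨x', hx'⟩ := hR.exists_gt x
    refine lt_of_le_of_lt (mk_le_mk_of_subset (t := Set.Iio x') ?_) (hR.small x')
    exact fun y hy => lt_of_le_of_lt hy.2 hx')
  exact ⟨e, ⟨hD.isLUB_mem (t := D ∩ Set.Iic x) (fun y hy => hy.1) ⟨γ, h1, h2⟩ he,
    he.2 (fun y hy => hy.2)⟩, he.1⟩

/-- descent: if one trace `c` avoids hits for cofinally many members of a decreasing sequence of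
clubs, then the common points of the clubs in `S` are limits of `c`. -/
theorem descent (hR : Reg K κ) {W : Type u} [LinearOrder W]
    [WellFoundedLT W] [Nonempty W] (Z : Set W)
    (hZ : ∀ z, ∃ z' ∈ Z, z < z') (Dz Ez : W → Set K) (hDc : ∀ z, IsClub (Dz z))
    (hDE : ∀ z z', z < z' → Dz z' ⊆ Ez z) (hanti : ∀ z z', z ≤ z' → Dz z' ⊆ Dz z)
    (hDD : ∀ z, Dz z ⊆ D0)
    (hf1 : ∀ e ∈ D0, e ∉ S → ∀ w ∈ f e, w < e) (hf2 : ∀ e ∈ D0, e ∉ S → ∀ z < e, ∃ w ∈ f e, z ≤ w)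
    (δ : K) (hcδ : ∀ w ∈ c, w < δ) (hc : Acc c δ)
    (hno : ∀ z ∈ Z, ∀ γ ∈ Ez z, γ ∈ S → γ < δ → ¬ Acc c γ → ∀ x, Reach (Dz z) f S c γ x →
      ¬ IsGreatest (Dz z ∩ Set.Iic x) γ) (γ : K) (hγD : ∀ z, γ ∈ Dz z) (hγS : γ ∈ S)
    (hγ : γ < δ) : Acc c γ := by
  by_contra hacc
  have key : ∀ x, ¬ ∃ z0, ∀ z ∈ Z, z0 ≤ z → Reach (Dz z) f S c γ x := by
    intro x
    induction x using WellFoundedLT.induction with
    | ind x ih =>
    rintro ⟨z0, hz0⟩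
    obtain ⟨z1', hz1', hz01⟩ := hZ z0
    have hrx := hz0 z1' hz1' hz01.le
    obtain ⟨hγx, x0, hx0, hxx0⟩ := hrx.le (hDD z1') hf1
    choose e he using fun z => exists_greatest hR (hDc z) (hγD z) hγx
    obtain ⟨e1, ⟨z1, ⟨hz1, hz01'⟩, hez1⟩, hmin⟩ := exists_least (s := e '' {z | z ∈ Z ∧ z0 ≤ z})
      ⟨e z1', z1', ⟨hz1', hz01.le⟩, rfl⟩
    have heq : ∀ z ∈ Z, z1 ≤ z → e z = e1 := by
      intro z hz hle
      refine le_antisymm ?_ (hmin ⟨z, ⟨hz, hz01'.trans hle⟩, rfl⟩)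
      rw [← hez1]
      exact (he z1).2 ⟨hanti z1 z hle (he z).1.1, (he z).1.2⟩
    have hmem : ∀ z, e1 ∈ Dz z := by
      intro z
      obtain ⟨z2, hz2, hlt⟩ := hZ (max z z1)
      rw [← heq z2 hz2 ((le_max_right z z1).trans hlt.le)]
      exact hanti z z2 ((le_max_left z z1).trans hlt.le) (he z2).1.1
    have hge : γ ≤ e1 := by rw [← hez1]; exact (he z1).2 ⟨hγD z1, hγx⟩
    have hle : e1 ≤ x := by rw [← hez1]; exact (he z1).1.2
    by_cases heS : e1 ∈ S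
    · obtain ⟨z2, hz2, hlt⟩ := hZ z1
      refine hno z1 hz1 e1 (hDE z1 z2 hlt (hmem z2)) heS
        (lt_of_le_of_lt (hle.trans hxx0) (hcδ _ hx0.1.1)) ?_ x
        ((hz0 z1 hz1 hz01').change (hDD z1) hf1 hge hle) (by rw [← hez1]; exact he z1)
      rcases hge.eq_or_lt with h | h
      · rw [← h]; exact hacc
      · intro hA
        obtain ⟨w, hw, h3, h4⟩ := hA γ h
        exact absurd (hx0.2 ⟨hw, h3.le⟩) (not_le.2 (lt_of_lt_of_le h4 (hle.trans hxx0)))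
    · have hlt : γ < e1 := lt_of_le_of_ne hge (fun h => heS (h ▸ hγS))
      have he0 : e1 ∈ D0 := hDD z1 (hmem z1)
      obtain ⟨w, hw, hγw⟩ := hf2 e1 he0 heS γ hlt
      obtain ⟨y, hy⟩ := exists_least (s := f e1 ∩ Set.Ici γ) ⟨w, hw, hγw⟩
      refine ih y (lt_of_lt_of_le (hf1 e1 he0 heS y hy.1.1) hle) ⟨z1, fun z hz hzz => ?_⟩
      refine Reach.step (hz0 z hz (hz01'.trans hzz)) ?_ hlt heS hy
      rw [← heq z hz hzz]; exact he z
  obtain ⟨w, hw, hγw, -⟩ := hc γ hγ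
  obtain ⟨x0, hx0⟩ := exists_least (s := c ∩ Set.Ici γ) ⟨w, hw, hγw.le⟩
  exact key x0 ⟨Classical.arbitrary W, fun z _ _ => Reach.base hx0⟩

theorem exists_fun_of_unique {α β : Type u} [Nonempty β] (P : α → β → Prop)
    (hP : ∀ a x y, P a x → P a y → x = y) : ∃ g : α → β, ∀ a x, P a x → g a = x := by
  classical
  refine ⟨fun a => if h : ∃ x, P a x then h.choose else Classical.arbitrary β, fun a x hx => ?_⟩
  have h : ∃ x, P a x := ⟨x, hx⟩
  show (if h : ∃ x, P a x then h.choose else Classical.arbitrary β) = x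
  rw [dif_pos h]
  exact hP a _ _ h.choose_spec hx

/-- For every club `D` there is a smaller club `E` such that every point of `E` has a trace without
hits. -/
theorem no_guess (hJ : IsJonsson κ) (hR : Reg K κ) (h0 : ℵ₀ < κ) (hK : #K = κ)
    (hlim : ∀ μ < κ, Order.succ μ < κ) (C : K → Set K)
    (hC : ∀ β ξ, ξ < β → ∃ η ∈ C β, ξ ≤ η ∧ η < β) (hDc : IsClub D) (hDD : D ⊆ D0)
    (hf3 : ∀ e ∈ D0, e ∉ S → ∀ γ ∈ S, γ < e → ¬ Acc (f e) γ)
    (A : K → List K → Set K) (hA1 : ∀ e l, #(A e l) ≤ ℵ₀)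
    (hA2 : ∀ e ∈ D0, e ∈ S → ∀ Y : Set K, Acc Y e →
      (∀ l : List K, (∀ x ∈ l, x ∈ Y) → A e l ⊆ Y) → ∀ x < e, x ∈ Y) :
    ∃ E : Set K, IsClub E ∧ E ⊆ D ∧ ∀ δ ∈ E, ∃ β, δ ≤ β ∧ Acc (C β) δ ∧
      ∀ γ ∈ E, γ ∈ S → γ < δ → ¬ Acc (C β ∩ Set.Iio δ) γ →
        ∀ x, Reach D f S (C β ∩ Set.Iio δ) γ x → ¬ IsGreatest (D ∩ Set.Iic x) γ := by
  classical
  have hKne : Nonempty K := by
    obtain ⟨b, -⟩ := hR.bdd ∅ (by simpa using pos_of_gt h0)
    exact ⟨b⟩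
  have hKinf : Infinite K := by
    rw [Cardinal.infinite_iff, hK]; exact h0.le
  obtain ⟨code⟩ : Nonempty (List K ≃ K) := Cardinal.eq.1 (Cardinal.mk_list_eq_mk K)
  obtain ⟨mC, hmC⟩ := exists_fun_of_unique (α := K × K) (β := K)
    (fun a x => IsLeast (C a.1 ∩ Set.Ici a.2) x) (fun a x y hx hy => hx.unique hy)
  obtain ⟨mf, hmf⟩ := exists_fun_of_unique (α := K × K) (β := K)
    (fun a x => IsLeast (f a.1 ∩ Set.Ici a.2) x) (fun a x y hx hy => hx.unique hy)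
  obtain ⟨mD, hmD⟩ := exists_fun_of_unique (α := K) (β := K)
    (fun a x => IsGreatest (D ∩ Set.Iic a) x) (fun a x y hx hy => hx.unique hy)
  let F : K → K → Set K := fun a b =>
    {mC (a, b)} ∪ ({mf (a, b)} ∪ ({mD b} ∪ ({code (a :: code.symm b)} ∪ ({code []} ∪
      A a (code.symm b)))))
  have hF : ∀ a b, #(F a b) ≤ ℵ₀ := by
    intro a b
    have h1 : ∀ x : K, #({x} : Set K) ≤ ℵ₀ := fun x => by
      rw [mk_singleton]; exact one_le_aleph0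
    exact card_le_of_two le_rfl (h1 _) (card_le_of_two le_rfl (h1 _) (card_le_of_two le_rfl (h1 _)
      (card_le_of_two le_rfl (h1 _) (card_le_of_two le_rfl (h1 _) (hA1 _ _)))))
  obtain ⟨X, hX1, hX2, hX3⟩ := hJ.exists_closed hlim hK le_rfl h0 F hF
  obtain ⟨i, hi⟩ : ∃ i, i ∉ X := by
    by_contra hcon
    push Not at hcon
    exact hX1 (Set.eq_univ_of_forall hcon)
  have hcode : ∀ l : List K, (∀ x ∈ l, x ∈ X) → code l ∈ X := by
    intro l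
    induction l with
    | nil =>
      intro _
      obtain ⟨b, hb, -⟩ := hR.unbdd X hX2.ge i
      exact hX3 b hb b hb (Or.inr (Or.inr (Or.inr (Or.inr (Or.inl rfl)))))
    | cons a l ih =>
      intro h
      have h1 := ih (fun x hx => h x (List.mem_cons_of_mem _ hx))
      have h2 := hX3 a (h a List.mem_cons_self) _ h1
        (Or.inr (Or.inr (Or.inr (Or.inl (Set.mem_singleton (code (a :: code.symm (code l))))))))
      rwa [Equiv.symm_apply_apply] at h2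
  have hcX : ∀ a ∈ X, ∀ b ∈ X, ∀ x, IsLeast (C a ∩ Set.Ici b) x → x ∈ X := by
    intro a ha b hb x hx
    rw [← hmC (a, b) x hx]
    exact hX3 a ha b hb (Or.inl rfl)
  have hfX : ∀ a ∈ X, ∀ b ∈ X, ∀ x, IsLeast (f a ∩ Set.Ici b) x → x ∈ X := by
    intro a ha b hb x hx
    rw [← hmf (a, b) x hx]
    exact hX3 a ha b hb (Or.inr (Or.inl rfl))
  have hDX : ∀ b ∈ X, ∀ x, IsGreatest (D ∩ Set.Iic b) x → x ∈ X := by
    intro b hb x hx
    rw [← hmD b x hx]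
    exact hX3 b hb b hb (Or.inr (Or.inr (Or.inl rfl)))
  have hAX : ∀ a ∈ X, ∀ l : List K, (∀ x ∈ l, x ∈ X) → A a l ⊆ X := by
    intro a ha l hl v hv
    refine hX3 a ha (code l) (hcode l hl) (Or.inr (Or.inr (Or.inr (Or.inr (Or.inr ?_)))))
    rw [Equiv.symm_apply_apply]; exact hv
  have hIoi : IsClub (Set.Ioi i) := by
    refine ⟨?_, fun b => ?_⟩
    · intro t ht htn _ x hx
      obtain ⟨z, hz⟩ := htn
      exact lt_of_lt_of_le (ht hz) (hx.1 hz)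
    · obtain ⟨c, hc⟩ := hR.exists_gt (max i b)
      exact ⟨c, lt_of_le_of_lt (le_max_left i b) hc, (le_max_right i b).trans hc.le⟩
  refine ⟨{α : K | ∀ y < α, ∃ c ∈ X, y < c ∧ c < α} ∩ (D ∩ Set.Ioi i),
    (club_limits hR h0 X hX2.ge).inter (hR.cof_ne h0) (hDc.inter (hR.cof_ne h0) hIoi),
    fun x hx => hx.2.1, ?_⟩
  rintro δ ⟨hδX, hδD, hδi⟩
  obtain ⟨b0, hb0, hδb0⟩ := hR.unbdd X hX2.ge δ
  obtain ⟨β, ⟨hβX, hδβ⟩, hβmin⟩ := exists_least (s := X ∩ Set.Ici δ) ⟨b0, hb0, hδb0.le⟩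
  refine ⟨β, hδβ, ?_, ?_⟩
  · intro z hz
    obtain ⟨w, hw, hzw, hwδ⟩ := hδX z hz
    obtain ⟨η, hη, hwη, hηβ⟩ := hC β w (lt_of_lt_of_le hwδ hδβ)
    obtain ⟨v, hv⟩ := exists_least (s := C β ∩ Set.Ici w) ⟨η, hη, hwη⟩
    have hvX := hcX β hβX w hw v hv
    refine ⟨v, hv.1.1, lt_of_lt_of_le hzw hv.1.2, ?_⟩
    by_contra hcon
    have h1 := hβmin ⟨hvX, not_lt.1 hcon⟩
    exact absurd (lt_of_le_of_lt (hv.2 ⟨hη, hwη⟩) hηβ) (not_lt.2 h1)
  · rintro γ ⟨hγX, hγD, hγi⟩ hγS hγδ hacc x hx hgr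
    have hreach : ∀ x, Reach D f S (C β ∩ Set.Iio δ) γ x → x ∈ X := by
      intro x hx
      induction hx with
      | base h =>
        rename_i x
        simp only [Acc] at hacc
        push Not at hacc
        obtain ⟨z, hz, hzc⟩ := hacc
        obtain ⟨ζ, hζ, hzζ, hζγ⟩ := hγX z hz
        refine hcX β hβX ζ hζ x ⟨⟨h.1.1.1, hζγ.le.trans h.1.2⟩, fun w hw => ?_⟩
        by_cases hwδ : w < δ
        · have h2 := hzc w ⟨hw.1, hwδ⟩ (lt_of_lt_of_le hzζ hw.2)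
          exact h.2 ⟨⟨hw.1, hwδ⟩, h2⟩
        · exact (lt_of_lt_of_le h.1.1.2 (not_lt.1 hwδ)).le
      | step h he hγe heS hy ih =>
        rename_i x e y
        have heX := hDX x ih e he
        have h3 := hf3 e (hDD he.1.1) heS γ hγS hγe
        simp only [Acc] at h3
        push Not at h3
        obtain ⟨z, hz, hzc⟩ := h3
        obtain ⟨ζ, hζ, hzζ, hζγ⟩ := hγX z hz
        refine hfX e heX ζ hζ y ⟨⟨hy.1.1, hζγ.le.trans hy.1.2⟩, fun w hw => ?_⟩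
        exact hy.2 ⟨hw.1, hzc w hw.1 (lt_of_lt_of_le hzζ hw.2)⟩
    have hγ := hDX x (hreach x hx) γ hgr
    exact hi (hA2 γ (hDD hγD) hγS X hγX (hAX γ hγ) i hγi)

/-- the traces at `δ` of a sequence `C` of sets -/
def traces (C : K → Set K) (δ : K) : Set (Set K) :=
  {s | ∃ β, δ ≤ β ∧ Acc (C β) δ ∧ s = C β ∩ Set.Iio δ}

theorem exists_common (hJ : IsJonsson κ) (hR : Reg K κ) (h0 : ℵ₀ < κ) (hK : #K = κ)
    (hlim : ∀ μ < κ, Order.succ μ < κ) (hθ : ℵ₀ ≤ θ) (hθκ : θ < κ) (C : K → Set K)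
    (hC : ∀ β ξ, ξ < β → ∃ η ∈ C β, ξ ≤ η ∧ η < β) (hD0 : IsClub D0)
    (hf1 : ∀ e ∈ D0, e ∉ S → ∀ w ∈ f e, w < e) (hf2 : ∀ e ∈ D0, e ∉ S → ∀ z < e, ∃ w ∈ f e, z ≤ w)
    (hf3 : ∀ e ∈ D0, e ∉ S → ∀ γ ∈ S, γ < e → ¬ Acc (f e) γ)
    (A : K → List K → Set K) (hA1 : ∀ e l, #(A e l) ≤ ℵ₀)
    (hA2 : ∀ e ∈ D0, e ∈ S → ∀ Y : Set K, Acc Y e →
      (∀ l : List K, (∀ x ∈ l, x ∈ Y) → A e l ⊆ Y) → ∀ x < e, x ∈ Y) :
    ∃ D : Set K, IsClub D ∧ ∀ δ ∈ D, #(traces C δ) ≤ θ → ∃ β, δ ≤ β ∧ Acc (C β) δ ∧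
      ∀ γ ∈ D, γ ∈ S → γ < δ → Acc (C β) γ := by
  classical
  have hEf : ∀ D : {D : Set K // IsClub D ∧ D ⊆ D0}, ∃ E : {D : Set K // IsClub D ∧ D ⊆ D0},
      E.1 ⊆ D.1 ∧ ∀ δ ∈ E.1, ∃ β, δ ≤ β ∧ Acc (C β) δ ∧
      ∀ γ ∈ E.1, γ ∈ S → γ < δ → ¬ Acc (C β ∩ Set.Iio δ) γ →
        ∀ x, Reach D.1 f S (C β ∩ Set.Iio δ) γ x → ¬ IsGreatest (D.1 ∩ Set.Iic x) γ := by
    intro D
    obtain ⟨E, h1, h2, h3⟩ := no_guess hJ hR h0 hK hlim C hC D.2.1 D.2.2 hf3 A hA1 hA2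
    exact ⟨⟨E, h1, h2.trans D.2.2⟩, h2, h3⟩
  choose Ef hE1 hE2 using hEf
  have hWc : #(Order.succ θ).ord.ToType = Order.succ θ := mk_ord_toType _
  have hRW : Reg (Order.succ θ).ord.ToType (Order.succ θ) := reg_toType (isRegular_succ hθ)
  have hWne : Nonempty (Order.succ θ).ord.ToType := by
    obtain ⟨b, -⟩ := hRW.bdd ∅ (by simp)
    exact ⟨b⟩
  set W := (Order.succ θ).ord.ToType with hWdef
  have hclub : ∀ (z : W) (IH : Set.Iio z → {D : Set K // IsClub D ∧ D ⊆ D0}),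
      IsClub (D0 ∩ ⋂ w : Set.Iio z, (Ef (IH w)).1) := by
    intro z IH
    refine hD0.inter (hR.cof_ne h0) (IsClub.iInter (hR.cof_ne h0) ?_ (fun w => (Ef (IH w)).2.1))
    rw [Cardinal.lift_lt]
    exact lt_of_lt_of_le ((hRW.small z).trans (hlim θ hθκ)) (hR.le_cof h0)
  let step : (z : W) → ((w : W) → w < z → {D : Set K // IsClub D ∧ D ⊆ D0}) →
      {D : Set K // IsClub D ∧ D ⊆ D0} := fun z IH =>
    ⟨D0 ∩ ⋂ w : Set.Iio z, (Ef (IH w.1 w.2)).1, hclub z (fun w => IH w.1 w.2),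
      Set.inter_subset_left⟩
  let Dz : W → {D : Set K // IsClub D ∧ D ⊆ D0} := (wellFounded_lt (α := W)).fix step
  have hDz : ∀ z, (Dz z).1 = D0 ∩ ⋂ w : Set.Iio z, (Ef (Dz w.1)).1 := by
    intro z
    have h1 := (wellFounded_lt (α := W)).fix_eq step z
    show ((wellFounded_lt (α := W)).fix step z).1 = _
    rw [h1]
  have hDE : ∀ z z', z < z' → (Dz z').1 ⊆ (Ef (Dz z)).1 := by
    intro z z' h x hx
    rw [hDz] at hx
    exact Set.mem_iInter.1 hx.2 ⟨z, h⟩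
  have hanti : ∀ z z', z ≤ z' → (Dz z').1 ⊆ (Dz z).1 := by
    intro z z' h
    rcases h.eq_or_lt with h | h
    · rw [h]
    · exact (hDE z z' h).trans (hE1 _)
  refine ⟨⋂ z, (Dz z).1, ?_, ?_⟩
  · refine IsClub.iInter (hR.cof_ne h0) ?_ (fun z => (Dz z).2.1)
    rw [Cardinal.lift_lt, hWc]
    exact lt_of_lt_of_le (hlim θ hθκ) (hR.le_cof h0)
  · intro δ hδ hδθ
    have hδE : ∀ z, δ ∈ (Ef (Dz z)).1 := by
      intro z
      obtain ⟨z', hz'⟩ := hRW.exists_gt z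
      exact hDE z z' hz' (Set.mem_iInter.1 hδ z')
    choose b hb1 hb2 hb3 using fun z => hE2 (Dz z) δ (hδE z)
    obtain ⟨c, hc⟩ : ∃ c : traces C δ, ∀ z : W, ∃ z', C (b z') ∩ Set.Iio δ = c.1 ∧ z < z' := by
      by_contra hcon
      push Not at hcon
      choose B hB using hcon
      obtain ⟨B', hB'⟩ := hRW.bdd_range B (lt_of_le_of_lt hδθ (Order.lt_succ θ))
      have h1 := hB ⟨C (b B') ∩ Set.Iio δ, b B', hb1 B', hb2 B', rfl⟩ B' rfl
      exact absurd (hB' ⟨C (b B') ∩ Set.Iio δ, b B', hb1 B', hb2 B', rfl⟩) (not_lt.2 h1)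
    obtain ⟨c, β, hβ1, hβ2, hβ3⟩ := c
    refine ⟨β, hβ1, hβ2, fun γ hγ hγS hγδ => ?_⟩
    have hacc : Acc c δ := by
      intro z hz
      obtain ⟨w, hw, h1, h2⟩ := hβ2 z hz
      exact ⟨w, by rw [hβ3]; exact ⟨hw, h2⟩, h1, h2⟩
    have h4 := descent hR {z | C (b z) ∩ Set.Iio δ = c} hc (fun z => (Dz z).1)
      (fun z => (Ef (Dz z)).1) (fun z => (Dz z).2.1) hDE hanti (fun z => (Dz z).2.2) hf1 hf2 δ
      (fun w hw => by rw [hβ3] at hw; exact hw.2) hacc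
      (fun z hz γ hγ hγS hγδ hna x hx => by
        have hz' : C (b z) ∩ Set.Iio δ = c := hz
        rw [← hz'] at hna hx
        exact hb3 z γ hγ hγS hγδ hna x hx) γ (fun z => Set.mem_iInter.1 hγ z) hγS hγδ
    intro z hz
    obtain ⟨w, hw, h1, h2⟩ := h4 z hz
    rw [hβ3] at hw
    exact ⟨w, hw.1, h1, h2⟩

omit [WellFoundedLT K] in
theorem narrow (hR : Reg K κ) (hlim : ∀ μ < κ, Order.succ μ < κ) (hθ : ℵ₀ ≤ θ)
    (hθκ : θ < κ) (R : K → Type u) (π : ∀ a b : K, a ≤ b → R b → R a)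
    (hid : ∀ a x, π a a le_rfl x = x)
    (hcomp : ∀ a b c (h1 : a ≤ b) (h2 : b ≤ c) x, π a b h1 (π b c h2 x) = π a c (h1.trans h2) x)
    (hne : ∀ a, Nonempty (R a)) (hc : ∀ a, #(R a) ≤ θ) :
    ∃ x : ∀ a, R a, ∀ a b (h : a ≤ b), π a b h (x b) = x a := by
  classical
  -- good elements
  let G : ∀ a, R a → Prop := fun a x => ∀ b (h : a ≤ b), ∃ y : R b, π a b h y = x
  have hbad : ∀ a, ∃ b, ∃ h : a ≤ b, ∀ y : R b, G a (π a b h y) := by
    intro a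
    have h1 : ∀ x : R a, ∃ b, a ≤ b ∧ (¬ G a x → ∀ (h : a ≤ b) (y : R b), π a b h y ≠ x) := by
      intro x
      by_cases hx : G a x
      · exact ⟨a, le_rfl, fun h => absurd hx h⟩
      · have hx' := hx
        simp only [G] at hx'
        push Not at hx'
        obtain ⟨b, h, hb⟩ := hx'
        exact ⟨b, h, fun _ _ y => hb y⟩
    choose f hf1 hf2 using h1
    obtain ⟨b, hb⟩ := hR.bdd_range f (lt_of_le_of_lt (hc a) hθκ)
    obtain ⟨x0⟩ := hne a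
    have hab : a ≤ b := (hf1 x0).trans (hb x0).le
    refine ⟨b, hab, fun y => ?_⟩
    by_contra hG
    have h3 := hf2 (π a b hab y) hG (hf1 _) (π _ b (hb (π a b hab y)).le y)
    rw [hcomp] at h3
    exact h3 rfl
  have hGne : ∀ a, ∃ x : R a, G a x := by
    intro a
    obtain ⟨b, h, hb⟩ := hbad a
    obtain ⟨y⟩ := hne b
    exact ⟨_, hb y⟩
  have hGext : ∀ a b (h : a ≤ b) (x : R a), G a x → ∃ y : R b, G b y ∧ π a b h y = x := by
    intro a b h x hx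
    obtain ⟨c, hbc, hcG⟩ := hbad b
    obtain ⟨z, hz⟩ := hx c (h.trans hbc)
    refine ⟨π b c hbc z, hcG z, ?_⟩
    rw [hcomp]; exact hz
  have hGres : ∀ a b (h : a ≤ b) (y : R b), G b y → G a (π a b h y) := by
    intro a b h y hy c hac
    rcases le_total b c with hbc | hcb
    · obtain ⟨z, hz⟩ := hy c hbc
      refine ⟨z, ?_⟩
      rw [← hz, hcomp]
    · exact ⟨π c b hcb y, by rw [hcomp]⟩
  by_contra hno
  -- splitting
  have hsplit : ∀ a (x : R a), G a x → ∃ b, ∃ h : a ≤ b, ∃ y z : R b, G b y ∧ G b z ∧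
      π a b h y = x ∧ π a b h z = x ∧ y ≠ z := by
    intro a x hx
    by_contra hcon
    push Not at hcon
    apply hno
    choose Y hY1 hY2 using fun b (h : a ≤ b) => hGext a b h x hx
    refine ⟨fun b => if h : a ≤ b then Y b h else π b a (not_le.1 h).le x, fun b c hbc => ?_⟩
    show π b c hbc (if h : a ≤ c then Y c h else π c a (not_le.1 h).le x) =
      (if h : a ≤ b then Y b h else π b a (not_le.1 h).le x)
    by_cases hab : a ≤ b
    · have hac : a ≤ c := hab.trans hbc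
      rw [dif_pos hab, dif_pos hac]
      exact hcon b hab _ _ (hGres _ _ _ _ (hY1 c hac)) (hY1 b hab) (by rw [hcomp]; exact hY2 c hac)
        (hY2 b hab)
    · by_cases hac : a ≤ c
      · rw [dif_neg hab, dif_pos hac, ← hY2 c hac, hcomp]
      · rw [dif_neg hab, dif_neg hac, hcomp]
  have hg : ∀ a, ∃ b, ∃ h : a ≤ b, ∀ x : R a, G a x → ∀ w : R b, ∃ z : R b, G b z ∧
      π a b h z = x ∧ z ≠ w := by
    intro a
    have h1 : ∀ x : R a, ∃ b, a ≤ b ∧ (G a x → ∀ (h : a ≤ b), ∃ y z : R b, G b y ∧ G b z ∧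
      π a b h y = x ∧ π a b h z = x ∧ y ≠ z) := by
      intro x
      by_cases hx : G a x
      · obtain ⟨b, h, hyz⟩ := hsplit a x hx
        exact ⟨b, h, fun _ _ => hyz⟩
      · exact ⟨a, le_rfl, fun h => absurd h hx⟩
    choose f hf1 hf2 using h1
    obtain ⟨b, hb⟩ := hR.bdd_range f (lt_of_le_of_lt (hc a) hθκ)
    obtain ⟨x0⟩ := hne a
    have hab : a ≤ b := (hf1 x0).trans (hb x0).le
    refine ⟨b, hab, fun x hx w => ?_⟩
    obtain ⟨y, z, hy, hz, hyx, hzx, hyz⟩ := hf2 x hx (hf1 x)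
    obtain ⟨y', hy', hyy⟩ := hGext _ b (hb x).le y hy
    obtain ⟨z', hz', hzz⟩ := hGext _ b (hb x).le z hz
    have hyz' : y' ≠ z' := by
      intro h
      apply hyz
      rw [← hyy, ← hzz, h]
    by_cases hw : z' = w
    · refine ⟨y', hy', ?_, fun h => hyz' (h.trans hw.symm)⟩
      rw [← hcomp a _ b (hf1 x) (hb x).le, hyy, hyx]
    · refine ⟨z', hz', ?_, hw⟩
      rw [← hcomp a _ b (hf1 x) (hb x).le, hzz, hzx]
  choose g hg1 hg2 using hg
  have hW : ∀ j : (Order.succ θ).ord.ToType, #(Set.Iio j) < κ := fun j => by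
    have h1 : #(Set.Iio j) < Order.succ θ := by simpa using mk_Iio_lt j
    exact h1.trans (hlim θ hθκ)
  have hKne : Nonempty K := by
    obtain ⟨b, -⟩ := hR.bdd ∅ (by simpa using pos_of_gt hθκ)
    exact ⟨b⟩
  obtain ⟨k0⟩ := hKne
  obtain ⟨x, hx0, hx⟩ := hR.exists_seq (Order.succ θ).ord.ToType hW g k0
  obtain ⟨c, hxc⟩ := hR.bdd_range (fun j => g (x j)) (by
    rw [mk_ord_toType]; exact hlim θ hθκ)
  have hxc' : ∀ j, x j ≤ c := fun j => (hg1 _).trans (hxc j).le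
  obtain ⟨t, ht⟩ := hGne c
  have hs : ∀ j, ∃ s : R c, π (x j) c (hxc' j) s = π (x j) c (hxc' j) t ∧
      π (g (x j)) c (hxc j).le s ≠ π (g (x j)) c (hxc j).le t := by
    intro j
    obtain ⟨z, hz1, hz2, hz3⟩ := hg2 (x j) (π (x j) c (hxc' j) t) (hGres _ _ _ _ ht)
      (π (g (x j)) c (hxc j).le t)
    obtain ⟨s, hs1, hs2⟩ := hGext _ c (hxc j).le z hz1
    refine ⟨s, ?_, by rw [hs2]; exact hz3⟩
    rw [← hz2, ← hs2, hcomp]
  choose s hs1 hs2 using hs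
  have hlt : ∀ i j, i < j → s i ≠ s j := by
    intro i j hij h
    apply hs2 i
    have h1 : g (x i) ≤ x j := (hx i j hij).1.le
    rw [h, ← hcomp _ _ c h1 (hxc' j), hs1 j, hcomp]
  have hinj : Function.Injective s := by
    intro i j h
    rcases lt_trichotomy i j with h1 | h1 | h1
    · exact absurd h (hlt i j h1)
    · exact h1
    · exact absurd h.symm (hlt j i h1)
  have h2 := (mk_le_of_injective hinj).trans (hc c)
  rw [mk_ord_toType] at h2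
  exact absurd h2 (not_le.2 (Order.lt_succ θ))


theorem exists_seg {μ : Cardinal.{u}} {δ : K} (h : μ < #(Set.Iio δ)) :
    ∃ g < δ, μ ≤ #(Set.Iio g) := by
  have h1 : μ.ord < Ordinal.type (α := Set.Iio δ) (· < ·) := by
    by_contra h1
    have h2 := Ordinal.card_le_card (not_lt.1 h1)
    rw [Ordinal.card_type, Cardinal.card_ord] at h2
    exact absurd h (not_lt.2 h2)
  obtain ⟨x, hx⟩ := Ordinal.typein_surj (α := Set.Iio δ) (· < ·) h1
  have h2 : (Ordinal.typein (α := Set.Iio δ) (· < ·) x).card = μ := by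
    rw [hx, Cardinal.card_ord]
  rw [Ordinal.card_typein] at h2
  refine ⟨x.1, x.2, ?_⟩
  rw [← h2]
  let g : {y : Set.Iio δ // y < x} → Set.Iio x.1 := fun y => ⟨y.1.1, y.2⟩
  refine mk_le_of_injective (f := g) (fun y z h => ?_)
  have h' : (g y).1 = (g z).1 := congrArg Subtype.val h
  exact Subtype.ext (Subtype.ext h')

theorem exists_guess_set (hJ : IsJonsson κ) (hR : Reg K κ) (h0 : ℵ₀ < κ) (hK : #K = κ)
    (hlim : ∀ μ < κ, Order.succ μ < κ) (C : K → Set K)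
    (hC : ∀ β ξ, ξ < β → ∃ η ∈ C β, ξ ≤ η ∧ η < β) (hD0 : IsClub D0)
    (hf1 : ∀ e ∈ D0, e ∉ S → ∀ w ∈ f e, w < e) (hf2 : ∀ e ∈ D0, e ∉ S → ∀ z < e, ∃ w ∈ f e, z ≤ w)
    (hf3 : ∀ e ∈ D0, e ∉ S → ∀ γ ∈ S, γ < e → ¬ Acc (f e) γ)
    (A : K → List K → Set K) (hA1 : ∀ e l, #(A e l) ≤ ℵ₀)
    (hA2 : ∀ e ∈ D0, e ∈ S → ∀ Y : Set K, Acc Y e →
      (∀ l : List K, (∀ x ∈ l, x ∈ Y) → A e l ⊆ Y) → ∀ x < e, x ∈ Y)
    (hS : IsStationary S) (hN : IsStationary {δ | #(traces C δ) < #(Set.Iio δ)}) :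
    ∃ B : Set K, (∀ ξ, ∃ η ∈ B, ξ < η) ∧ ∀ α, ∃ β, α ≤ β ∧ B ∩ Set.Iio α = C β ∩ Set.Iio α := by
  classical
  have hg : ∀ δ : K, ∃ g, #(traces C δ) < #(Set.Iio δ) → g < δ ∧ #(traces C δ) ≤ #(Set.Iio g) := by
    intro δ
    by_cases h : #(traces C δ) < #(Set.Iio δ)
    · obtain ⟨g, h1, h2⟩ := exists_seg h
      exact ⟨g, fun _ => ⟨h1, h2⟩⟩
    · exact ⟨δ, fun h' => absurd h' h⟩
  choose g hg using hg
  obtain ⟨c0, hc0⟩ := fodor hR h0 hN g (fun a ha => (hg a ha).1)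
  set N' := {a | a ∈ {δ | #(traces C δ) < #(Set.Iio δ)} ∧ g a = c0} with hN'
  set θ : Cardinal.{u} := max ℵ₀ #(Set.Iio c0) with hθdef
  have hθ : ℵ₀ ≤ θ := le_max_left _ _
  have hθκ : θ < κ := max_lt h0 (hR.small c0)
  have hNθ : ∀ δ ∈ N', #(traces C δ) ≤ θ := by
    rintro δ ⟨h1, h2⟩
    have h3 := (hg δ h1).2
    rw [h2] at h3
    exact h3.trans (le_max_right _ _)
  obtain ⟨D, hD, hDδ⟩ := exists_common hJ hR h0 hK hlim hθ hθκ C hC hD0 hf1 hf2 hf3 A hA1 hA2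
  have hKne : Nonempty K := hS.nonempty.to_subtype.map Subtype.val
  have hDS : κ ≤ #(D ∩ S : Set K) := hR.le_card _ (fun a => by
    obtain ⟨x, ⟨hx, hax⟩, hxD⟩ := (isStationary_tail hR hS a) hD
    exact ⟨x, ⟨hxD, hx⟩, hax.le⟩)
  have hG := club_limits hR h0 _ hDS
  have hT : ∀ a, ∃ x, (x ∈ N' ∧ x ∈ D ∧ ∀ y < x, ∃ c ∈ D ∩ S, y < c ∧ c < x) ∧ a ≤ x := by
    intro a
    obtain ⟨x, ⟨hx, hax⟩, hxD, hxG⟩ := (isStationary_tail hR hc0 a) (hD.inter (hR.cof_ne h0) hG)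
    exact ⟨x, ⟨hx, hxD, hxG⟩, hax.le⟩
  choose d hd using fun a => exists_least (s := {x | x ∈ N' ∧ x ∈ D ∧
    ∀ y < x, ∃ c ∈ D ∩ S, y < c ∧ c < x} ∩ Set.Ici a) (hT a)
  have hdmono : ∀ a b, a ≤ b → d a ≤ d b := fun a b h => (hd a).2 ⟨(hd b).1.1, h.trans (hd b).1.2⟩
  have had : ∀ a, a ≤ d a := fun a => (hd a).1.2
  let Q : K → K → Prop := fun a β => d a ≤ β ∧ Acc (C β) (d a) ∧
    ∀ γ ∈ D, γ ∈ S → γ < d a → Acc (C β) γ
  have hQmono : ∀ a b, a ≤ b → ∀ β, Q b β → Q a β := by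
    rintro a b hab β ⟨h1, h2, h3⟩
    refine ⟨(hdmono a b hab).trans h1, ?_, fun γ hγ hγS h =>
      h3 γ hγ hγS (lt_of_lt_of_le h (hdmono a b hab))⟩
    intro z hz
    obtain ⟨γ, ⟨hγD, hγS⟩, hzγ, hγd⟩ := (hd a).1.1.2.2 z hz
    obtain ⟨w, hw, h4, h5⟩ := h3 γ hγD hγS (lt_of_lt_of_le hγd (hdmono a b hab)) z hzγ
    exact ⟨w, hw, h4, h5.trans hγd⟩
  let R : K → Type u := fun a => {s : Set K // ∃ β, Q a β ∧ s = C β ∩ Set.Iio a}
  let π : ∀ a b : K, a ≤ b → R b → R a := fun a b h s => ⟨s.1 ∩ Set.Iio a, by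
    obtain ⟨β, hβ, hs⟩ := s.2
    refine ⟨β, hQmono a b h β hβ, ?_⟩
    rw [hs]
    ext x
    exact ⟨fun hx => ⟨hx.1.1, hx.2⟩, fun hx => ⟨⟨hx.1, lt_of_lt_of_le hx.2 h⟩, hx.2⟩⟩⟩
  have hRsub : ∀ a (s : R a), s.1 ∩ Set.Iio a = s.1 := by
    intro a s
    obtain ⟨β, hβ, hs⟩ := s.2
    rw [hs]
    ext x
    exact ⟨fun hx => hx.1, fun hx => ⟨hx, hx.2⟩⟩
  have hRc : ∀ a, #(R a) ≤ θ := by
    intro a
    refine le_trans ?_ (hNθ (d a) (hd a).1.1.1)
    have hex : ∀ s : R a, ∃ t : traces C (d a), t.1 ∩ Set.Iio a = s.1 := by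
      rintro ⟨s, β, ⟨h1, h2, h3⟩, hs⟩
      refine ⟨⟨C β ∩ Set.Iio (d a), β, h1, h2, rfl⟩, ?_⟩
      show C β ∩ Set.Iio (d a) ∩ Set.Iio a = s
      rw [hs]
      ext x
      exact ⟨fun hx => ⟨hx.1.1, hx.2⟩, fun hx => ⟨⟨hx.1, lt_of_lt_of_le hx.2 (had a)⟩, hx.2⟩⟩
    choose t ht using hex
    refine mk_le_of_injective (f := t) (fun s s' h => Subtype.ext ?_)
    rw [← ht s, ← ht s', h]
  obtain ⟨x, hx⟩ := narrow hR hlim hθ hθκ R π
    (fun a s => Subtype.ext (hRsub a s))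
    (fun a b c h1 h2 s => Subtype.ext (by
      show s.1 ∩ Set.Iio b ∩ Set.Iio a = s.1 ∩ Set.Iio a
      ext x
      exact ⟨fun hx => ⟨hx.1.1, hx.2⟩, fun hx => ⟨⟨hx.1, lt_of_lt_of_le hx.2 h1⟩, hx.2⟩⟩))
    (fun a => by
      obtain ⟨β, h1, h2, h3⟩ := hDδ (d a) (hd a).1.1.2.1 (hNθ (d a) (hd a).1.1.1)
      exact ⟨⟨_, β, ⟨h1, h2, h3⟩, rfl⟩⟩) hRc
  have hxmem : ∀ a b z, z ∈ (x b).1 → z < a → z ∈ (x a).1 := by
    intro a b z hz hza
    rcases le_total a b with h | h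
    · rw [← hx a b h]; exact ⟨hz, hza⟩
    · have h1 := hx b a h
      rw [← h1] at hz
      exact hz.1
  refine ⟨⋃ a, (x a).1, fun ξ => ?_, fun α => ?_⟩
  · obtain ⟨a, ⟨ha1, ha2, ha3⟩, hξa⟩ := hT (Classical.choose (hR.exists_gt ξ))
    have hξ := Classical.choose_spec (hR.exists_gt ξ)
    have hda : d a = a := le_antisymm ((hd a).2 ⟨⟨ha1, ha2, ha3⟩, le_rfl⟩) (had a)
    obtain ⟨β, ⟨h1, h2, h3⟩, hs⟩ := (x a).2
    rw [hda] at h2
    obtain ⟨w, hw, h4, h5⟩ := h2 ξ (lt_of_lt_of_le hξ hξa)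
    exact ⟨w, Set.mem_iUnion.2 ⟨a, by rw [hs]; exact ⟨hw, h5⟩⟩, h4⟩
  · obtain ⟨β, ⟨h1, h2, h3⟩, hs⟩ := (x α).2
    refine ⟨β, (had α).trans h1, ?_⟩
    rw [← hs]
    ext z
    constructor
    · rintro ⟨hz, hzα⟩
      obtain ⟨b, hb⟩ := Set.mem_iUnion.1 hz
      exact hxmem α b z hb hzα
    · intro hz
      exact ⟨Set.mem_iUnion.2 ⟨α, hz⟩, by rw [hs] at hz; exact hz.2⟩

end Walk


/-! ### cardinals as points -/

section Points

variable {K : Type u} [LinearOrder K] [WellFoundedLT K] {κ : Cardinal.{u}}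

/-- the point `a` of a well-order is the cardinal `ν` -/
def IsPt (a : K) (ν : Cardinal.{u}) : Prop :=
  Ordinal.typein (α := K) (· < ·) a = ν.ord

theorem IsPt.card {a : K} {ν : Cardinal.{u}} (h : IsPt a ν) : #(Set.Iio a) = ν := by
  have h1 := Ordinal.card_typein (α := K) (r := (· < ·)) a
  rw [show Ordinal.typein (α := K) (· < ·) a = ν.ord from h, Cardinal.card_ord] at h1
  exact h1.symm

theorem IsPt.cof {a : K} {ν : Cardinal.{u}} (h : IsPt a ν) (hν : ν.IsRegular) :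
    Order.cof (Set.Iio a) = ν := by
  rw [Order.cof_Iio, show Ordinal.typein (α := K) (· < ·) a = ν.ord from h, hν.cof_ord]

/-- small sets do not accumulate at regular cardinals -/
theorem IsPt.not_acc {a : K} {ν : Cardinal.{u}} (h : IsPt a ν) (hν : ν.IsRegular) {s : Set K}
    (hs : #(s ∩ Set.Iio a : Set K) < ν) : ¬ Acc s a := by
  intro hA
  let s' : Set (Set.Iio a) := {x | x.1 ∈ s}
  have h1 : IsCofinal s' := by
    intro x
    obtain ⟨w, hw, h2, h3⟩ := hA x.1 x.2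
    exact ⟨⟨w, h3⟩, hw, h2.le⟩
  have h2 := Order.cof_le h1
  rw [h.cof hν] at h2
  have h3 : #s' ≤ #(s ∩ Set.Iio a : Set K) := by
    let g : s' → (s ∩ Set.Iio a : Set K) := fun x => ⟨x.1.1, x.2, x.1.2⟩
    refine mk_le_of_injective (f := g) (fun x y hxy => ?_)
    have h' : (g x).1 = (g y).1 := congrArg Subtype.val hxy
    exact Subtype.ext (Subtype.ext h')
  exact absurd (lt_of_le_of_lt (h2.trans h3) hs) (lt_irrefl _)

/-- the algebra of a regular cardinal that is not Jonsson -/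
theorem IsPt.exists_alg {a : K} {ν : Cardinal.{u}} (h : IsPt a ν) (hν : ν.IsRegular)
    (hJ : ¬ IsJonsson ν) : ∃ A : List K → Set K, (∀ l, #(A l) ≤ ℵ₀) ∧
      ∀ Y : Set K, Acc Y a → (∀ l : List K, (∀ x ∈ l, x ∈ Y) → A l ⊆ Y) → ∀ x < a, x ∈ Y := by
  classical
  unfold IsJonsson at hJ
  push Not at hJ
  obtain ⟨L, hL, M, hM, hMν, hS⟩ := hJ
  have hMne : Nonempty M := by
    rw [← Cardinal.mk_ne_zero_iff, hMν]
    exact hν.ne_zero
  obtain ⟨e⟩ : Nonempty (M ≃ Set.Iio a) := Cardinal.eq.1 (by rw [hMν, h.card])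
  let L' := L.sum L.skolem₁
  let A : List K → Set K := fun l => {v | ∃ (n : ℕ) (F : L'.Functions n) (xs : Fin n → M),
    List.ofFn (fun i => (e (xs i)).1) = l ∧ v = (e (FirstOrder.Language.Structure.funMap F xs)).1}
  have hcount : Countable (Σ n, L'.Functions n) := by
    rw [← Cardinal.mk_le_aleph0_iff]
    refine FirstOrder.Language.card_functions_sum_skolem₁_le.trans (max_le le_rfl ?_)
    exact Cardinal.mk_le_aleph0_iff.2 hL
  have hAc : ∀ l, #(A l) ≤ ℵ₀ := by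
    intro l
    have h1 : ∀ p : Σ n, L'.Functions n, ∃ w : K, ∀ xs : Fin p.1 → M,
        List.ofFn (fun i => (e (xs i)).1) = l →
        w = (e (FirstOrder.Language.Structure.funMap p.2 xs)).1 := by
      intro p
      by_cases hex : ∃ xs : Fin p.1 → M, List.ofFn (fun i => (e (xs i)).1) = l
      · obtain ⟨xs, hxs⟩ := hex
        refine ⟨(e (FirstOrder.Language.Structure.funMap p.2 xs)).1, fun ys hys => ?_⟩
        have h2 : (fun i => (e (xs i)).1) = fun i => (e (ys i)).1 :=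
          List.ofFn_injective (hxs.trans hys.symm)
        have h3 : xs = ys := by
          funext i
          exact e.injective (Subtype.ext (congrFun h2 i))
        rw [h3]
      · exact ⟨a, fun xs hxs => absurd ⟨xs, hxs⟩ hex⟩
    choose w hw using h1
    have h2 : A l ⊆ Set.range w := by
      rintro v ⟨n, F, xs, h3, h4⟩
      exact ⟨⟨n, F⟩, by rw [hw ⟨n, F⟩ xs h3, h4]⟩
    exact Cardinal.le_aleph0_iff_set_countable.2 ((Set.countable_range w).mono h2)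
  refine ⟨A, hAc, fun Y hY hcl => ?_⟩
  let T : L'.Substructure M :=
    { carrier := {x | (e x).1 ∈ Y}
      fun_mem := by
        intro n F xs hxs
        refine hcl (List.ofFn (fun i => (e (xs i)).1)) ?_ ⟨n, F, xs, rfl, rfl⟩
        intro x hx
        obtain ⟨i, rfl⟩ := (List.mem_ofFn' _ _).1 hx
        exact hxs i }
  let T' : L.ElementarySubstructure M := T.elementarySkolem₁Reduct
  have hT' : (T' : Set M) = {x | (e x).1 ∈ Y} := rfl
  by_contra hcon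
  push Not at hcon
  obtain ⟨x, hxa, hxY⟩ := hcon
  have h1 : (T' : Set M) ≠ Set.univ := by
    intro h2
    have h3 : e.symm ⟨x, hxa⟩ ∈ (T' : Set M) := by rw [h2]; trivial
    rw [hT'] at h3
    have h4 : (e (e.symm ⟨x, hxa⟩)).1 ∈ Y := h3
    rw [Equiv.apply_symm_apply] at h4
    exact hxY h4
  have h2 := hS T' h1
  apply h2
  refine le_antisymm ((mk_set_le _).trans hMν.le) ?_
  rw [hT']
  by_contra hlt
  refine h.not_acc hν (s := Y) ?_ hY
  refine lt_of_le_of_lt ?_ (not_le.1 hlt)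
  let g : (Y ∩ Set.Iio a : Set K) → {x | (e x).1 ∈ Y} := fun y =>
    ⟨e.symm ⟨y.1, y.2.2⟩, by
      show (e (e.symm ⟨y.1, y.2.2⟩)).1 ∈ Y
      rw [Equiv.apply_symm_apply]; exact y.2.1⟩
  refine mk_le_of_injective (f := g) (fun y z hyz => ?_)
  have h3 : e.symm ⟨y.1, y.2.2⟩ = e.symm ⟨z.1, z.2.2⟩ := congrArg Subtype.val hyz
  have h4 := congrArg Subtype.val (e.symm.injective h3)
  exact Subtype.ext h4

/-- limit cardinals among the points -/
def LimPt (e : K) : Prop := (∃ a, a < e) ∧ ∀ a < e, ∃ b < e, #(Set.Iio a) < #(Set.Iio b)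

theorem limPt_club (hR : Reg K κ) (h0 : ℵ₀ < κ) (hlim : ∀ μ < κ, Order.succ μ < κ)
    (hsurj : ∀ μ < κ, ∃ b : K, μ ≤ #(Set.Iio b)) : IsClub {e : K | LimPt e} := by
  constructor
  · intro t ht htn _ x hx
    constructor
    · obtain ⟨z, hz⟩ := htn
      obtain ⟨a, ha⟩ := (ht hz).1
      exact ⟨a, lt_of_lt_of_le ha (hx.1 hz)⟩
    · intro a ha
      obtain ⟨z, hz, haz⟩ : ∃ z ∈ t, a < z := by
        by_contra hcon
        push Not at hcon
        exact absurd (hx.2 (fun z hz => hcon z hz)) (not_le.2 ha)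
      obtain ⟨b, hb, hab⟩ := (ht hz).2 a haz
      exact ⟨b, lt_of_lt_of_le hb (hx.1 hz), hab⟩
  · intro a
    have hg : ∀ x : K, ∃ y : K, #(Set.Iio x) < #(Set.Iio y) := by
      intro x
      obtain ⟨b, hb⟩ := hsurj (Order.succ #(Set.Iio x)) (hlim _ (hR.small x))
      exact ⟨b, lt_of_lt_of_le (Order.lt_succ _) hb⟩
    choose g hg using hg
    obtain ⟨x, c, hx0, hx, hlub, hxc⟩ := hR.exists_omega h0 g a
    refine ⟨c, ⟨⟨x 0, hxc 0⟩, fun y hy => ?_⟩, by rw [← hx0]; exact (hxc 0).le⟩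
    obtain ⟨n, hn⟩ : ∃ n, y < x n := by
      by_contra hcon
      push Not at hcon
      exact absurd (hlub.2 (by rintro _ ⟨n, rfl⟩; exact hcon n)) (not_le.2 hy)
    refine ⟨x (n + 1), hxc _, ?_⟩
    refine lt_of_le_of_lt (mk_le_mk_of_subset (Set.Iio_subset_Iio hn.le)) ?_
    exact lt_of_lt_of_le (hg (x n)) (mk_le_mk_of_subset (Set.Iio_subset_Iio (hx n).2.le))

theorem LimPt.isPt {e : K} (h : LimPt e) : IsPt e #(Set.Iio e) := by
  show Ordinal.typein (α := K) (· < ·) e = _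
  have hcard : ∀ x : K, (Ordinal.typein (α := K) (· < ·) x).card = #(Set.Iio x) := fun x =>
    (Ordinal.card_typein (α := K) (r := (· < ·)) x)
  refine le_antisymm ?_ ?_
  · by_contra hcon
    obtain ⟨x, hx⟩ := Ordinal.typein_surj (α := K) (· < ·)
      (lt_trans (not_le.1 hcon) (Ordinal.typein_lt_type (α := K) (· < ·) e))
    have hxe : x < e := by
      rw [← Ordinal.typein_lt_typein (α := K) (· < ·), hx]
      exact not_le.1 hcon
    obtain ⟨b, hb, hxb⟩ := h.2 x hxe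
    rw [← hcard x, hx, Cardinal.card_ord] at hxb
    exact absurd hxb (not_lt.2 (mk_le_mk_of_subset (Set.Iio_subset_Iio hb.le)))
  · rw [Cardinal.ord_le, hcard]

theorem LimPt.inf {e : K} (h : LimPt e) : ℵ₀ ≤ #(Set.Iio e) := by
  by_contra hcon
  obtain ⟨n, hn⟩ := Cardinal.lt_aleph0.1 (not_le.1 hcon)
  have h1 : ∀ k : ℕ, ∃ b < e, (k : Cardinal.{u}) ≤ #(Set.Iio b) := by
    intro k
    induction k with
    | zero =>
      obtain ⟨a, ha⟩ := h.1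
      exact ⟨a, ha, by simp⟩
    | succ k ih =>
      obtain ⟨b, hb, hk⟩ := ih
      obtain ⟨b', hb', hbb⟩ := h.2 b hb
      refine ⟨b', hb', ?_⟩
      have h2 := Order.succ_le_of_lt (lt_of_le_of_lt hk hbb)
      rw [Cardinal.succ_natCast] at h2
      exact_mod_cast h2
  obtain ⟨b, hb, hk⟩ := h1 n
  obtain ⟨b', hb', hbb⟩ := h.2 b hb
  rw [← hn] at hk
  exact absurd (lt_of_le_of_lt hk hbb) (not_lt.2 (mk_le_mk_of_subset (Set.Iio_subset_Iio hb'.le)))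

/-- a singular limit cardinal has a cofinal set smaller than all its points -/
theorem LimPt.exists_short {e : K} (h : LimPt e) (hreg : ¬ (#(Set.Iio e)).IsRegular) :
    ∃ s : Set K, (∀ w ∈ s, w < e) ∧ (∀ z < e, ∃ w ∈ s, z ≤ w) ∧ ∀ w ∈ s, #s < #(Set.Iio w) := by
  have h1 : (#(Set.Iio e)).ord.cof < #(Set.Iio e) := by
    by_contra hcon
    exact hreg ⟨h.inf, not_lt.1 hcon⟩
  have h2 : Order.cof (Set.Iio e) < #(Set.Iio e) := by
    rw [Order.cof_Iio, show Ordinal.typein (α := K) (· < ·) e = (#(Set.Iio e)).ord from h.isPt]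
    exact h1
  obtain ⟨s, hs, hsc⟩ := Order.exists_cof_eq (α := Set.Iio e)
  obtain ⟨g, hg, hgs⟩ := exists_seg (μ := #s) (δ := e) (by rw [hsc]; exact h2)
  obtain ⟨b, hb, hgb⟩ := h.2 g hg
  let s' : Set K := Subtype.val '' s ∩ Set.Ici b
  have hs' : #s' ≤ #s := (mk_le_mk_of_subset Set.inter_subset_left).trans mk_image_le
  refine ⟨s', ?_, ?_, ?_⟩
  · rintro w ⟨⟨x, hx, rfl⟩, -⟩
    exact x.2
  · intro z hz
    obtain ⟨x, hx, hzx⟩ := hs ⟨max z b, max_lt hz hb⟩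
    exact ⟨x.1, ⟨⟨x, hx, rfl⟩, (le_max_right z b).trans hzx⟩, (le_max_left z b).trans hzx⟩
  · rintro w ⟨-, hbw⟩
    exact lt_of_le_of_lt (hs'.trans hgs) (lt_of_lt_of_le hgb
      (mk_le_mk_of_subset (Set.Iio_subset_Iio hbw)))

end Points

/-! ### the theorem -/

section Final2

theorem narrow_cseq {κ : Cardinal.{u}} (h0 : ℵ₀ < κ) (hreg : κ.IsRegular)
    (hlim : ∀ μ < κ, Order.succ μ < κ) (hJ : IsJonsson κ)
    (hM : IsStationary {a : κ.ord.ToType | ∃ ν : Cardinal.{u}, ν.IsRegular ∧ IsPt a ν})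
    (hNJ : ¬ IsStationary {a : κ.ord.ToType | ∃ ν : Cardinal.{u},
      ν.IsRegular ∧ IsPt a ν ∧ IsJonsson ν})
    (C : κ.ord.ToType → Set κ.ord.ToType) (hC : ∀ β ξ, ξ < β → ∃ η ∈ C β, ξ ≤ η ∧ η < β)
    (hN : IsStationary {δ | #(traces C δ) < #(Set.Iio δ)}) :
    ∃ B : Set κ.ord.ToType, (∀ ξ, ∃ η ∈ B, ξ < η) ∧
      ∀ α, ∃ β, α ≤ β ∧ B ∩ Set.Iio α = C β ∩ Set.Iio α := by
  classical
  have hR : Reg κ.ord.ToType κ := reg_toType hreg
  have hK : #κ.ord.ToType = κ := mk_ord_toType κ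
  have hsurj : ∀ μ < κ, ∃ b : κ.ord.ToType, μ ≤ #(Set.Iio b) := by
    intro μ hμ
    have h1 : μ.ord < Ordinal.type (α := κ.ord.ToType) (· < ·) := by
      rw [Ordinal.type_toType]; exact Cardinal.ord_lt_ord.2 hμ
    obtain ⟨x, hx⟩ := Ordinal.typein_surj (α := κ.ord.ToType) (· < ·) h1
    exact ⟨x, (IsPt.card (a := x) (ν := μ) hx).ge⟩
  obtain ⟨D1, hD1, hdis⟩ := not_isStationary_iff.1 hNJ
  set S : Set κ.ord.ToType := {a | ∃ ν : Cardinal.{u}, ν.IsRegular ∧ IsPt a ν} with hS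
  set D0 : Set κ.ord.ToType := D1 ∩ {e | LimPt e} with hD0
  have hD0c : IsClub D0 := hD1.inter (hR.cof_ne h0) (limPt_club hR h0 hlim hsurj)
  have hf : ∀ e : κ.ord.ToType, ∃ s : Set κ.ord.ToType, e ∈ D0 → e ∉ S →
      (∀ w ∈ s, w < e) ∧ (∀ z < e, ∃ w ∈ s, z ≤ w) ∧ ∀ w ∈ s, #s < #(Set.Iio w) := by
    intro e
    by_cases h : e ∈ D0 ∧ e ∉ S
    · obtain ⟨s, hs⟩ := LimPt.exists_short h.1.2 (fun hr => h.2 ⟨_, hr, LimPt.isPt h.1.2⟩)
      exact ⟨s, fun _ _ => hs⟩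
    · exact ⟨∅, fun h1 h2 => absurd ⟨h1, h2⟩ h⟩
  choose f hf using hf
  have hA : ∀ e : κ.ord.ToType, ∃ A : List κ.ord.ToType → Set κ.ord.ToType,
      (∀ l, #(A l) ≤ ℵ₀) ∧ (e ∈ D0 → e ∈ S → ∀ Y : Set κ.ord.ToType, Acc Y e →
      (∀ l : List κ.ord.ToType, (∀ x ∈ l, x ∈ Y) → A l ⊆ Y) → ∀ x < e, x ∈ Y) := by
    intro e
    by_cases h : e ∈ D0 ∧ e ∈ S
    · obtain ⟨hD, ν, hν, hpt⟩ := h
      have hnj : ¬ IsJonsson ν := fun hj =>
        Set.disjoint_left.1 hdis (show e ∈ {a | ∃ ν : Cardinal.{u},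
          ν.IsRegular ∧ IsPt a ν ∧ IsJonsson ν} from ⟨ν, hν, hpt, hj⟩) hD.1
      obtain ⟨A, hA1, hA2⟩ := hpt.exists_alg hν hnj
      exact ⟨A, hA1, fun _ _ => hA2⟩
    · refine ⟨fun _ => ∅, fun l => by simp, fun h1 h2 => absurd ⟨h1, h2⟩ h⟩
  choose A hA1 hA2 using hA
  refine exists_guess_set (D0 := D0) (S := S) (f := f) hJ hR h0 hK hlim C hC hD0c
    (fun e he heS => (hf e he heS).1) (fun e he heS => (hf e he heS).2.1) ?_ A hA1 hA2 hM hN
  rintro e he heS γ ⟨ν, hν, hpt⟩ hγe hacc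
  have hγne : (Set.Iio γ).Nonempty := by
    rw [← Set.nonempty_coe_sort, ← Cardinal.mk_ne_zero_iff, hpt.card]
    exact hν.ne_zero
  obtain ⟨z, hz⟩ := hγne
  obtain ⟨w, hw, hzw, hwγ⟩ := hacc z hz
  refine hpt.not_acc hν ?_ hacc
  refine lt_of_le_of_lt (mk_le_mk_of_subset Set.inter_subset_left) ?_
  refine lt_of_lt_of_le ((hf e he heS).2.2 w hw) ?_
  rw [← hpt.card]
  exact mk_le_mk_of_subset (Set.Iio_subset_Iio hwγ.le)


/-- a weakly Mahlo cardinal is an uncountable limit cardinal -/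
theorem mahlo_limit {κ : Cardinal.{u}} (hreg : κ.IsRegular)
    (hM : IsStationary {a : κ.ord.ToType | ∃ ν : Cardinal.{u}, ν.IsRegular ∧ IsPt a ν}) :
    ℵ₀ < κ ∧ ∀ μ < κ, Order.succ μ < κ := by
  have hR : Reg κ.ord.ToType κ := reg_toType hreg
  constructor
  · obtain ⟨a, ν, hν, hpt⟩ := hM.nonempty
    refine lt_of_le_of_lt hν.aleph0_le ?_
    rw [← hpt.card]
    exact hR.small a
  · intro μ hμ
    have h1 : μ.ord < Ordinal.type (α := κ.ord.ToType) (· < ·) := by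
      rw [Ordinal.type_toType]; exact Cardinal.ord_lt_ord.2 hμ
    obtain ⟨b, hb⟩ := Ordinal.typein_surj (α := κ.ord.ToType) (· < ·) h1
    obtain ⟨a, ⟨⟨ν, hν, hpt⟩, hba⟩, -⟩ := (isStationary_tail hR hM b) IsClub.univ
    have h2 : μ < ν := by
      rw [← Cardinal.ord_lt_ord, ← hb, ← show Ordinal.typein (α := κ.ord.ToType) (· < ·) a = ν.ord
        from hpt]
      exact (Ordinal.typein_lt_typein (α := κ.ord.ToType) (· < ·)).2 hba
    refine lt_of_le_of_lt (Order.succ_le_of_lt h2) ?_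
    rw [← hpt.card]
    exact hR.small a

theorem narrow_cseq' {κ : Cardinal.{u}} (hreg : κ.IsRegular) (hJ : IsJonsson κ)
    (hM : IsStationary {a : κ.ord.ToType | ∃ ν : Cardinal.{u}, ν.IsRegular ∧ IsPt a ν})
    (hNJ : ¬ IsStationary {a : κ.ord.ToType | ∃ ν : Cardinal.{u},
      ν.IsRegular ∧ IsPt a ν ∧ IsJonsson ν})
    (C : κ.ord.ToType → Set κ.ord.ToType) (hC : ∀ β ξ, ξ < β → ∃ η ∈ C β, ξ ≤ η ∧ η < β)
    (hN : IsStationary {δ | #(traces C δ) < #(Set.Iio δ)}) :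
    ∃ B : Set κ.ord.ToType, (∀ ξ, ∃ η ∈ B, ξ < η) ∧
      ∀ α, ∃ β, α ≤ β ∧ B ∩ Set.Iio α = C β ∩ Set.Iio α :=
  narrow_cseq (mahlo_limit hreg hM).1 hreg (mahlo_limit hreg hM).2 hJ hM hNJ C hC hN

end Final2

end Pool.Agent.H93.Jon
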